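import Pool.Graph.R_seed8.Y180.CT.Loc3

/-!
# The local condition at the prime above three: the valuation
-/

set_option autoImplicit false
set_option linter.unusedSectionVars false
set_option linter.unusedVariables false

namespace Pool.Agent.Helper68.C2.Loc3b

open WeierstrassCurve
open Pool.Agent.Y692.QS
open Pool.Agent.Y715.T.Gi Pool.Agent.Y715.T.Nr Pool.Agent.Y715.T.Df Pool.Agent.Y715.T.Ell
open Pool.Agent.Y715.T.Red Pool.Agent.Y715.T.Thr
open Pool.Agent.Y703.CT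
open Pool.Agent.Y180.CT

open scoped Classical

variable {I : PadicAlgCl 3}

/-- the valuation of the ordinate is divisible by three -/
theorem ord_val {δ X Y : PadicAlgCl 3} (hδ : ‖δ‖ = 1) (hX : X ∈ Kl I) (hY : Y ∈ Kl I)
    (hY0 : Y ≠ 0) (he : Y ^ 2 + δ * Y = X ^ 3) : ∃ V ∈ Kl I, V ≠ 0 ∧ ‖Y‖ = ‖V‖ ^ 3 := by
  rcases lt_trichotomy ‖Y‖ 1 with h1 | h1 | h1
  · have h2 : ‖Y + δ‖ = 1 := by
      rw [add_comm, eq_of_lt, hδ]
      rwa [hδ]
    have h3 : ‖Y‖ = ‖X‖ ^ 3 := by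
      rw [← norm_pow, ← he]
      have e : Y ^ 2 + δ * Y = Y * (Y + δ) := by ring
      rw [e, norm_mul, h2, mul_one]
    refine ⟨X, hX, ?_, h3⟩
    rintro rfl
    rw [norm_zero, zero_pow three_ne_zero, norm_eq_zero] at h3
    exact hY0 h3
  · exact ⟨1, one_mem _, one_ne_zero, by rw [h1, norm_one, one_pow]⟩
  · have h2 : ‖Y ^ 2 + δ * Y‖ = ‖Y‖ ^ 2 := by
      rw [eq_of_lt, norm_pow]
      rw [norm_mul, hδ, one_mul, norm_pow]
      nlinarith
    have h3 : ‖Y‖ ^ 2 = ‖X‖ ^ 3 := by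
      rw [← norm_pow X, ← he, h2]
    have hX0 : X ≠ 0 := by
      rintro rfl
      rw [norm_zero, zero_pow three_ne_zero] at h3
      exact hY0 (norm_eq_zero.1 (pow_eq_zero_iff two_ne_zero |>.1 h3))
    have hYn : ‖Y‖ ≠ 0 := norm_ne_zero_iff.2 hY0
    refine ⟨Y / X, div_mem hY hX, div_ne_zero hY0 hX0, ?_⟩
    rw [norm_div, div_pow, ← h3]
    field_simp

/-- the exponent of `lam` -/
theorem three_dvd (hI : I ^ 2 + I + 1 = 0) {v : PadicAlgCl 3} {u q : Ei} {g : ℕ} (hu : IsUnit u)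
    (hv : v ∈ Kl I) (h : ‖v‖ ^ 3 = ‖ev I hI (u * lam ^ g * (1 + 3 * q))‖) : 3 ∣ g := by
  have hl := norm_lam hI
  have hlp := lam_pos hI
  have hun : ‖ev I hI u‖ = 1 := by
    refine le_antisymm (ev_le hI u) ?_
    obtain ⟨u', hu'⟩ := hu.exists_right_inv
    have h1 : ‖ev I hI u‖ * ‖ev I hI u'‖ = 1 := by
      rw [← norm_mul, ← map_mul, hu', map_one, norm_one]
    by_contra hcon
    push Not at hcon
    have h2 := ev_le hI u'
    nlinarith [norm_nonneg (ev I hI u), norm_nonneg (ev I hI u')]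
  have hln : ‖ev I hI lam‖ = ‖1 + 2 * I‖ := by rw [ev_lam]
  have hqn : ‖ev I hI (1 + 3 * q)‖ = 1 := by
    rw [map_add, map_one, map_mul, map_ofNat]
    exact norm_one_add (ev_le hI q)
  have hn : ‖v‖ ^ 3 = ‖1 + 2 * I‖ ^ g := by
    rw [map_mul, map_mul, norm_mul, norm_mul, hun, hqn, map_pow, norm_pow, hln, one_mul,
      mul_one] at h
    exact h
  have hv0 : v ≠ 0 := by
    rintro rfl
    rw [norm_zero, zero_pow three_ne_zero] at hn
    exact (pow_pos hlp g).ne hn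
  obtain ⟨m, hm⟩ := val hI (Kl_le hv) hv0
  have h3 : (3 : ℝ) ^ (3 * m) = (3 : ℝ) ^ (-(g : ℤ)) := by
    have e1 : (3 : ℝ) ^ (3 * m) = (‖v‖ ^ 3) ^ 2 := by
      rw [mul_comm, zpow_mul, ← hm]
      norm_cast
      ring
    have e2 : (3 : ℝ) ^ (-(g : ℤ)) = (‖1 + 2 * I‖ ^ g) ^ 2 := by
      rw [← pow_mul, mul_comm g, pow_mul, hl, zpow_neg, zpow_natCast, inv_pow]
    rw [e1, e2, hn]
  have h4 := zpow_right_injective₀ (a := (3 : ℝ)) (by norm_num) (by norm_num) h3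
  omega

section final

variable {i₀ : QB} {hi : i₀ ^ 2 + i₀ + 1 = 0} {D : Ei} {u : QB} {a h : GK i₀ → ZMod 3}
  {ι : QB →ₐ[ℚ] PadicAlgCl 3} {R : Pt (PadicAlgCl 3)}

theorem core3b (hDl : ¬ lam ∣ D) (hT : Tw hi D u a)
    {v q : Ei} {g : ℕ} (hv : IsUnit v) (hK : Kc hi (v * lam ^ g * (1 + 3 * q)) h)
    (hS : St1 hi ι a h R) : 3 ∣ g := by
  have hI := iota_sq' hi ι
  have hI3 : ι i₀ ^ 3 = 1 := by linear_combination (ι i₀ - 1) * hI
  obtain ⟨δ, hδ⟩ : ∃ δ, δ = ev (ι i₀) hI D := ⟨_, rfl⟩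
  have hδm : δ ∈ Kl (ι i₀) := by rw [hδ]; exact ev_mem hI D
  have hδ1 : ‖δ‖ = 1 := by
    rw [hδ]
    exact eq_one_of_not_lt hI fun h => hDl ((dvd_iff hI prime_lam (lam_lt hI) D).2 h)
  have hU3 : ι u ^ 3 = δ := by
    rw [← map_pow, hT.cube, iota_ev' hi ι, hδ]
  have hδ0 : δ ≠ 0 := by
    intro h0
    rw [h0, norm_zero] at hδ1
    exact zero_ne_one hδ1
  have hU0 : ι u ≠ 0 := by
    intro h0
    rw [h0, zero_pow three_ne_zero] at hU3
    exact hδ0 hU3.symm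
  -- the cube root
  obtain ⟨s, hs⟩ := IsAlgClosed.exists_pow_nat_eq (ev i₀ hi (v * lam ^ g * (1 + 3 * q)))
    (n := 3) (by norm_num)
  have hZ : ι s ^ 3 = ev (ι i₀) hI (v * lam ^ g * (1 + 3 * q)) := by
    rw [← map_pow, hs, iota_ev' hi ι]
  have hts : ∀ (τ : Au 3) (σ : GK i₀), Cmp ι τ σ → τ (ι s) = ι i₀ ^ (h σ).val * ι s := by
    intro τ σ hc
    rw [hc, hK s hs σ, map_mul, map_pow]
  have hz0 : v * lam ^ g * (1 + 3 * q) ≠ 0 := by
    refine mul_ne_zero (mul_ne_zero hv.ne_zero (pow_ne_zero _ prime_lam.ne_zero)) ?_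
    intro h0
    have h1 : ev (ι i₀) hI (1 + 3 * q) = 0 := by rw [h0, map_zero]
    rw [map_add, map_one, map_mul, map_ofNat] at h1
    exact one_add_ne (ev_le hI q) h1
  have hZ0 : ι s ^ 3 ≠ 0 := by
    rw [hZ]
    exact ev_ne hI hz0
  have hs0 : ι s ≠ 0 := fun h0 => hZ0 (by rw [h0, zero_pow three_ne_zero])
  have hZm : ι s ^ 3 ∈ Kl (ι i₀) := by rw [hZ]; exact ev_mem hI _
  by_cases hQ0 : R - im (isE _) hI R = 0
  · -- `R` is a multiple of `T`
    obtain ⟨c, hc⟩ := ker_tt hI hQ0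
    have hm : ι s ∈ Kl (ι i₀) := by
      intro τ hτ
      obtain ⟨σ, hcm⟩ := exists_cmp ι τ hτ
      have h1 := hS τ σ hcm
      rw [hc, pm_tt, jj_tt, sub_self] at h1
      have h2 := tt_eq_zero.1 h1.symm
      rw [hts τ σ hcm, h2, ZMod.val_zero, pow_zero, one_mul]
    exact three_dvd (q := q) hI hv hm (by rw [← hZ, norm_pow])
  · obtain ⟨x, y, hn, hR⟩ : ∃ x y, ∃ hn : (W0.baseChange (PadicAlgCl 3)).toAffine.Nonsingular x y,
        R = .some x y hn := by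
      rcases R with _ | ⟨x, y, hn⟩
      · exfalso
        apply hQ0
        show (0 : Pt (PadicAlgCl 3)) - im (isE _) hI 0 = 0
        rw [map_zero, sub_zero]
      · exact ⟨x, y, hn, rfl⟩
    have he := ((isE _).eqn x y).1 hn.1
    have hx : x ≠ 0 := by
      intro h0
      apply hQ0
      rw [hR, im_some, sub_eq_zero, Affine.Point.some.injEq]
      exact ⟨by rw [h0, mul_zero], rfl⟩
    obtain ⟨XQ, hnQ, eQ⟩ : ∃ XQ, ∃ hnQ : (W0.baseChange (PadicAlgCl 3)).toAffine.Nonsingular XQ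
        (gg (ι i₀) R ^ 3), R - im (isE _) hI R = .some XQ _ hnQ := by
      rw [hR]
      obtain ⟨XQ, hnQ, eQ, -⟩ := one_sub_im (isE _) hI hn hx
      exact ⟨XQ, hnQ, eQ⟩
    by_cases hG : gg (ι i₀) R = 0
    · -- `R - J R = T`
      have hlam := lam_ne (isE (PadicAlgCl 3)) hI
      have hy : y = ι i₀ ^ 2 := by
        rw [hR, gg_some, div_eq_zero_iff] at hG
        rcases hG with h1 | h1
        · exact sub_eq_zero.1 h1
        · exact absurd h1 (mul_ne_zero hlam hx)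
      have h0 := (isE (PadicAlgCl 3)).neg_nons hn
      have hR' : -R = .some x (-y - 1) h0 := by
        rw [hR]
        exact (isE _).neg_eq hn h0
      have hgg : gg (ι i₀) (-R) = 1 / x := by
        rw [hR', gg_some, hy, div_eq_div_iff (mul_ne_zero hlam hx) hx]
        linear_combination (-2 * x) * hI
      have hx3 : x ^ 3 = -1 := by
        rw [← he, hy]
        linear_combination (ι i₀ ^ 2 - ι i₀ + 1) * hI
      have hW3 : (ι u * gg (ι i₀) (-R)) ^ 3 = -δ := by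
        rw [hgg, mul_pow, hU3, div_pow, hx3]
        ring
      have hWn : ‖ι u * gg (ι i₀) (-R)‖ = 1 := by
        have h1 := congrArg norm hW3
        rw [norm_pow, norm_neg, hδ1] at h1
        exact (pow_eq_one_iff_of_nonneg (norm_nonneg _) three_ne_zero).1 h1
      have hm : ι s / (ι u * gg (ι i₀) (-R)) ∈ Kl (ι i₀) := by
        intro τ hτ
        obtain ⟨σ, hcm⟩ := exists_cmp ι τ hτ
        rw [map_div₀, hts τ σ hcm, tau_g hT (st1_neg hS) hR' hx hcm]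
        have h1 := pow_three hI (-h σ)
        rw [neg_neg] at h1
        rw [← h1, mul_div_mul_left]
        exact pow_ne_zero _ (I_ne (isE (PadicAlgCl 3)) hI)
      refine three_dvd (q := q) hI hv hm ?_
      rw [← hZ, norm_pow, norm_div, hWn, div_one]
    · -- the general case
      have hW0 : ι u * gg (ι i₀) R ≠ 0 := mul_ne_zero hU0 hG
      have hm : ι s * (ι u * gg (ι i₀) R) ∈ Kl (ι i₀) := by
        intro τ hτ
        obtain ⟨σ, hcm⟩ := exists_cmp ι τ hτ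
        rw [map_mul, hts τ σ hcm, tau_g hT hS hR hx hcm]
        have h1 := pow_cancel hI (h σ)
        linear_combination (ι s * (ι u * gg (ι i₀) R)) * h1
      obtain ⟨W, hW⟩ : ∃ W, W = ι u * gg (ι i₀) R := ⟨_, rfl⟩
      rw [← hW] at hm hW0
      have hYm : W ^ 3 ∈ Kl (ι i₀) := by
        have e : W ^ 3 = (ι s * W) ^ 3 / ι s ^ 3 := by
          rw [mul_pow, mul_div_cancel_left₀ _ hZ0]
        rw [e]
        exact div_mem (pow_mem hm 3) hZm
      have hXm : ι u ^ 2 * XQ ∈ Kl (ι i₀) := tau_X hT hS eQ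
      have heq := ((isE _).eqn _ _).1 hnQ.1
      have heY : (W ^ 3) ^ 2 + δ * W ^ 3 = (ι u ^ 2 * XQ) ^ 3 := by
        rw [hW, ← hU3]
        linear_combination (ι u ^ 6) * heq
      obtain ⟨V, hV, hV0, eY⟩ := ord_val hδ1 hXm hYm (pow_ne_zero 3 hW0) heY
      refine three_dvd (q := q) hI hv (div_mem hm hV) ?_
      have hVn : ‖V‖ ^ 3 ≠ 0 := pow_ne_zero 3 (norm_ne_zero_iff.2 hV0)
      rw [← hZ, norm_div, norm_mul, div_pow, mul_pow, ← norm_pow W, eY, norm_pow,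
        mul_div_cancel_right₀ _ hVn]

end final

end Pool.Agent.Helper68.C2.Loc3b
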