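import Pool.Agent.Helper68.C2.LK2
import Pool.Agent.Helper68.C2.Loc3b
import Pool.Agent.Helper68.C2.Ram2
import Pool.Graph.R_seed8.Y48.CT.SEL
import Pool.Graph.R_seed8.Y350.CT.REC

/-!
# The Selmer group for `D = w^κ ∏ π_j^(e_j)`
-/

set_option autoImplicit false
set_option linter.unusedSectionVars false

open scoped Classical

namespace Pool.Agent.Helper68.C2.Sel2

open Pool.Agent.Y692.QS (Ei w nr)
open Pool.Agent.Y715.T.Gi Pool.Agent.Y715.T.Nr Pool.Agent.Y715.T.Df
open Pool.Agent.Y715.T.Rec (cs)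
open Pool.Agent.Y715.T.RecG
open Pool.Agent.Y715.T.Sel (fac kc_mul kc_one kc_congr kc_pow kc_cube kc_uniq kc_cancel kc_unit
  kc_exp ex_root root_ne iota_sq iota_ev odd_of not_dvd_of_unr resid_kc exists_emb3)
open Pool.Agent.Y703.CT
open Pool.Agent.Y48.CT.SEL
open Pool.Agent.Helper68.C2
open Pool.Agent.Helper68.C2.Chr (tq tq_prim)
open Pool.Agent.Helper68.C2.LK2 (cs_w w_unit not_dvd_w)

variable {J : Type} [Fintype J] {π : J → Ei} {e : J → ZMod 3} {κ : ZMod 3}
variable {i₀ : QB} {hi : i₀ ^ 2 + i₀ + 1 = 0}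

/-- the primes and `w` -/
def pw (π : J → Ei) : Option J → Ei := fun o => o.elim w π

/-- the exponents -/
def ew (e : J → ZMod 3) (κ : ZMod 3) : Option J → ZMod 3 := fun o => o.elim κ e

@[simp] lemma pw_none : pw π none = w := rfl
@[simp] lemma pw_some (j : J) : pw π (some j) = π j := rfl
@[simp] lemma ew_none : ew e κ none = κ := rfl
@[simp] lemma ew_some (j : J) : ew e κ (some j) = e j := rfl

lemma prod_pw (x : Option J → ℕ) : ∏ o, pw π o ^ x o = w ^ x none * ∏ j, π j ^ x (some j) := by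
  rw [Fintype.prod_option]
  rfl

lemma pD2_eq : pD2 π e κ = ∏ o, pw π o ^ (ew e κ o).val := by
  rw [prod_pw]
  rfl

lemma pw_ne (hD : Dt π e) (o : Option J) : pw π o ≠ 0 := by
  rcases o with _ | j
  · exact w_unit.ne_zero
  · exact p0 hD j

lemma pr0w (hD : Dt π e) (f : Option J → ℕ) : ∏ o, pw π o ^ f o ≠ 0 :=
  Finset.prod_ne_zero_iff.2 fun o _ => pow_ne_zero _ (pw_ne hD o)

lemma pD2_ne (hD : Dt π e) : pD2 π e κ ≠ 0 := by
  rw [pD2_eq]
  exact pr0w hD _

lemma esqw (hD : Dt π e) (hκ : κ ≠ 0) (o : Option J) : ew e κ o * ew e κ o = 1 := by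
  rcases o with _ | j
  · show κ * κ = 1
    revert hκ
    generalize κ = c
    revert c
    decide
  · exact esq hD j

lemma cf_unit {u z : Ei} (hu : IsUnit u) (hz : CF z) : CF (u * z) :=
  ⟨mul_ne_zero hu.ne_zero hz.1, fun d hd => hz.2 d ((IsUnit.dvd_mul_left hu).1 hd)⟩

lemma cf_prodw (hD : Dt π e) (f : Option J → ZMod 3) : CF (∏ o, pw π o ^ (f o).val) := by
  rw [prod_pw]
  exact cf_unit (w_unit.pow _) (cf_prod hD fun j => f (some j))

lemma ndw (hD : Dt π e) (j : J) (o : Option J) (h : o ≠ some j) : ¬ π j ∣ pw π o := by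
  rcases o with _ | i
  · exact not_dvd_w (hD.pq j).prime
  · exact hD.nd i j fun h1 => h (congrArg some h1)

lemma not_dvd_prodw (hD : Dt π e) (j : J) (x : Option J → ℕ) :
    ¬ π j ∣ ∏ o ∈ Finset.univ.erase (some j), pw π o ^ x o := by
  rw [(hD.pq j).prime.dvd_finsetProd_iff]
  rintro ⟨i, hij, hd⟩
  exact ndw hD j i (Finset.ne_of_mem_erase hij) ((hD.pq j).prime.dvd_of_dvd_pow hd)

lemma norm_unit {p : ℕ} [Fact p.Prime] {I : PadicAlgCl p} (hI : I ^ 2 + I + 1 = 0) {u : Ei}
    (hu : IsUnit u) : ‖ev I hI u‖ = 1 := by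
  refine le_antisymm (ev_le hI u) ?_
  obtain ⟨u', hu'⟩ := hu.exists_right_inv
  have h1 : ‖ev I hI u‖ * ‖ev I hI u'‖ = 1 := by
    rw [← norm_mul, ← map_mul, hu', map_one, norm_one]
  by_contra hcon
  push Not at hcon
  have h2 := ev_le hI u'
  nlinarith [norm_nonneg (ev I hI u), norm_nonneg (ev I hI u')]

/-- the norm of `D` at a place prime to the `π j` -/
lemma norm_pD2_one {p : ℕ} [Fact p.Prime] (ι : QB →ₐ[ℚ] PadicAlgCl p)
    (h : ∀ j, ¬ ‖ι (ev i₀ hi (π j))‖ < 1) : ‖ι (ev i₀ hi (pD2 π e κ))‖ = 1 := by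
  have hI := iota_sq' hi ι
  rw [iota_ev]
  unfold pD2 pD
  rw [map_mul, norm_mul, norm_unit _ (w_unit.pow _), one_mul, map_prod, norm_prod]
  apply Finset.prod_eq_one
  intro j _
  rw [map_pow, norm_pow]
  have h4 := h j
  rw [iota_ev] at h4
  rw [eq_one_of_not_lt _ h4, one_pow]

/-- the norm of `D` at a place above `π j` -/
lemma norm_pD2_j (hD : Dt π e) {p : ℕ} [Fact p.Prime] (hp : p ≠ 3) (ι : QB →ₐ[ℚ] PadicAlgCl p)
    (j : J) (h : ‖ι (ev i₀ hi (π j))‖ < 1) :
    ‖ι (ev i₀ hi (pD2 π e κ))‖ = (p : ℝ) ^ (-((e j).val : ℤ)) := by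
  have hI := iota_sq' hi ι
  rw [iota_ev] at h ⊢
  unfold pD2 pD
  rw [map_mul, norm_mul, norm_unit _ (w_unit.pow _), one_mul, map_prod, norm_prod,
    Finset.prod_eq_single j]
  · rw [map_pow, norm_pow, norm_prime _ hp (hD.pq j).prime h, inv_pow, zpow_neg, zpow_natCast]
  · intro i _ hij
    rw [map_pow, norm_pow]
    have h4 : ¬ ‖ev (ι i₀) (iota_sq hi ι) (π i)‖ < 1 := by
      intro h5
      exact hD.nd i j hij ((dvd_iff _ (hD.pq j).prime h _).2 h5)
    rw [eq_one_of_not_lt _ h4, one_pow]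
  · intro h4
    exact absurd (Finset.mem_univ j) h4

lemma not_lam_pD2 (hD : Dt π e) : ¬ lam ∣ pD2 π e κ := LK2.not_tht hD

/-- **the Selmer group** -/
theorem sel2 (hD : Dt π e) (hκ : κ ≠ 0) (hker : KerW π e κ) {u : QB} {a : GK i₀ → ZMod 3}
    (hTw : Tw hi (pD2 π e κ) u a) : Sel1 hi a := by
  intro h hc hm hloc
  have hD0 : pD2 π e κ ≠ 0 := pD2_ne hD
  -- the character `a`
  have hb : Kc hi (∏ o, pw π o ^ (ew e κ o).val) (fun σ => -a σ) := by
    rw [← pD2_eq]
    exact kc_of hi (root_ne (hi := hi) hD0 hTw.cube) hTw.cube hTw.act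
  -- the Kummer generator
  obtain ⟨z, hz, hzh⟩ := kum hi h hc hm
  obtain ⟨v₀, g, x₀, hu, ez⟩ := fac (π := π) z hz.1 (support hD hz hzh
    (fun p _ ι hp3 hpj τ σ hcc hτ => by
      obtain ⟨R, hR⟩ := hloc p ι
      exact (Ram2.unr hp3 hD0 hTw (norm_pD2_one ι hpj) hR τ σ hcc hτ).2))
  rw [ez] at hzh
  obtain ⟨ι₃⟩ := exists_emb3
  obtain ⟨q, hq⟩ := prod_form hD x₀
  have hq' : ∏ j, π j ^ x₀ j = 1 + 3 * q := by rw [← hq]; ring
  obtain ⟨ε, n, hε, hv₀⟩ := Pool.Agent.Y715.T.Thr.unit_cases hu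
  have hx : ∃ x : Option J → ℕ, Kc hi (∏ o, pw π o ^ x o) h := by
    refine ⟨fun o => o.elim n.val x₀, ?_⟩
    rw [prod_pw]
    show Kc hi (w ^ n.val * ∏ j, π j ^ x₀ j) h
    obtain ⟨R, hR⟩ := hloc 3 ι₃
    have hzh' := hzh
    rw [hq'] at hzh'
    obtain ⟨g', hg'⟩ := Loc3b.core3b (not_lam_pD2 hD) hTw hu hzh' hR
    refine kc_unit (mul_ne_zero (w_unit.pow _).ne_zero (pr0 hD _)) hε (kc_cancel (z' := lam ^ g') ?_
      (pow_ne_zero _ prime_lam.ne_zero) ?_)
    · refine mul_ne_zero ?_ (mul_ne_zero (w_unit.pow _).ne_zero (pr0 hD _))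
      rcases hε with rfl | rfl
      · exact one_ne_zero
      · exact neg_ne_zero.2 one_ne_zero
    · have e1 : ε * (w ^ n.val * ∏ j, π j ^ x₀ j) * (lam ^ g') ^ 3 =
          v₀ * lam ^ g * ∏ j, π j ^ x₀ j := by
        rw [hg', hv₀, ← pow_mul, mul_comm g' 3]
        ring
      rw [e1]
      exact hzh
  obtain ⟨x, hx⟩ := hx
  set v : Option J → ZMod 3 := fun o => x o * ew e κ o with hv
  have hxv : ∀ o, (x o : ZMod 3) = ew e κ o * v o := by
    intro o
    have := esqw (κ := κ) hD hκ o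
    calc (x o : ZMod 3) = x o * (ew e κ o * ew e κ o) := by rw [this, mul_one]
      _ = _ := by rw [hv]; ring
  have heq : ∀ j : J, ∑ i, e i * cs (π j) (π i) * (v (some i) - v (some j)) =
      κ * rq (π j) * (v none - v (some j)) := by
    intro j
    obtain ⟨p, hp, ι, hl⟩ := exists_emb hi (hD.pq j).prime
    have hp3 := odd_of hi ι (hD.pq j).prime hl (not_assoc_lam (hD.pq j))
    obtain ⟨R, hR⟩ := hloc p ι
    have hej : ¬ 3 ∣ (e j).val := by
      have h6 : (e j).val < 3 := ZMod.val_lt _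
      have h7 : (e j).val ≠ 0 := by
        intro h8
        exact hD.e0 j ((ZMod.val_eq_zero _).1 h8)
      omega
    obtain ⟨ε, hε⟩ := Ram2.ram hp3 hD0 hTw hej (norm_pD2_j hD hp3 ι j hl) hR
    -- the character that is trivial at `π j`
    set n : ℕ := ε.val with hn
    have hn3 : (n : ZMod 3) = ε := ZMod.natCast_zmod_val _
    have hy := kc_mul (pr0w hD x) (pow_ne_zero n (pr0w hD _)) hx (kc_pow (pr0w hD _) hb n)
    have hy1 : ∀ (τ : Au p) (σ : GK i₀), Cmp ι τ σ → h σ + n * -a σ = 0 := by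
      intro τ σ hcc
      rw [hε τ σ hcc, hn3]
      ring
    have ey : (∏ o, pw π o ^ x o) * (∏ o, pw π o ^ (ew e κ o).val) ^ n =
        ∏ o, pw π o ^ (x o + (ew e κ o).val * n) := by
      rw [← Finset.prod_pow, ← Finset.prod_mul_distrib]
      refine Finset.prod_congr rfl fun i _ => ?_
      rw [← pow_mul, ← pow_add]
    rw [ey] at hy
    set y : Option J → ZMod 3 := fun o => x o + ew e κ o * ε with hydef
    have hy2 : Kc hi (∏ o, pw π o ^ (y o).val) (fun σ => h σ + n * -a σ) := by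
      refine kc_exp (pw_ne hD) (fun o => ?_) hy
      rw [ZMod.natCast_zmod_val, hydef]
      push_cast
      rw [hn3, ZMod.natCast_zmod_val]
    have hyj : y (some j) = 0 := by
      have h1 := not_dvd_of_unr (cf_prodw hD y) hy2 hp3 ι (hD.pq j).prime hl
        (fun τ σ hcc _ => hy1 τ σ hcc)
      by_contra hne
      apply h1
      refine dvd_trans (dvd_pow_self (π j) ?_) (Finset.dvd_prod_of_mem
        (fun o => pw π o ^ (y o).val) (Finset.mem_univ (some j)))
      rwa [Ne, ZMod.val_eq_zero]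
    have hεv : ε = -v (some j) := by
      have h1 : (x (some j) : ZMod 3) + ew e κ (some j) * ε = 0 := hyj
      have h2 := esqw (κ := κ) hD hκ (some j)
      rw [hxv (some j)] at h1
      calc ε = (ew e κ (some j) * ew e κ (some j)) * ε := by rw [h2, one_mul]
        _ = ew e κ (some j) * (ew e κ (some j) * v (some j) + ew e κ (some j) * ε) -
            (ew e κ (some j) * ew e κ (some j)) * v (some j) := by ring
        _ = _ := by rw [h1, h2]; ring
    have hyi : ∀ o, y o = ew e κ o * (v o - v (some j)) := by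
      intro i
      rw [hydef]
      change (x i : ZMod 3) + ew e κ i * ε = _
      rw [hxv i, hεv]
      ring
    have e2 : ∏ o, pw π o ^ (y o).val =
        ∏ o ∈ Finset.univ.erase (some j), pw π o ^ (y o).val := by
      rw [← Finset.mul_prod_erase Finset.univ (fun o => pw π o ^ (y o).val)
        (Finset.mem_univ (some j)), hyj, ZMod.val_zero, pow_zero, one_mul]
    rw [e2] at hy2
    have hcube := resid_kc hy2 hp3 ι (hD.pq j).prime hl hy1
    have hnd := not_dvd_prodw hD j (fun o => (y o).val)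
    have h9 := (hD.pq j).norm
    have hpj := (hD.pq j).prime
    have hcs := (cs_zero_iff hpj h9 hnd).2 hcube
    have hnd1 : ∀ i ∈ Finset.univ.erase (some j), ¬ π j ∣ pw π i := fun i hij =>
      ndw hD j i (Finset.ne_of_mem_erase hij)
    rw [cs_prod hpj h9 _ _ (fun i hij h1 => hnd1 i hij (hpj.dvd_of_dvd_pow h1))] at hcs
    have h10 : ∑ o : Option J, ew e κ o * cs (π j) (pw π o) * (v o - v (some j)) = 0 := by
      rw [← Finset.add_sum_erase Finset.univ _ (Finset.mem_univ (some j)), sub_self, mul_zero,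
        zero_add, ← hcs]
      refine Finset.sum_congr rfl fun i hij => ?_
      rw [cs_pow hpj h9 (hnd1 i hij), ZMod.natCast_zmod_val, hyi i]
      ring
    rw [Fintype.sum_option] at h10
    have h11 : cs (π j) (pw π none) = -rq (π j) := by
      rw [pw_none, cs_w (hD.pq j), tq_prim (hD.pq j).three]
    rw [h11] at h10
    have h12 : ∑ i, e i * cs (π j) (π i) * (v (some i) - v (some j)) =
        -(κ * -rq (π j) * (v none - v (some j))) := by
      rw [← zero_sub, ← h10]
      simp only [ew_none, ew_some, pw_some]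
      ring
    rw [h12]
    ring
  have hconst : ∀ o, v o = v none := by
    have h1 := hker (fun i => v (some i) - v none) fun j => by
      have h2 := heq j
      have h3 : ∀ i, v (some i) - v none - (v (some j) - v none) = v (some i) - v (some j) :=
        fun i => by ring
      simp only [h3]
      rw [h2]
      ring
    intro o
    rcases o with _ | j
    · rfl
    · exact sub_eq_zero.1 (h1 j)
  -- conclusion
  refine ⟨-v none, fun σ => ?_⟩
  have h1 : Kc hi (∏ o, pw π o ^ ((ew e κ o).val * (v none).val)) h := by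
    refine kc_exp (pw_ne hD) (fun o => ?_) hx
    rw [hxv o, hconst o]
    push_cast
    rw [ZMod.natCast_zmod_val, ZMod.natCast_zmod_val]
  have h2 := kc_pow (pr0w hD _) hb (v none).val
  have e1 : (∏ o, pw π o ^ (ew e κ o).val) ^ (v none).val =
      ∏ o, pw π o ^ ((ew e κ o).val * (v none).val) := by
    rw [← Finset.prod_pow]
    refine Finset.prod_congr rfl fun i _ => ?_
    rw [← pow_mul]
  rw [e1] at h2
  have h3 := kc_uniq (pr0w hD _) h1 h2 σ
  rw [h3, ZMod.natCast_zmod_val]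
  ring

end Pool.Agent.Helper68.C2.Sel2
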