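import Pool.Agent.Helper68.C2.Dist
import Pool.Graph.R_seed8.Y715.CT.Hec

/-!
# Odd characters modulo `3 √-3` of the Eisenstein integers
-/

set_option autoImplicit false
set_option linter.unusedSectionVars false

open Filter
open scoped Topology PeriodPair

namespace Pool.Agent.Helper68.C2.Chr

open H667R3 Pool.Agent.W192.HK Pool.Agent.TH936.CM Pool.Agent.TH936.PU
open Pool.Agent.Y715.Dist Pool.Agent.Y715.Idn Pool.Agent.Y715.T.Lat Pool.Agent.Y696
open Pool.Agent.Y692.QS (Ei w toC)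
open Pool.Agent.Y715.T.Rs (eq0)
open Pool.Agent.Y703.CT (rq ex_q toC_w_add toC_eq')
open Pool.Agent.Y703.CT.Ana (ej eo_j ej_u ej_ncop ej_prim)
open Pool.Agent.Y715.CT.Hec (cop_la prime_la la_ne rd_la)
open Pool.Agent.Y715.T.LF (rd rd_ez rd_eq_zero)
open Pool.Agent.Y715.T.Three (lam lam_sq)

/-! ### the cubic character of the norm -/

/-- `(N z - 1) / 3` modulo three -/
def tq (z : Ei) : ZMod 3 := (((Pool.Agent.Y692.QS.nr z - 1) / 3 : ℤ) : ZMod 3)

lemma tq_mul {a b : Ei} (ha : (3 : ℤ) ∣ Pool.Agent.Y692.QS.nr a - 1)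
    (hb : (3 : ℤ) ∣ Pool.Agent.Y692.QS.nr b - 1) : tq (a * b) = tq a + tq b := by
  obtain ⟨s, hs⟩ := ha
  obtain ⟨t, ht⟩ := hb
  unfold tq
  have h1 : Pool.Agent.Y692.QS.nr (a * b) - 1 = 3 * (s + t + 3 * (s * t)) := by
    have ha' : Pool.Agent.Y692.QS.nr a = 1 + 3 * s := by linarith
    have hb' : Pool.Agent.Y692.QS.nr b = 1 + 3 * t := by linarith
    rw [Pool.Agent.Y692.QS.nr_mul, ha', hb']
    ring
  rw [h1, hs, ht, Int.mul_ediv_cancel_left _ (by norm_num), Int.mul_ediv_cancel_left _ (by norm_num),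
    Int.mul_ediv_cancel_left _ (by norm_num)]
  have h3 : (3 : ZMod 3) = 0 := by decide
  push_cast
  rw [h3, zero_mul, add_zero]

lemma tq_prim {z : Ei} (h : (3 : Ei) ∣ z - 1) : tq z = -rq z := by
  obtain ⟨x, y, e, hr⟩ := ex_q h
  rw [hr, e]
  unfold tq
  rw [Pool.Agent.Y703.CT.nr_form]
  have h1 : (1 + 3 * (2 * x - y) + 9 * Pool.Agent.Y692.QS.nr (⟨x, y⟩ : Ei) - 1) =
      3 * (2 * x - y + 3 * Pool.Agent.Y692.QS.nr (⟨x, y⟩ : Ei)) := by ring
  rw [h1, Int.mul_ediv_cancel_left _ (by norm_num)]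
  have h3 : (3 : ZMod 3) = 0 := by decide
  have h2 : (2 : ZMod 3) = -1 := by decide
  push_cast
  rw [h3, h2]
  ring

/-- `(N x - 1) / 3` modulo three -/
noncomputable def tn (x : eis) : ZMod 3 := tq (eq0.symm x)

lemma eq0_ez (a b : ℤ) : eq0 (⟨a, b⟩ : Ei) = ez a b := by
  apply Subtype.ext
  rw [Pool.Agent.Y715.T.Rs.eq0_coe, toC_eq', ez_coe]

lemma symm_ez (a b : ℤ) : eq0.symm (ez a b) = (⟨a, b⟩ : Ei) := by
  rw [← eq0_ez, RingEquiv.symm_apply_apply]

lemma tn_ez (a b : ℤ) : tn (ez a b) = (((a ^ 2 - a * b + b ^ 2 - 1) / 3 : ℤ) : ZMod 3) := by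
  unfold tn
  rw [symm_ez]
  rfl

lemma cop_rd {x : eis} (h : IsCoprime x 3) : rd x ≠ 0 := by
  obtain ⟨a, b, hab⟩ := h
  intro h0
  have h1 := congrArg rd hab
  have h3 : (3 : ZMod 3) = 0 := by decide
  rw [map_add, map_mul, h0, map_mul, map_ofNat, h3, mul_zero, mul_zero, add_zero, map_one] at h1
  exact absurd h1 (by decide)

lemma nr_cop {x : eis} (h : IsCoprime x 3) : (3 : ℤ) ∣ Pool.Agent.Y692.QS.nr (eq0.symm x) - 1 := by
  have h0 := cop_rd h
  obtain ⟨a, b, rfl⟩ := ez_ex x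
  rw [rd_ez] at h0
  rw [symm_ez]
  have h1 := Pool.Agent.Y692.QS.nr_mod (⟨a, b⟩ : Ei)
  refine (ZMod.intCast_zmod_eq_zero_iff_dvd _ 3).1 ?_
  push_cast
  rw [h1]
  have h2 : (((⟨a, b⟩ : Ei).re : ZMod 3) + ((⟨a, b⟩ : Ei).im : ZMod 3)) = ((a + b : ℤ) : ZMod 3) := by
    push_cast
    rfl
  rw [h2]
  clear h1 h2
  generalize ((a + b : ℤ) : ZMod 3) = c at *
  revert c
  decide

lemma tn_mul {x y : eis} (hx : IsCoprime x 3) (hy : IsCoprime y 3) : tn (x * y) = tn x + tn y := by
  unfold tn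
  rw [map_mul]
  exact tq_mul (nr_cop hx) (nr_cop hy)

lemma tn_unit {u : eis} (hu : IsUnit u) : tn u = 0 := by
  have h1 : Pool.Agent.Y692.QS.nr (eq0.symm u) = 1 := by
    have h2 : Complex.normSq (u : ℂ) = 1 := (isUnit_iff' u).1 hu
    have h3 : (u : ℂ) = toC (eq0.symm u) := by
      rw [← Pool.Agent.Y715.T.Rs.eq0_coe, RingEquiv.apply_symm_apply]
    rw [h3, Pool.Agent.Y692.QS.toC_normSq] at h2
    exact_mod_cast h2
  unfold tn tq
  rw [h1]
  norm_num

lemma tn_neg (x : eis) : tn (-x) = tn x := by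
  unfold tn tq
  rw [map_neg, Pool.Agent.Y692.QS.nr_neg]

lemma tn_prim {x : eis} (h : x - 1 ∈ (sp 3 : Ideal eis)) : tn x = -rq (eq0.symm x) := by
  apply tq_prim
  rw [← Pool.Agent.Y715.T.Ex.three_mem, RingEquiv.apply_symm_apply]
  exact h

/-- the modulus `3 √-3` -/
noncomputable def ff : eis := la * 3

lemma ff_ne : ff ≠ 0 := mul_ne_zero la_ne Pool.Agent.Y696.three_ne

lemma tn_per {x y : eis} (h : x - y ∈ (sp ff : Ideal eis)) : tn x = tn y := by
  obtain ⟨t, ht⟩ := Ideal.mem_span_singleton'.1 h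
  obtain ⟨a, b, rfl⟩ := ez_ex y
  obtain ⟨c, d, rfl⟩ := ez_ex t
  have e1 : x = ez (a + 3 * (c - 2 * d)) (b + 3 * (2 * c - d)) := by
    have h3 : (3 : eis) = ez 3 0 := by
      rw [ez_int]
      norm_num
    have e2 : x = ez a b + ez c d * ff := by linear_combination -ht
    rw [e2]
    unfold ff la
    rw [h3, ez_mul, ez_mul, ez_add]
    congr 1 <;> ring
  rw [e1, tn_ez, tn_ez]
  have e2 : ((a + 3 * (c - 2 * d)) ^ 2 - (a + 3 * (c - 2 * d)) * (b + 3 * (2 * c - d)) +
      (b + 3 * (2 * c - d)) ^ 2 - 1) = (a ^ 2 - a * b + b ^ 2 - 1) +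
      3 * (3 * (b * c - a * d + (c - 2 * d) ^ 2 - (c - 2 * d) * (2 * c - d) +
        (2 * c - d) ^ 2)) := by ring
  rw [e2, Int.add_mul_ediv_left _ _ (by norm_num)]
  have h3 : (3 : ZMod 3) = 0 := by decide
  push_cast
  rw [h3]
  ring

/-! ### the characters -/

/-- the odd characters modulo `3 √-3` -/
noncomputable def ek (κ : ZMod 3) (j : Fin 3) (x : eis) : ℂ := ej j x * toC w ^ (κ * tn x).val

variable {κ : ZMod 3}

lemma ek_ncop (j : Fin 3) {x : eis} (hx : ¬ IsCoprime x 3) : ek κ j x = 0 := by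
  unfold ek
  rw [ej_ncop j hx, zero_mul]

lemma cop_mul_iff {x y : eis} : IsCoprime (x * y) 3 ↔ IsCoprime x 3 ∧ IsCoprime y 3 :=
  IsCoprime.mul_left_iff

lemma sp_ff_three {x : eis} (h : x ∈ (sp ff : Ideal eis)) : x ∈ (sp 3 : Ideal eis) :=
  sp_mul_le h

lemma norm_w_pow (n : ℕ) : ‖toC w ^ n‖ = 1 := by
  have h1 : ‖toC w‖ = 1 :=
    Complex.norm_eq_one_of_pow_eq_one Pool.Agent.Y715.T.Fin.toC_w_cube (by norm_num)
  rw [norm_pow, h1, one_pow]

lemma eo_k (κ : ZMod 3) (j : Fin 3) : Eo ff (ek κ j) := by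
  refine ⟨fun x y hxy => ?_, fun x y => ?_, fun x => ?_, fun x => ?_⟩
  · unfold ek
    rw [(eo_j j).per x y (sp_ff_three hxy), tn_per hxy]
  · by_cases hx : IsCoprime x 3
    · by_cases hy : IsCoprime y 3
      · unfold ek
        rw [(eo_j j).mul, tn_mul hx hy, mul_add, toC_w_add]
        ring
      · rw [ek_ncop j hy, mul_zero]
        exact ek_ncop j fun h => hy (cop_mul_iff.1 h).2
    · rw [ek_ncop j hx, zero_mul]
      exact ek_ncop j fun h => hx (cop_mul_iff.1 h).1
  · unfold ek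
    rw [(eo_j j).neg, tn_neg, neg_mul]
  · unfold ek
    rw [norm_mul, norm_w_pow, mul_one]
    exact (eo_j j).bd x

lemma ek_u (j : Fin 3) {u : eis} (hu : IsUnit u) : ek κ j u = (u : ℂ) ^ (2 * (j : ℕ) + 1) := by
  unfold ek
  rw [ej_u j hu, tn_unit hu, mul_zero, ZMod.val_zero, pow_zero, mul_one]

lemma ek_prim (j : Fin 3) {x : eis} (h : x - 1 ∈ (sp 3 : Ideal eis)) :
    ek κ j x = toC w ^ (-(κ * rq (eq0.symm x))).val := by
  unfold ek
  rw [ej_prim j h, one_mul, tn_prim h, mul_neg]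

/-! ### sums over the residue classes -/

lemma three_sum [Fintype (eis ⧸ (sp la : Ideal eis))] (F : eis → ℂ)
    (hper : ∀ x y : eis, x - y ∈ (sp la : Ideal eis) → F x = F y) :
    ∑ y : eis ⧸ (sp la : Ideal eis), F y.out = F 0 + F 1 + F (-1) := by
  classical
  have hmem : ∀ x : eis, x ∈ (sp la : Ideal eis) ↔ rd x = 0 := by
    intro x
    constructor
    · intro h
      obtain ⟨t, ht⟩ := Ideal.mem_span_singleton'.1 h
      rw [← ht, map_mul, rd_la, mul_zero]
    · intro h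
      obtain ⟨t, ht⟩ := rd_eq_zero h
      rw [ht, mul_comm]
      exact Ideal.mem_span_singleton'.2 ⟨t, rfl⟩
  have key : ∀ a b : eis, rd a ≠ rd b → Ideal.Quotient.mk (sp la) a ≠ Ideal.Quotient.mk (sp la) b := by
    intro a b hab h
    rw [Ideal.Quotient.eq, hmem, map_sub, sub_eq_zero] at h
    exact hab h
  have hne1 : Ideal.Quotient.mk (sp la) (0 : eis) ≠ Ideal.Quotient.mk (sp la) 1 := by
    apply key
    rw [map_zero, map_one]
    decide
  have hne2 : Ideal.Quotient.mk (sp la) (0 : eis) ≠ Ideal.Quotient.mk (sp la) (-1) := by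
    apply key
    rw [map_zero, map_neg, map_one]
    decide
  have hne3 : Ideal.Quotient.mk (sp la) (1 : eis) ≠ Ideal.Quotient.mk (sp la) (-1) := by
    apply key
    rw [map_neg, map_one]
    decide
  have huniv : (Finset.univ : Finset (eis ⧸ (sp la : Ideal eis))) =
      {Ideal.Quotient.mk (sp la) 0, Ideal.Quotient.mk (sp la) 1, Ideal.Quotient.mk (sp la) (-1)} := by
    ext q
    simp only [Finset.mem_univ, Finset.mem_insert, Finset.mem_singleton, true_iff]
    obtain ⟨x, rfl⟩ := Ideal.Quotient.mk_surjective q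
    have h1 : rd x = 0 ∨ rd x = 1 ∨ rd x = -1 := by
      generalize rd x = c
      revert c
      decide
    rcases h1 with h1 | h1 | h1
    · left
      rw [Ideal.Quotient.eq, hmem, sub_zero, h1]
    · right; left
      rw [Ideal.Quotient.eq, hmem, map_sub, h1, map_one, sub_self]
    · right; right
      rw [Ideal.Quotient.eq, hmem, map_sub, h1, map_neg, map_one, sub_self]
  have hout : ∀ x : eis, F (Ideal.Quotient.mk (sp la) x).out = F x := by
    intro x
    apply hper
    rw [← neg_mem_iff, neg_sub]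
    exact out_mk (sp la) x
  rw [huniv, Finset.sum_insert, Finset.sum_insert, Finset.sum_singleton, hout, hout, hout]
  · ring
  · rw [Finset.mem_singleton]
    exact hne3
  · rw [Finset.mem_insert, Finset.mem_singleton]
    tauto

theorem eighteen_sum [Fintype (eis ⧸ (sp ff : Ideal eis))] (F : eis → ℂ)
    (hF0 : ∀ x, ¬ IsCoprime x 3 → F x = 0)
    (hper : ∀ x y : eis, x - y ∈ (sp ff : Ideal eis) → F x = F y) :
    ∑ y : eis ⧸ (sp ff : Ideal eis), F y.out =
      (fun u : eis => F u + F (u * 4) + F (u * -2)) 1 +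
      (fun u : eis => F u + F (u * 4) + F (u * -2)) (-1) +
      (fun u : eis => F u + F (u * 4) + F (u * -2)) omr +
      (fun u : eis => F u + F (u * 4) + F (u * -2)) (-omr) +
      (fun u : eis => F u + F (u * 4) + F (u * -2)) (omr ^ 2) +
      (fun u : eis => F u + F (u * 4) + F (u * -2)) (-omr ^ 2) := by
  have hfin := Pool.Agent.Y715.T.LF.fin_quot
  have h3n := Pool.Agent.Y696.three_ne
  have : Finite (eis ⧸ (sp 3 : Ideal eis)) := hfin _ h3n
  have : Fintype (eis ⧸ (sp 3 : Ideal eis)) := Fintype.ofFinite _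
  have : Finite (eis ⧸ (sp la : Ideal eis)) := hfin _ la_ne
  have : Fintype (eis ⧸ (sp la : Ideal eis)) := Fintype.ofFinite _
  have h1 : ∑ y : eis ⧸ (sp ff : Ideal eis), F y.out = Sm ff F := (Sm_eq ff F).symm
  have h2 : Sm ff F = Sm 3 (fun x => Sm la (fun t => F (x + 3 * t))) :=
    Sm_mul h3n hfin la_ne hper
  rw [h1, h2, Sm_eq]
  have hinner : ∀ x : eis, ∀ a b : eis, a - b ∈ (sp la : Ideal eis) → F (x + 3 * a) = F (x + 3 * b) := by
    intro x a b hab
    apply hper
    obtain ⟨t, ht⟩ := Ideal.mem_span_singleton'.1 hab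
    rw [Ideal.mem_span_singleton']
    refine ⟨t, ?_⟩
    unfold ff
    linear_combination 3 * ht
  have hG : ∀ x : eis, Sm la (fun t => F (x + 3 * t)) = F x + F (x + 3) + F (x - 3) := by
    intro x
    rw [Sm_eq, three_sum (fun t => F (x + 3 * t)) (hinner x)]
    have e1 : x + 3 * 0 = x := by ring
    have e2 : x + 3 * 1 = x + 3 := by ring
    have e3 : x + 3 * (-1) = x - 3 := by ring
    rw [e1, e2, e3]
  have hGper : ∀ x y : eis, x - y ∈ (sp 3 : Ideal eis) →
      Sm la (fun t => F (x + 3 * t)) = Sm la (fun t => F (y + 3 * t)) := by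
    intro x y hxy
    obtain ⟨s, hs⟩ := Ideal.mem_span_singleton'.1 hxy
    have e1 : ∀ t : eis, x + 3 * t = y + 3 * (s + t) := by
      intro t
      linear_combination -hs
    simp only [e1]
    exact Sm_shift (hfin _ la_ne) s (F := fun t => F (y + 3 * t)) (hinner y)
  have hG0 : ∀ x : eis, ¬ IsCoprime x 3 → Sm la (fun t => F (x + 3 * t)) = 0 := by
    intro x hx
    have key : ∀ t : eis, F (x + 3 * t) = 0 := by
      intro t
      apply hF0
      intro h
      apply hx
      exact (IsCoprime.add_mul_left_left_iff (z := t)).1 h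
    rw [Sm_eq]
    exact Finset.sum_eq_zero fun q _ => key _
  rw [six_sum (fun x => Sm la (fun t => F (x + 3 * t))) hG0 hGper]
  have hterm : ∀ u : eis, (rd u = 1 ∨ rd u = -1) → Sm la (fun t => F (u + 3 * t)) =
      F u + F (u * 4) + F (u * -2) := by
    intro u hu
    rw [hG]
    rcases hu with hu | hu
    · have hm : u - 1 ∈ (sp la : Ideal eis) := by
        obtain ⟨t, ht⟩ := rd_eq_zero (r := u - 1) (by rw [map_sub, hu, map_one, sub_self])
        rw [ht, mul_comm]
        exact Ideal.mem_span_singleton'.2 ⟨t, rfl⟩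
      have h4 := hinner u u 1 hm
      have hm' : -u - -1 ∈ (sp la : Ideal eis) := by
        have := neg_mem hm
        convert this using 1
        ring
      have h5 := hinner u (-u) (-1) hm'
      have e1 : u * 4 = u + 3 * u := by ring
      have e2 : u * -2 = u + 3 * -u := by ring
      have e3 : u + 3 = u + 3 * 1 := by ring
      have e4 : u - 3 = u + 3 * -1 := by ring
      rw [e1, e2, e3, e4, h4, h5]
    · have hm : u - -1 ∈ (sp la : Ideal eis) := by
        obtain ⟨t, ht⟩ := rd_eq_zero (r := u - -1) (by rw [map_sub, hu, map_neg, map_one, sub_self])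
        rw [ht, mul_comm]
        exact Ideal.mem_span_singleton'.2 ⟨t, rfl⟩
      have h4 := hinner u u (-1) hm
      have hm' : -u - 1 ∈ (sp la : Ideal eis) := by
        have := neg_mem hm
        convert this using 1
        ring
      have h5 := hinner u (-u) 1 hm'
      have e1 : u * 4 = u + 3 * u := by ring
      have e2 : u * -2 = u + 3 * -u := by ring
      have e3 : u + 3 = u + 3 * 1 := by ring
      have e4 : u - 3 = u + 3 * -1 := by ring
      rw [e1, e2, e3, e4, h4, h5]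
      ring
  have hu := fun v (hv : IsUnit v) => Pool.Agent.Y715.CT.Hec.u_cases (u := v) hv
  have hrd : ∀ v ∈ ({1, -1, omr, -omr, omr ^ 2, -omr ^ 2} : Set eis), rd v = 1 ∨ rd v = -1 := by
    intro v hv
    rcases hu v ((unit_list v).2 hv) with h | h
    · exact Or.inl h.1
    · exact Or.inr h
  rw [hterm 1 (hrd _ (by simp)), hterm (-1) (hrd _ (by simp)), hterm omr (hrd _ (by simp)),
    hterm (-omr) (hrd _ (by simp)), hterm (omr ^ 2) (hrd _ (by simp)),
    hterm (-omr ^ 2) (hrd _ (by simp))]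

end Pool.Agent.Helper68.C2.Chr
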