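import Pool.Agent.Helper68.C2.Defs2
import Pool.Agent.Helper68.C2.Chr
import Pool.Graph.R_seed8.Y696.CTK.LK

/-!
# The `L`-function of `y² + D y = x³` over `ℚ(ω)` for `D = ω^κ ∏ π_j^(e_j)`
-/

set_option autoImplicit false
set_option linter.unusedVariables false
set_option linter.unusedSectionVars false

namespace Pool.Agent.Helper68.C2.LK2

open NumberField IsDedekindDomain WeierstrassCurve
open Pool.Agent.W189.NF (aV eV redMap Ov mem_max_iff finite_res card_res redMap_eq_zero aLoc eLoc)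
open Pool.Agent.H921R2.TatePole (nm two_le_nm)
open Pool.Agent.Y715.T.Rs (eq0 eq0_coe card_quo)
open Pool.Agent.Y703.CT
open Pool.Agent.Y696.CT
open Pool.Agent.Y692.QS hiding chi
open Pool.Agent.Y715.T.Rec (cs nn)
open Pool.Agent.Y715.T.RecG (Pq cs_spec cs_of cs_mul cs_pow)
open Pool.Agent.Y696.CTK (ED bad_of pK mem_pK pK_span eK span_ns pq_ns tht tht_sq tht_prime three_span
  good_val nm_nr conj_nat_cpow')
open Pool.Agent.Helper68.C2.Chr (tq tq_mul tq_prim)
open Pool.Agent.Y696 (HBd LSeries_hasProd')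
open scoped Classical

variable {K : Type} [Field K] [NumberField K] (j : Ei ≃+* 𝓞 K)
variable {J : Type} [Fintype J] {π : J → Ei} {e : J → ZMod 3} {κ : ZMod 3}

/-! ### the coefficients -/

/-- the character of the norm -/
noncomputable def cw (κ : ZMod 3) (α : Ei) : ℂ := toC w ^ (-(κ * tq α)).val

/-- the coefficients -/
noncomputable def g2 (π : J → Ei) (e : J → ZMod 3) (κ : ZMod 3) (s : ℂ) (α : Ei) : ℂ :=
  if (3 : ℤ) ∣ nr α then 0 else gg π e s α * cw κ α

lemma nr_three {α : Ei} (h : ¬ (3 : ℤ) ∣ nr α) : (3 : ℤ) ∣ nr α - 1 := by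
  have h1 := nr_mod α
  refine (ZMod.intCast_zmod_eq_zero_iff_dvd _ 3).1 ?_
  have h2 : ((nr α : ℤ) : ZMod 3) ≠ 0 := fun h3 => h ((ZMod.intCast_zmod_eq_zero_iff_dvd _ 3).1 h3)
  rw [Int.cast_sub, h1]
  rw [h1] at h2
  clear h1
  generalize ((α.re : ZMod 3) + α.im) = c at *
  push_cast
  revert c
  decide

lemma cw_mul {α β : Ei} (ha : ¬ (3 : ℤ) ∣ nr α) (hb : ¬ (3 : ℤ) ∣ nr β) :
    cw κ (α * β) = cw κ α * cw κ β := by
  unfold cw
  rw [tq_mul (nr_three ha) (nr_three hb), ← toC_w_add]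
  congr 2
  ring

lemma g2_mul (hpq : ∀ j, Pq (π j)) (e : J → ZMod 3) (s : ℂ) (α β : Ei) :
    g2 π e κ s (α * β) = g2 π e κ s α * g2 π e κ s β := by
  have h3 : Prime (3 : ℤ) := Int.prime_three
  have h4 : (3 : ℤ) ∣ nr (α * β) ↔ (3 : ℤ) ∣ nr α ∨ (3 : ℤ) ∣ nr β := by
    rw [nr_mul]
    exact h3.dvd_mul
  unfold g2
  by_cases h1 : (3 : ℤ) ∣ nr α
  · rw [if_pos (h4.2 (Or.inl h1)), if_pos h1, zero_mul]
  · by_cases h2 : (3 : ℤ) ∣ nr β
    · rw [if_pos (h4.2 (Or.inr h2)), if_pos h2, mul_zero]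
    · rw [if_neg (fun h => (h4.1 h).elim h1 h2), if_neg h1, if_neg h2, gg_mul hpq, cw_mul h1 h2]
      ring

lemma g2_one (hpq : ∀ j, Pq (π j)) (e : J → ZMod 3) (s : ℂ) : g2 π e κ s 1 = 1 := by
  unfold g2
  rw [if_neg (by rw [nr_one]; norm_num), gg_one hpq]
  unfold cw tq
  rw [nr_one]
  simp

lemma g2_prim {α : Ei} (h : (3 : Ei) ∣ α - 1) (s : ℂ) :
    g2 π e κ s α = toC α * (chD π e α * toC w ^ (κ * rq α).val) *
        ((nr α : ℤ) : ℂ) ^ (-s) := by
  unfold g2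
  rw [if_neg (ep_ndvd h)]
  unfold gg cw
  rw [tq_prim h, mul_neg, neg_neg]
  ring

/-! ### the symbol of `w` -/

lemma cs_w {α : Ei} (hα : Pq α) : cs α w = tq α := by
  have h1 : (cs α w) = ((nn α : ℕ) : ZMod 3) := by
    apply cs_of hα.prime hα.norm
    have h2 : (w : Ei) ^ nn α = w ^ (((nn α : ℕ) : ZMod 3)).val := by
      have hw : (w : Ei) ^ 3 = 1 := by decide
      rw [ZMod.val_natCast]
      conv_lhs => rw [← Nat.div_add_mod (nn α) 3]
      rw [pow_add, pow_mul, hw, one_pow, one_mul]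
    rw [h2, sub_self]
    exact dvd_zero _
  rw [h1]
  unfold nn tq
  have h3 := nr_three (ep_ndvd hα.three)
  have h0 := nr_nonneg α
  obtain ⟨c, hc⟩ := h3
  have h4 : nr α = 1 + 3 * c := by linarith
  have hc0 : 0 ≤ c := by omega
  obtain ⟨m, rfl⟩ := Int.eq_ofNat_of_zero_le hc0
  have h5 : (nr α).natAbs = 1 + 3 * m := by
    rw [h4]
    omega
  rw [h5, h4]
  have e1 : (1 + 3 * m - 1) / 3 = m := by omega
  have e2 : (1 + 3 * (m : ℤ) - 1) / 3 = m := by omega
  rw [e1, e2]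
  norm_cast

lemma w_unit : IsUnit (w : Ei) := by
  refine IsUnit.of_mul_eq_one (w ^ 2) ?_
  decide

lemma not_dvd_w {α : Ei} (hα : Prime α) : ¬ α ∣ w := fun h => hα.not_isUnit (isUnit_of_dvd_unit h w_unit)

lemma dvd_pD2 {α : Ei} (hα : Prime α) : α ∣ pD2 π e κ ↔ α ∣ pD π e := by
  unfold pD2
  constructor
  · intro h
    rcases hα.dvd_or_dvd h with h1 | h1
    · exact absurd (hα.dvd_of_dvd_pow h1) (not_dvd_w hα)
    · exact h1
  · exact fun h => Dvd.dvd.mul_left h _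

lemma cs_pD2 {α : Ei} (hα : Pq α) (h : ¬ α ∣ pD π e) :
    cs α (pD2 π e κ) = κ * tq α + cs α (pD π e) := by
  unfold pD2
  rw [cs_mul hα.prime hα.norm (fun h1 => not_dvd_w hα.prime (hα.prime.dvd_of_dvd_pow h1)) h,
    cs_pow hα.prime hα.norm (not_dvd_w hα.prime), ZMod.natCast_zmod_val, cs_w hα]

/-! ### the places of bad reduction -/

/-- at the prime above three -/
theorem bad_three {P : HeightOneSpectrum Ei} (h : (3 : ℤ) ∣ nr (gn P.asIdeal)) {D : Ei}
    (hD : ¬ tht ∣ D) :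
    aV (ED (j D : K)) (pK j P) = 0 ∧ eV (ED (j D : K)) (pK j P) = 0 := by
  have hs := three_span h
  refine bad_of (t := j tht) (r := (j D) ^ 4) (m := 6) ?_ (pK_span j hs) (by norm_num) ?_ ?_
  · rw [Ne, map_eq_zero_iff j j.injective]
    exact tht_prime.ne_zero
  · intro h4
    have h5 := (pK j P).isPrime.mem_of_pow_mem 4 h4
    rw [mem_pK, hs, Ideal.mem_span_singleton] at h5
    exact hD h5
  · have h7 : (-27 : 𝓞 K) = (j tht) ^ 6 := by
      rw [← map_pow]
      have : tht ^ 6 = -27 := by decide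
      rw [this, map_neg, map_ofNat]
    rw [h7]

lemma prim_pD (hdt : Dt π e) : (3 : Ei) ∣ pD π e - 1 := (pD_prim hdt).1

lemma not_tht (hdt : Dt π e) : ¬ tht ∣ pD2 π e κ := by
  intro h
  rw [dvd_pD2 tht_prime] at h
  have h3 : tht ∣ (3 : Ei) := ⟨-tht, by linear_combination tht_sq⟩
  apply tht_prime.not_isUnit
  apply isUnit_of_dvd_one
  have h6 := dvd_sub h (dvd_trans h3 (prim_pD hdt))
  rwa [sub_sub_cancel] at h6

/-- at the primes dividing `D` -/
theorem bad_D {P : HeightOneSpectrum Ei} (hdt : Dt π e) {i : J}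
    (h : P.asIdeal = Ideal.span {π i}) :
    aV (ED (j (pD2 π e κ) : K)) (pK j P) = 0 ∧
      eV (ED (j (pD2 π e κ) : K)) (pK j P) = 0 := by
  have hi := hdt.pq i
  have hsp : pD2 π e κ = π i ^ (e i).val *
      (w ^ κ.val * ∏ l ∈ Finset.univ.erase i, π l ^ (e l).val) := by
    unfold pD2 pD
    rw [← Finset.mul_prod_erase _ _ (Finset.mem_univ i)]
    ring
  have hm : ¬ 12 ∣ 4 * (e i).val := by
    have h1 := ZMod.val_lt (e i)
    have h2 : (e i).val ≠ 0 := by
      rw [Ne, ZMod.val_eq_zero]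
      exact hdt.e0 i
    omega
  refine bad_of (t := j (π i)) (r := -27 * (j (w ^ κ.val * ∏ l ∈ Finset.univ.erase i,
    π l ^ (e l).val)) ^ 4) (m := 4 * (e i).val) ?_ (pK_span j h) hm ?_ ?_
  · rw [Ne, map_eq_zero_iff j j.injective]
    exact hi.prime.ne_zero
  · intro h4
    rcases (pK j P).isPrime.mem_or_mem h4 with h5 | h5
    · have h6 : (-27 : 𝓞 K) = j (-(3 ^ 3)) := by
        rw [map_neg, map_pow, map_ofNat]
        norm_num
      rw [h6, mem_pK, h, Ideal.mem_span_singleton, dvd_neg] at h5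
      have h7 := hi.prime.dvd_of_dvd_pow h5
      apply hi.prime.not_isUnit
      apply isUnit_of_dvd_one
      have h8 := dvd_sub (dvd_refl (π i)) (dvd_trans h7 hi.three)
      rwa [sub_sub_cancel] at h8
    · have h6 := (pK j P).isPrime.mem_of_pow_mem 4 h5
      rw [mem_pK, h, Ideal.mem_span_singleton] at h6
      rcases hi.prime.dvd_or_dvd h6 with h7 | h7
      · exact not_dvd_w hi.prime (hi.prime.dvd_of_dvd_pow h7)
      · rw [Prime.dvd_finsetProd_iff hi.prime] at h7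
        obtain ⟨l, hl, h7⟩ := h7
        exact hdt.nd l i (Finset.ne_of_mem_erase hl) (hi.prime.dvd_of_dvd_pow h7)
  · rw [hsp, map_mul, map_pow]
    ring

/-! ### the comparison of the local factors -/

/-- the factor of the Hecke `L`-function and its conjugate -/
theorem factorK (hrec : S_REC) (hdt : Dt π e) (s : ℂ) (P : HeightOneSpectrum Ei) :
    HBd (aV (ED (j (pD2 π e κ) : K)) (pK j P))
      (eV (ED (j (pD2 π e κ) : K)) (pK j P)) (nm (pK j P)) ∧
    (1 - (aV (ED (j (pD2 π e κ) : K)) (pK j P) : ℂ) * (nm (pK j P) : ℂ) ^ (-s) +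
      (eV (ED (j (pD2 π e κ) : K)) (pK j P) : ℂ) * ((nm (pK j P) : ℂ) ^ (-s)) ^ 2)⁻¹ =
    (1 - fI (g2 π (fun i => -e i) κ s) P.asIdeal)⁻¹ *
      (starRingEnd ℂ) ((1 - fI (g2 π (fun i => -e i) κ ((starRingEnd ℂ) s)) P.asIdeal)⁻¹) := by
  have hbad : aV (ED (j (pD2 π e κ) : K)) (pK j P) = 0 ∧
      eV (ED (j (pD2 π e κ) : K)) (pK j P) = 0 →
      (∀ z, fI (g2 π (fun i => -e i) κ z) P.asIdeal = 0) →
      HBd (aV (ED (j (pD2 π e κ) : K)) (pK j P))
      (eV (ED (j (pD2 π e κ) : K)) (pK j P)) (nm (pK j P)) ∧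
    (1 - (aV (ED (j (pD2 π e κ) : K)) (pK j P) : ℂ) * (nm (pK j P) : ℂ) ^ (-s) +
      (eV (ED (j (pD2 π e κ) : K)) (pK j P) : ℂ) * ((nm (pK j P) : ℂ) ^ (-s)) ^ 2)⁻¹ =
    (1 - fI (g2 π (fun i => -e i) κ s) P.asIdeal)⁻¹ *
      (starRingEnd ℂ) ((1 - fI (g2 π (fun i => -e i) κ ((starRingEnd ℂ) s)) P.asIdeal)⁻¹) := by
    rintro ⟨h1, h2⟩ h3
    refine ⟨Or.inl ⟨h1, h2⟩, ?_⟩
    rw [h1, h2, h3, h3]
    simp
  by_cases h3 : (3 : ℤ) ∣ nr (gn P.asIdeal)
  · refine hbad (bad_three j h3 (not_tht hdt)) fun z => ?_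
    unfold fI
    rw [if_pos h3]
  · set α := ns (gn P.asIdeal) with hα
    have hs := span_ns h3
    rw [← hα] at hs
    have hpq := pq_ns h3
    rw [← hα] at hpq
    have hfI : ∀ g : Ei → ℂ, fI g P.asIdeal = g α := fun g => by
      rw [hs, fI_prim g hpq.three]
    by_cases hD : α ∣ pD π e
    · obtain ⟨i, hi⟩ := dvd_pD hpq.prime hdt hD
      refine hbad (bad_D j hdt (i := i) ?_) fun z => ?_
      · rw [hs]
        exact Ideal.span_singleton_eq_span_singleton.2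
          ((hdt.pq i).prime.associated_of_dvd hpq.prime hi).symm
      · rw [hfI, g2_prim hpq.three]
        rw [chD_bad hpq.prime hdt (Or.inl rfl) hD, zero_mul, mul_zero, zero_mul]
    · have hD2 : ¬ α ∣ pD2 π e κ := by rwa [dvd_pD2 hpq.prime]
      obtain ⟨v1, v2⟩ := good_val j hpq (pK_span j hs) hD2
      have hnm := nm_nr j (pK_span j hs)
      set x := toC (w ^ (-cs α (pD2 π e κ)).val * α) with hx
      have hxx : x * (starRingEnd ℂ) x = (nm (pK j P) : ℂ) := by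
        rw [Complex.mul_conj, hx, toC_normSq, nr_mul]
        have h5 : nr (w ^ (-cs α (pD2 π e κ)).val) = 1 := by
          generalize -cs α (pD2 π e κ) = c
          revert c
          decide
        rw [h5, one_mul, ← hnm]
        push_cast
        rfl
      have hg : ∀ z, g2 π (fun i => -e i) κ z α = x * (nm (pK j P) : ℂ) ^ (-z) := by
        intro z
        rw [g2_prim hpq.three]
        have h6 := chD_prime hrec hdt (Or.inl rfl) hpq hD
        have h7 : (-cs α (pD2 π e κ)) = -cs α (pD π e) + κ * rq α := by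
          rw [cs_pD2 hpq hD, tq_prim hpq.three]
          ring
        rw [h6, ← hnm, hx, map_mul, map_pow, h7, toC_w_add]
        push_cast
        ring
      refine ⟨Or.inr ⟨x, v1, ?_, hxx⟩, ?_⟩
      · rw [v2, hxx]
      · rw [hfI, hfI, hg, hg, v1, v2, map_inv₀, map_sub, map_one, map_mul, conj_nat_cpow',
          map_neg, Complex.conj_conj, ← mul_inv]
        congr 1
        linear_combination (-(((nm (pK j P) : ℕ) : ℂ) ^ (-s)) ^ 2) * hxx

/-- **The `L`-function.** -/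
theorem LK (hrec : S_REC) (hdt : Dt π e) (F : ℂ → ℂ) (hF : IsHL2 π (fun i => -e i) κ F) (s : ℂ)
    (hs : 3 / 2 < s.re) :
      LSeriesSummable ((fun n : ℤ => (n : ℂ)) ∘ (ED (j (pD2 π e κ) : K)).LFunction) s ∧
        F s * (starRingEnd ℂ) (F ((starRingEnd ℂ) s)) = (ED (j (pD2 π e κ) : K)).LSeries s := by
  have hsc : 3 / 2 < ((starRingEnd ℂ) s).re := by rwa [Complex.conj_re]
  have hsum : ∀ z : ℂ, 3 / 2 < z.re →
      HasSum (fun α : {α : Ei // (3 : Ei) ∣ α - 1} => g2 π (fun i => -e i) κ z α) (F z) := by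
    intro z hz
    refine (hF.2 z hz).congr_fun fun α => ?_
    exact g2_prim (π := π) (e := fun i => -e i) (κ := κ) α.2 z
  have h3 := hasProd_Ei (g2_one hdt.pq _ s) (g2_mul hdt.pq _ s) (hsum s hs)
  have h4 := (hasProd_Ei (g2_one hdt.pq _ ((starRingEnd ℂ) s)) (g2_mul hdt.pq _ _)
    (hsum _ hsc)).map (starRingEnd ℂ) Complex.continuous_conj
  have h5 := h3.mul h4
  have hE : ∀ v : HeightOneSpectrum (𝓞 K), HBd (aV (ED (j (pD2 π e κ) : K)) v)
      (eV (ED (j (pD2 π e κ) : K)) v) (nm v) := by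
    intro v
    obtain ⟨P, rfl⟩ := (eK j).surjective v
    exact (factorK j hrec hdt s P).1
  obtain ⟨h6, h7⟩ := LSeries_hasProd' (ED (j (pD2 π e κ) : K)) hE hs
  refine ⟨h6, ?_⟩
  have h8 := (eK j).hasProd_iff.2 h7
  refine h5.unique (h8.congr_fun fun P => ?_)
  exact ((factorK j hrec hdt s P).2).symm

end Pool.Agent.Helper68.C2.LK2
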