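import Pool.Graph.R_seed8.Y319.CT.DZ
import Pool.Graph.R_seed8.Y715.T.Comb

/-!
# The Laplacian with an extra vertex
-/

set_option autoImplicit false
set_option linter.unusedSectionVars false

open Finset

namespace Pool.Agent.Helper68.C2.Comb2

open Pool.Agent.Y715.T.Comb

section

variable {ι : Type*} [DecidableEq ι] {F : Type*} [Field F]

/-- the extended matrix -/
def ap (a : ι → ι → F) (b d : ι → F) : Option ι → Option ι → F
  | some i, some j => a i j
  | some i, none => b i
  | none, some j => d j
  | none, none => 0

/-- the root -/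
def dn : Option ι → F
  | none => 1
  | some _ => 0

/-- the extended set -/
def up (T : Finset ι) : Finset (Option ι) := insert none (T.map Function.Embedding.some)

lemma none_notMem (T : Finset ι) : (none : Option ι) ∉ T.map Function.Embedding.some := by
  simp

lemma up_card (T : Finset ι) : (up T).card = T.card + 1 := by
  unfold up
  rw [card_insert_of_notMem (none_notMem T), card_map]

variable [Fintype ι]

lemma D_no (a : Option ι → Option ι → F) {T : Finset (Option ι)} (h : none ∉ T) :
    D a dn T = 0 := by
  unfold D
  refine sum_eq_zero fun r hr => ?_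
  rcases r with _ | i
  · exact absurd hr h
  · show (0 : F) * _ = 0
    rw [zero_mul]

theorem D_rec2 (a : ι → ι → F) (b d : ι → F) (S : Finset ι) (hS : S.Nonempty) :
    ∑ T ∈ S.powerset, (-1) ^ T.card * (D (ap a b d) dn (up T) *
      ∏ i ∈ S \ T, (b i + ∑ j ∈ T, a i j)) = 0 := by
  have hc : 2 ≤ (up S).card := by
    rw [up_card]
    have := card_pos.2 hS
    omega
  have h1 := D_rec (ap a b d) dn (up S) hc
  unfold up at h1
  rw [sum_powerset_insert (none_notMem S)] at h1
  have h2 : ∑ T ∈ (S.map Function.Embedding.some).powerset, (-1 : F) ^ T.card *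
      (D (ap a b d) dn T * ∏ i ∈ insert none (S.map Function.Embedding.some) \ T,
        ∑ j ∈ T, ap a b d i j) = 0 := by
    refine sum_eq_zero fun T hT => ?_
    rw [mem_powerset] at hT
    rw [D_no _ (fun h => none_notMem S (hT h)), zero_mul, mul_zero]
  rw [h2, zero_add] at h1
  have h3 : ∑ T ∈ (S.map Function.Embedding.some).powerset, (-1 : F) ^ (insert none T).card *
      (D (ap a b d) dn (insert none T) *
        ∏ i ∈ insert none (S.map Function.Embedding.some) \ insert none T,
        ∑ j ∈ insert none T, ap a b d i j) =
      ∑ T ∈ S.powerset, -((-1 : F) ^ T.card * (D (ap a b d) dn (up T) *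
      ∏ i ∈ S \ T, (b i + ∑ j ∈ T, a i j))) := by
    symm
    refine sum_nbij (fun T => T.map Function.Embedding.some) ?_ ?_ ?_ ?_
    · intro T hT
      rw [mem_powerset] at hT ⊢
      exact map_subset_map.2 hT
    · intro T _ U _ h
      exact map_injective _ h
    · intro T hT
      rw [mem_coe, mem_powerset] at hT
      obtain ⟨U, hU, rfl⟩ := subset_map_iff.1 hT
      exact ⟨U, mem_coe.2 (mem_powerset.2 hU), rfl⟩
    · intro T hT
      rw [mem_powerset] at hT
      have e1 : insert none (S.map Function.Embedding.some) \
          insert none (T.map Function.Embedding.some) = (S \ T).map Function.Embedding.some := by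
        ext x
        rcases x with _ | i
        · simp
        · simp
      rw [e1, prod_map]
      have e2 : ∀ i : ι, ∑ j ∈ insert none (T.map Function.Embedding.some),
          ap a b d (Function.Embedding.some i) j = b i + ∑ j ∈ T, a i j := by
        intro i
        rw [sum_insert (none_notMem T), sum_map]
        rfl
      simp only [e2]
      have e3 : (insert none (T.map Function.Embedding.some)).card = T.card + 1 := up_card T
      rw [e3, pow_succ]
      unfold up
      ring
  rw [h3, sum_neg_distrib, neg_eq_zero] at h1
  exact h1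

lemma D_empty (a : ι → ι → F) (b d : ι → F) : D (ap a b d) dn (up ∅) = 1 := by
  have h : up (∅ : Finset ι) = {none} := by
    unfold up
    rw [map_empty]
    rfl
  rw [h, D_one]
  rfl

lemma up_univ : up (Finset.univ : Finset ι) = Finset.univ := by
  ext x
  rcases x with _ | i
  · simp [up]
  · simp [up]

end

/-- the kernel consists of the constants -/
def Ker2 {ι : Type} [Fintype ι] (a : ι → ι → ZMod 3) (b : ι → ZMod 3) : Prop :=
  ∀ (v : ι → ZMod 3), (∀ i, ∑ j, a i j * (v j - v i) = b i * v i) → ∀ i, v i = 0

variable {ι : Type} [Fintype ι] [DecidableEq ι] {a : ι → ι → ZMod 3} {b : ι → ZMod 3}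

lemma nz (c : ZMod 3) (hc : c ≠ 0) : c * c = 1 := by
  revert c
  decide

/-- the sum of the equations -/
lemma last_eq {ε : ι → ZMod 3} (hs : ∀ i j, i ≠ j → ε i * a i j = ε j * a j i)
    {v : ι → ZMod 3} {c : ZMod 3}
    (hv : ∀ i, ∑ j, a i j * (v j - v i) + b i * (c - v i) = 0) :
    ∑ i, ε i * b i * (c - v i) = 0 := by
  have h1 : ∑ i, ε i * (∑ j, a i j * (v j - v i) + b i * (c - v i)) = 0 :=
    Finset.sum_eq_zero fun i _ => by rw [hv i, mul_zero]
  simp only [mul_add, Finset.sum_add_distrib, Finset.mul_sum] at h1
  have h2 : ∑ i, ∑ j, ε i * (a i j * (v j - v i)) = 0 := by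
    have h3 : ∑ i, ∑ j, ε i * (a i j * (v j - v i)) =
        -∑ i, ∑ j, ε i * (a i j * (v j - v i)) := by
      conv_lhs => rw [Finset.sum_comm]
      rw [← Finset.sum_neg_distrib]
      refine Finset.sum_congr rfl fun i _ => ?_
      rw [← Finset.sum_neg_distrib]
      refine Finset.sum_congr rfl fun j _ => ?_
      by_cases hij : i = j
      · rw [hij, sub_self, mul_zero, mul_zero, neg_zero]
      · have := hs j i (Ne.symm hij)
        linear_combination (v i - v j) * this
    have h4 : ∀ x : ZMod 3, x = -x → x = 0 := by decide
    exact h4 _ h3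
  rw [h2, zero_add] at h1
  rw [← h1]
  exact Finset.sum_congr rfl fun i _ => by ring

theorem D2_ne {ε : ι → ZMod 3} (hε : ∀ i, ε i ≠ 0)
    (hs : ∀ i j, i ≠ j → ε i * a i j = ε j * a j i) (hk : Ker2 a b) :
    D (ap a b (fun i => ε i * b i)) dn Finset.univ ≠ 0 := by
  refine D_ne (ε := fun x : Option ι => Option.elim x 1 ε) ⟨none, Finset.mem_univ _⟩ ?_ ?_ ?_ ?_
  · intro i _
    rcases i with _ | i
    · exact one_ne_zero
    · exact hε i
  · intro i _ j _ hij
    rcases i with _ | i
    · rcases j with _ | j
      · exact absurd rfl hij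
      · show 1 * (ε j * b j) = ε j * b j
        rw [one_mul]
    · rcases j with _ | j
      · show ε i * b i = 1 * (ε i * b i)
        rw [one_mul]
      · exact hs i j fun h => hij (by rw [h])
  · intro v hv
    have h1 : ∀ i, v (some i) - v none = 0 := by
      refine hk (fun i => v (some i) - v none) fun i => ?_
      have h2 := hv (some i) (Finset.mem_univ _)
      rw [Fintype.sum_option] at h2
      have h3 : b i * (v (some i) - v none) + ∑ j, a i j * (v (some i) - v (some j)) = 0 := h2
      have h4 : ∑ j, a i j * (v (some i) - v (some j)) =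
          -∑ j, a i j * ((v (some j) - v none) - (v (some i) - v none)) := by
        rw [← Finset.sum_neg_distrib]
        exact Finset.sum_congr rfl fun j _ => by ring
      rw [h4] at h3
      linear_combination -h3
    have h5 : ∀ x, v x = v none := by
      intro x
      rcases x with _ | i
      · rfl
      · exact sub_eq_zero.1 (h1 i)
    intro i _ j _
    rw [h5 i, h5 j]
  · rw [Fintype.sum_option]
    show 1 * 1 + ∑ i, ε i * 0 ≠ 0
    simp

theorem D2_zero {ε : ι → ZMod 3} (hε : ∀ i, ε i ≠ 0)
    (hs : ∀ i j, i ≠ j → ε i * a i j = ε j * a j i) (hk : ¬ Ker2 a b) :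
    D (ap a b (fun i => ε i * b i)) dn Finset.univ = 0 := by
  refine Pool.Agent.Y319.CT.t_DZ (Option ι) (ap a b (fun i => ε i * b i)) dn
    (fun x : Option ι => Option.elim x 1 ε) inferInstance ?_ ?_ ?_
  · intro i
    rcases i with _ | i
    · exact one_ne_zero
    · exact hε i
  · intro i j hij
    rcases i with _ | i
    · rcases j with _ | j
      · exact absurd rfl hij
      · show 1 * (ε j * b j) = ε j * b j
        rw [one_mul]
    · rcases j with _ | j
      · show ε i * b i = 1 * (ε i * b i)
        rw [one_mul]
      · exact hs i j fun h => hij (by rw [h])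
  · intro hcon
    apply hk
    intro v hv i
    have h1 := hcon (fun x : Option ι => Option.elim x 0 v) ?_ (some i) none
    · exact h1
    · intro x
      rcases x with _ | i
      · rw [Fintype.sum_option]
        show 0 * (0 - 0) + ∑ j, (ε j * b j) * (0 - v j) = 0
        have h2 := last_eq (a := a) (b := b) (ε := ε) hs (v := v) (c := 0) (fun i => by
          rw [hv i]
          ring)
        rw [h2]
        ring
      · rw [Fintype.sum_option]
        show b i * (v i - 0) + ∑ j, a i j * (v i - v j) = 0
        have h2 : ∑ j, a i j * (v i - v j) = -∑ j, a i j * (v j - v i) := by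
          rw [← Finset.sum_neg_distrib]
          exact Finset.sum_congr rfl fun j _ => by ring
        rw [h2, hv i]
        ring

end Pool.Agent.Helper68.C2.Comb2
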