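import Pool.Agent.Helper68.C2.Desc2
import Pool.Agent.Helper68.C2.Comb2
import Pool.Graph.R_seed8.Y363.CT.SELC
import Pool.Graph.R_seed8.Y319.CT.FF
import Pool.Graph.R_seed8.Y100.CT.CUB3
import Pool.Graph.R_seed8.Y379.CT.Cub
import Pool.Graph.R_seed8.Y379.CT.Ramc
import Pool.Graph.R_seed8.Y674.CT.PT

/-!
# The converse of the descent for `D = w^κ ∏ π_j^(e_j)`
-/

set_option autoImplicit false
set_option linter.unusedSectionVars false
set_option linter.unusedVariables false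

open scoped Classical

namespace Pool.Agent.Helper68.C2.Selc2

open WeierstrassCurve
open Pool.Agent.Y692.QS (Ei w nr)
open Pool.Agent.Y715.T.Gi Pool.Agent.Y715.T.Nr Pool.Agent.Y715.T.Df Pool.Agent.Y715.T.Ell
open Pool.Agent.Y715.T.Red
open Pool.Agent.Y715.T.Rec (cs)
open Pool.Agent.Y715.T.RecG
open Pool.Agent.Y715.T.Sel (kc_mul kc_one kc_congr kc_pow kc_uniq kc_exp ex_root root_ne
  iota_sq iota_ev odd_of not_dvd_of_unr i₀_mod exists_emb3)
open Pool.Agent.Y48.CT.SEL (p0 pr0 esq prod_form cf_prod not_assoc_lam)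
open Pool.Agent.Y155.CT (a_mul a_cont)
open Pool.Agent.Y703.CT
open Pool.Agent.Helper68.C2 Pool.Agent.Helper68.C2.Sel2
open Pool.Agent.Helper68.C2.LK2 (cs_w w_unit not_dvd_w)
open Pool.Agent.Helper68.C2.Chr (tq tq_prim)

/-! ### The prime above three -/

open Pool.Agent.Y100.CT.CUB3 in
/-- local solutions at three -/
theorem cub3 {I : PadicAlgCl 3} (hI : I ^ 2 + I + 1 = 0) {B D b m : Ei}
    (hB : B = 1 + 3 * (lam * b)) (hD : D = 1 + lam * m) : ∃ s t r, Sol hI B D s t r := by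
  have hll : (lam : Ei) ^ 2 = -3 := lam_sq
  have hfix : ∀ z : Ei, ∀ τ : Au 3, τ I = I → τ (ev I hI z) = ev I hI z :=
    fun z τ hτ => ev_fix hI hτ z
  obtain ⟨u, hu, q, hq⟩ := res (2 * b)
  have hu3 := cube_res hu
  obtain ⟨z, hz⟩ : ∃ z, B ^ 2 + B * D * (lam * u) ^ 3 = 1 + 9 * z := by
    refine ⟨-q + lam ^ 2 * b ^ 2 + u * (3 * b + m + 3 * lam * b * m), ?_⟩
    have h3 : (lam * u) ^ 3 = -3 * lam * u := by
      have : (lam * u) ^ 3 = lam ^ 2 * lam * u ^ 3 := by ring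
      rw [this, hll, hu3]
    rw [hB, hD, h3]
    linear_combination 3 * lam * hq + (3 * q - 3 * u * (3 * b + m + 3 * lam * b * m)) * hll
  obtain ⟨s, hs, hs0, hsf⟩ := root hI (c := ev I hI (1 + 9 * z)) (hfix _) (by
    rw [map_add, map_one, add_sub_cancel_left]
    exact norm_nine hI z)
  refine ⟨s, 1, ev I hI (lam * u), ⟨fun τ hτ => ⟨hsf τ hτ, map_one τ, hfix _ τ hτ⟩,
    Or.inl hs0, ?_⟩⟩
  rw [hs, ← hz, map_add, map_mul, map_mul, map_pow, map_pow]
  ring

variable {J : Type} [Fintype J] {π : J → Ei} {e : J → ZMod 3} {κ : ZMod 3}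
variable {i₀ : QB} {hi : i₀ ^ 2 + i₀ + 1 = 0}

/-! ### The primes dividing `D` -/

open Pool.Agent.Y153.CTRAM (u_ne exists_T3 jj_zero jj_one jj_neg_one jj_nsmul nsmul_tt) in
open Pool.Agent.Y379.CT (hensel exp_eq pow_val_eq_one) in
theorem ramc (hD : Dt π e) {u : QB} {a : GK i₀ → ZMod 3} (hT : Tw hi (pD2 π e κ) u a)
    (v : Option J → ZMod 3) (h : GK i₀ → ZMod 3)
    (hK : Kc hi (∏ o, pw π o ^ (ew e κ o * v o).val) h) (j : J)
    (hj : ∑ o, ew e κ o * cs (π j) (pw π o) * (v o - v (some j)) = 0)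
    (p : ℕ) [Fact p.Prime] (ι : QB →ₐ[ℚ] PadicAlgCl p) (hp : p ≠ 3)
    (hπ : ‖ι (ev i₀ hi (π j))‖ < 1) : ∃ R, St1 hi ι a h R := by
  have hI := iota_sq' hi ι
  have hu := u_ne hT (pD2_ne hD)
  have hπ' := hπ
  rw [iota_ev] at hπ'
  have hpr := (hD.pq j).prime
  have hnd : ∀ o, o ≠ some j → ¬ π j ∣ pw π o := fun o ho => ndw hD j o ho
  -- the local cube
  set M : Ei := ∏ o ∈ Finset.univ.erase (some j), pw π o ^ (ew e κ o * (v o - v (some j))).val
    with hM
  have hndp : ∀ i ∈ Finset.univ.erase (some j),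
      ¬ π j ∣ pw π i ^ (ew e κ i * (v i - v (some j))).val := fun i hi' h1 =>
    hnd i (Finset.ne_of_mem_erase hi') (hpr.dvd_of_dvd_pow h1)
  have hMd : ¬ π j ∣ M := by
    intro h1
    obtain ⟨i, hi', h2⟩ := (hpr.dvd_finsetProd_iff _).1 h1
    exact hndp i hi' h2
  have hcs : cs (π j) M = 0 := by
    rw [hM, Pool.Agent.Y715.T.RecG.cs_prod hpr (hD.pq j).norm _ _ hndp]
    rw [← Finset.add_sum_erase _ _ (Finset.mem_univ (some j))] at hj
    rw [sub_self, mul_zero, zero_add] at hj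
    rw [← hj]
    refine Finset.sum_congr rfl fun i hi' => ?_
    rw [Pool.Agent.Y715.T.RecG.cs_pow hpr (hD.pq j).norm (hnd i (Finset.ne_of_mem_erase hi')),
      ZMod.natCast_zmod_val]
    ring
  obtain ⟨x, hx⟩ := (Pool.Agent.Y715.T.RecG.cs_zero_iff hpr (hD.pq j).norm hMd).1 hcs
  have hxd : ¬ π j ∣ x := by
    intro h1
    apply hMd
    have h2 := dvd_add hx (dvd_pow h1 three_ne_zero)
    rwa [sub_add_cancel] at h2
  obtain ⟨s, hs, hs1, hsf⟩ := hensel hI hp (c := ev (ι i₀) hI M) (y := ev (ι i₀) hI x)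
    (fun τ hτ => ev_fix hI hτ M) (fun τ hτ => ev_fix hI hτ x)
    (eq_one_of_not_lt hI ((dvd_iff hI hpr hπ' x).not.1 hxd)) (by
      have h1 := (dvd_iff hI hpr hπ' _).1 hx
      rw [map_sub, map_pow, ← norm_neg, neg_sub] at h1
      exact h1)
  -- the identity between the products
  choose k hk using fun o => exp_eq (ew e κ o) (v o) (v (some j))
  have hprod : (∏ o, pw π o ^ (ew e κ o * v o).val) * pD2 π e κ ^ (-v (some j)).val =
      M * (∏ o, pw π o ^ k o) ^ 3 := by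
    have h1 : M = ∏ o, pw π o ^ (ew e κ o * (v o - v (some j))).val := by
      rw [← Finset.mul_prod_erase _ _ (Finset.mem_univ (some j)), sub_self, mul_zero,
        ZMod.val_zero, pow_zero, one_mul]
    rw [h1, pD2_eq]
    rw [← Finset.prod_pow, ← Finset.prod_pow, ← Finset.prod_mul_distrib,
      ← Finset.prod_mul_distrib]
    refine Finset.prod_congr rfl fun i _ => ?_
    rw [← pow_mul, ← pow_mul, ← pow_add, ← pow_add, hk, mul_comm (k i) 3]
  -- the cube root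
  obtain ⟨b, hb⟩ := IsAlgClosed.exists_pow_nat_eq
    (ev i₀ hi (∏ o, pw π o ^ (ew e κ o * v o).val)) (n := 3) (by norm_num)
  have hb0 : b ≠ 0 := by
    rintro rfl
    have h1 : ev i₀ hi (∏ o, pw π o ^ (ew e κ o * v o).val) = 0 := by rw [← hb]; ring
    exact pr0w hD _ (ev_inj hi h1)
  have hcube : (ι (b * u ^ (-v (some j)).val)) ^ 3 =
      (s * ev (ι i₀) hI (∏ o, pw π o ^ k o)) ^ 3 := by
    rw [← map_pow, mul_pow, ← pow_mul, mul_comm _ 3, pow_mul, hb, hT.cube, ← map_pow, ← map_mul,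
      hprod, iota_ev, map_mul, mul_pow, hs, map_pow]
  obtain ⟨n, hn⟩ := cube_eq hI hcube
  have hchar : ∀ (τ : Au p) (σ : GK i₀), Cmp ι τ σ → h σ = -(v (some j) * a σ) := by
    intro τ σ hc
    have hτI : τ (ι i₀) = ι i₀ := hc.fix
    have h1 : τ (ι (b * u ^ (-v (some j)).val)) = ι (b * u ^ (-v (some j)).val) := by
      rw [hn, map_mul, map_mul, map_pow, hτI, hsf τ hτI, ev_fix hI hτI]
    rw [hc] at h1
    have h2 := ι.injective h1
    have h3 : σ (b * u ^ (-v (some j)).val) =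
        i₀ ^ ((h σ).val + (-a σ).val * (-v (some j)).val) * (b * u ^ (-v (some j)).val) := by
      rw [map_mul, map_pow, hK b hb σ, hT.act σ, mul_pow, ← pow_mul, pow_add]
      ring
    rw [h3] at h2
    have h4 : i₀ ^ ((h σ).val + (-a σ).val * (-v (some j)).val) = 1 := by
      apply mul_right_cancel₀ (mul_ne_zero hb0 (pow_ne_zero (-v (some j)).val hu))
      rw [h2, one_mul]
    have h5 := pow_val_eq_one hi _ h4
    push_cast at h5
    rw [ZMod.natCast_zmod_val, ZMod.natCast_zmod_val, ZMod.natCast_zmod_val] at h5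
    linear_combination h5
  -- the point
  obtain ⟨hn3, hT3⟩ := exists_T3 hI
  set T3 : Pt (PadicAlgCl p) := Affine.Point.some (-1) ((ι i₀) ^ 2) hn3 with hT3d
  have hjT3 : ∀ c : ZMod 3, jj hI c T3 = T3 - tt _ c := by
    intro c
    rcases z3 c with rfl | rfl | rfl
    · rw [jj_zero, tt_zero, sub_zero]
    · rw [jj_one, hT3]
    · rw [jj_neg_one, hT3, map_sub, im_tt, hT3, sub_sub, ← tt_add]
      congr 2
  have hlT3 : ∀ τ : Au p, τ (ι i₀) = ι i₀ → pm (lh τ) T3 = T3 := by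
    intro τ hτI
    rw [hT3d, pm_some, Affine.Point.some.injEq]
    rw [lh_apply, lh_apply]
    constructor
    · rw [map_neg, map_one]
    · rw [map_pow, hτI]
  refine ⟨(v (some j)).val • T3, fun τ σ hc => ?_⟩
  rw [map_nsmul, hlT3 τ hc.fix, jj_nsmul, hjT3, smul_sub, nsmul_tt, hchar τ σ hc, ← tt_neg]
  abel

/-! ### Powers of `w` -/

lemma kc_w {n : ZMod 3} {z : Ei} (hz : z = w ^ n.val) {h : GK i₀ → ZMod 3} (hK : Kc hi z h)
    (h0 : ∀ σ, h σ = 0) : n = 0 := by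
  obtain ⟨ι⟩ := exists_emb3
  have hI := iota_sq' hi ι
  obtain ⟨s, hs⟩ := ex_root (ev i₀ hi z)
  have hm : ι s ∈ Pool.Agent.Y180.CT.Kl (ι i₀) := by
    intro τ hτ
    obtain ⟨σ, hc⟩ := exists_cmp ι τ hτ
    rw [hc, hK s hs σ, h0 σ, ZMod.val_zero, pow_zero, one_mul]
  have h1 := Pool.Agent.Y715.T.Thr.gen hI (v := ι s) (z := 0) (u := w ^ n.val) (q := 0) (g := 0)
    (w_unit.pow _) (Pool.Agent.Y180.CT.Kl_le hm) (by rw [norm_zero]; exact zero_le_one)
    (zero_mem _) (by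
      rw [mul_zero, add_zero, mul_one, pow_zero, mul_one, mul_zero, add_zero, mul_one, ← map_pow,
        hs, hz, Pool.Agent.Y180.CT.iota_ev' hi ι])
  obtain ⟨-, h2⟩ := h1
  revert h2
  clear hz
  revert n
  decide

/-! ### The form of `B` -/

/-- the sum of the equations -/
lemma sum_zero (hD : Dt π e) (hκ : κ ≠ 0) {v : J → ZMod 3}
    (hv : ∀ j, ∑ i, e i * cs (π j) (π i) * (v i - v j) = -(κ * rq (π j)) * v j) :
    ∑ j, e j * v j * rq (π j) = 0 := by
  have h1 := Comb2.last_eq (a := fun i j => e j * cs (π i) (π j)) (ε := e)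
    (b := fun i => -(κ * rq (π i))) (v := v) (c := 0) (fun i j hij => by
      show e i * (e j * cs (π i) (π j)) = e j * (e i * cs (π j) (π i))
      rw [Pool.Agent.Y350.CT.rec (π i) (π j) (hD.pq i) (hD.pq j) (hD.nd i j hij)]
      ring) (fun i => by
      rw [hv i]
      ring)
  have h2 : κ * ∑ j, e j * v j * rq (π j) = 0 := by
    rw [← h1, Finset.mul_sum]
    exact Finset.sum_congr rfl fun j _ => by ring
  exact (mul_eq_zero.1 h2).resolve_left hκ

/-- `B = 1` modulo `3 lam` -/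
lemma form_B (hD : Dt π e) {v : J → ZMod 3} (h0 : ∑ j, e j * v j * rq (π j) = 0) :
    ∃ b : Ei, ∏ j, π j ^ (e j * v j).val = 1 + 3 * (lam * b) := by
  obtain ⟨h1, h2⟩ := rq_prod Finset.univ (f := fun j => π j ^ (e j * v j).val)
    (fun j => (rq_pow (hD.pq j).three _).1)
  have h3 : rq (∏ j, π j ^ (e j * v j).val) = 0 := by
    rw [h2, ← h0]
    refine Finset.sum_congr rfl fun j _ => ?_
    rw [(rq_pow (hD.pq j).three _).2, ZMod.natCast_zmod_val]
  obtain ⟨x, y, hxy, hr⟩ := ex_q h1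
  rw [h3] at hr
  obtain ⟨t, ht⟩ : (3 : ℤ) ∣ x + y := (ZMod.intCast_zmod_eq_zero_iff_dvd _ 3).1 hr.symm
  have hx : x = 3 * t - y := by linarith
  refine ⟨⟨y - t, y - 2 * t⟩, ?_⟩
  rw [hxy, hx]
  have h3' : (3 : Ei) = ⟨3, 0⟩ := by decide
  have h1' : (1 : Ei) = ⟨1, 0⟩ := by decide
  rw [h3', h1']
  unfold lam
  ext
  · simp
    ring
  · simp
    ring

/-- **The converse.** -/
theorem selc2 (hD : Dt π e) (hκ : κ ≠ 0) (hker : ¬ KerW π e κ) {u : QB} {a : GK i₀ → ZMod 3}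
    (hTw : Tw hi (pD2 π e κ) u a) {m : Ei} (hDm : pD2 π e κ = 1 + lam * m) : ¬ Sel1 hi a := by
  intro hsel
  have hker' : ∃ v : J → ZMod 3,
      (∀ j, ∑ i, e i * cs (π j) (π i) * (v i - v j) = -(κ * rq (π j)) * v j) ∧
      ∃ i₁, v i₁ ≠ 0 := by
    by_contra hcon
    apply hker
    intro v hv i
    by_contra hne
    exact hcon ⟨v, hv, i, hne⟩
  obtain ⟨v, hv, i₁, hne⟩ := hker'
  set v' : Option J → ZMod 3 := fun o => o.elim 0 v with hv'
  have hBo : ∏ o, pw π o ^ (ew e κ o * v' o).val = ∏ j, π j ^ (e j * v j).val := by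
    rw [prod_pw]
    show w ^ (κ * 0).val * _ = _
    rw [mul_zero, ZMod.val_zero, pow_zero, one_mul]
    rfl
  have hB0 : (∏ o, pw π o ^ (ew e κ o * v' o).val) ≠ 0 := pr0w hD _
  have hD0 : pD2 π e κ ≠ 0 := pD2_ne hD
  obtain ⟨β, a', hTw'⟩ := Pool.Agent.Y363.CT.SELC.exists_tw (hi := hi)
    (∏ o, pw π o ^ (ew e κ o * v' o).val)
  have hm : ∀ σ τ : GK i₀, -a' (σ * τ) = -a' σ + -a' τ := by
    intro σ τ
    rw [a_mul hB0 hTw' σ τ]
    ring
  have hc : IsLocallyConstant (fun σ : GK i₀ => -a' σ) :=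
    (a_cont hB0 hTw').comp (fun c : ZMod 3 => -c)
  have hKc : Kc hi (∏ o, pw π o ^ (ew e κ o * v' o).val) (fun σ => -a' σ) :=
    kc_of hi (root_ne (hi := hi) hB0 hTw'.cube) hTw'.cube hTw'.act
  obtain ⟨b, hb⟩ := form_B hD (sum_zero hD hκ hv)
  have hloc : ∀ (p : ℕ) [Fact p.Prime] (ι : QB →ₐ[ℚ] PadicAlgCl p),
      ∃ R, St1 hi ι a (fun σ => -a' σ) R := by
    intro p _ ι
    by_cases hp3 : p = 3
    · subst hp3
      refine Pool.Agent.Y674.CT.t_PT i₀ hi _ _ hB0 hD0 u a hTw _ hKc 3 ι ?_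
      exact cub3 (iota_sq' hi ι) (by rw [hBo]; exact hb) hDm
    · by_cases hj : ∃ j, ‖ι (ev i₀ hi (π j))‖ < 1
      · obtain ⟨j, hj⟩ := hj
        refine ramc hD hTw v' _ hKc j ?_ p ι hp3 hj
        rw [Fintype.sum_option]
        have h11 : cs (π j) (pw π none) = -rq (π j) := by
          rw [pw_none, cs_w (hD.pq j), tq_prim (hD.pq j).three]
        rw [h11]
        have h12 := hv j
        show κ * -rq (π j) * (0 - v j) + ∑ i, e i * cs (π j) (π i) * (v i - v j) = 0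
        rw [h12]
        ring
      · have hj' : ∀ o, ¬ ‖ev (ι i₀) (iota_sq' hi ι) (pw π o)‖ < 1 := by
          rintro (_ | j) h1
          · rw [pw_none, norm_unit _ w_unit] at h1
            exact lt_irrefl _ h1
          · apply hj
            refine ⟨j, ?_⟩
            rw [iota_ev]
            exact h1
        refine Pool.Agent.Y674.CT.t_PT i₀ hi _ _ hB0 hD0 u a hTw _ hKc p ι
          (Pool.Agent.Y379.CT.t_CUB Pool.Agent.Y319.CT.t_FF p hp3 (ι i₀) (iota_sq' hi ι) _ _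
            (Pool.Agent.Y363.CT.SELC.not_lt_prod _ hj' _) ?_)
        rw [pD2_eq]
        exact Pool.Agent.Y363.CT.SELC.not_lt_prod _ hj' _
  obtain ⟨c, hc'⟩ := hsel _ hc hm hloc
  have hb' : Kc hi (∏ o, pw π o ^ (ew e κ o).val) (fun σ => -a σ) := by
    rw [← pD2_eq]
    exact kc_of hi (root_ne (hi := hi) hD0 hTw.cube) hTw.cube hTw.act
  have hy := kc_mul hB0 (pow_ne_zero c.val (pr0w hD _)) hKc (kc_pow (pr0w hD _) hb' c.val)
  have ey : (∏ o, pw π o ^ (ew e κ o * v' o).val) * (∏ o, pw π o ^ (ew e κ o).val) ^ c.val =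
      ∏ o, pw π o ^ ((ew e κ o * v' o).val + (ew e κ o).val * c.val) := by
    rw [← Finset.prod_pow, ← Finset.prod_mul_distrib]
    refine Finset.prod_congr rfl fun i _ => ?_
    rw [← pow_mul, ← pow_add]
  rw [ey] at hy
  have hy2 : Kc hi (∏ o, pw π o ^ (ew e κ o * (v' o + c)).val)
      (fun σ => -a' σ + (c.val : ZMod 3) * -a σ) := by
    refine kc_exp (pw_ne hD) (fun i => ?_) hy
    push_cast
    rw [ZMod.natCast_zmod_val, ZMod.natCast_zmod_val, ZMod.natCast_zmod_val,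
      ZMod.natCast_zmod_val]
    ring
  have hy3 : ∀ σ : GK i₀, -a' σ + (c.val : ZMod 3) * -a σ = 0 := by
    intro σ
    have h1 : -a' σ = c * a σ := hc' σ
    rw [h1, ZMod.natCast_zmod_val]
    ring
  have hvj : ∀ j, v j = -c := by
    intro j
    obtain ⟨p, hp, ι, hl⟩ := exists_emb hi (hD.pq j).prime
    have hp3 := odd_of hi ι (hD.pq j).prime hl (not_assoc_lam (hD.pq j))
    have h1 := not_dvd_of_unr (cf_prodw hD (fun o => ew e κ o * (v' o + c))) hy2 hp3 ι
      (hD.pq j).prime hl (fun τ σ _ _ => hy3 σ)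
    have hyj : ew e κ (some j) * (v' (some j) + c) = 0 := by
      by_contra hne'
      apply h1
      refine dvd_trans (dvd_pow_self (π j) ?_) (Finset.dvd_prod_of_mem
        (fun o => pw π o ^ (ew e κ o * (v' o + c)).val) (Finset.mem_univ (some j)))
      rwa [Ne, ZMod.val_eq_zero]
    have h3 : v' (some j) + c = 0 := (mul_eq_zero.1 hyj).resolve_left (hD.e0 j)
    exact eq_neg_of_add_eq_zero_left h3
  have hz : ∏ o, pw π o ^ (ew e κ o * (v' o + c)).val = w ^ (κ * c).val := by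
    rw [prod_pw]
    have h1 : ∏ j, π j ^ (ew e κ (some j) * (v' (some j) + c)).val = 1 := by
      refine Finset.prod_eq_one fun j _ => ?_
      show π j ^ (e j * (v j + c)).val = 1
      rw [hvj j, neg_add_cancel, mul_zero, ZMod.val_zero, pow_zero]
    rw [h1, mul_one]
    show w ^ (κ * (0 + c)).val = _
    rw [zero_add]
  have hc0 := kc_w hz hy2 hy3
  have hc1 : c = 0 := (mul_eq_zero.1 hc0).resolve_left hκ
  apply hne
  rw [hvj i₁, hc1, neg_zero]

end Pool.Agent.Helper68.C2.Selc2
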