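import Pool.Agent.Helper68.C2.Sel2
import Pool.Graph.R_seed8.Y703.CT.T1

/-!
# Descent for `D = w^κ ∏ π_j^(e_j)`
-/

set_option autoImplicit false
set_option linter.unusedSectionVars false

open scoped Classical

namespace Pool.Agent.Helper68.C2.Desc2

open Pool.Agent.Y692.QS (Ei w nr)
open Pool.Agent.Y715.T.Gi Pool.Agent.Y715.T.Nr Pool.Agent.Y715.T.Df
open Pool.Agent.Y703.CT
open Pool.Agent.Helper68.C2 Pool.Agent.Helper68.C2.Sel2
open Pool.Agent.Y715.T.Sel (exists_emb3)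

variable {J : Type} [Fintype J] {π : J → Ei} {e : J → ZMod 3} {κ : ZMod 3}
variable {i₀ : QB} {hi : i₀ ^ 2 + i₀ + 1 = 0}

/-- `D` is not a cube -/
theorem a_ne (hD : Dt π e) (hκ : κ ≠ 0) {u : QB} {a : GK i₀ → ZMod 3}
    (hT : Tw hi (pD2 π e κ) u a) : ∃ σ, a σ ≠ 0 := by
  by_contra hcon
  push Not at hcon
  obtain ⟨ι⟩ := exists_emb3
  have hI := iota_sq' hi ι
  have hm : ι u ∈ Pool.Agent.Y180.CT.Kl (ι i₀) := by
    intro τ hτ
    obtain ⟨σ, hc⟩ := exists_cmp ι τ hτ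
    rw [hc, hT.act σ, hcon σ, neg_zero, ZMod.val_zero, pow_zero, one_mul]
  obtain ⟨q, hq⟩ := Pool.Agent.Y48.CT.SEL.prod_form hD (fun j => (e j).val)
  have hq' : pD π e = 1 + 3 * q := by
    unfold pD
    rw [← hq]
    ring
  have h1 := Pool.Agent.Y715.T.Thr.gen hI (v := ι u) (z := 0) (u := w ^ κ.val) (q := q) (g := 0)
    (LK2.w_unit.pow _) (Pool.Agent.Y180.CT.Kl_le hm) (by rw [norm_zero]; exact zero_le_one)
    (zero_mem _) (by
      rw [mul_zero, add_zero, mul_one, pow_zero, mul_one, ← map_pow, hT.cube,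
        Pool.Agent.Y180.CT.iota_ev' hi ι, ← hq']
      rfl)
  obtain ⟨-, h2⟩ := h1
  revert h2 hκ
  clear hT
  generalize κ = c
  revert c
  decide

theorem descK (hD : Dt π e) (hκ : κ ≠ 0) (hk : KerW π e κ) {u : QB} {a : GK i₀ → ZMod 3}
    (hT : Tw hi (pD2 π e κ) u a) : ShK hi a ∧ MwK hi a := by
  have hne : pD2 π e κ ≠ 0 := pD2_ne hD
  have hsel : Sel1 hi a := sel2 hD hκ hk hT
  exact ⟨Pool.Agent.Y155.CT.t_SHK _ hne i₀ hi u a hT hsel,
    Pool.Agent.Y155.CT.t_MWK _ hne i₀ hi u a hT (a_ne hD hκ hT) hsel⟩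

end Pool.Agent.Helper68.C2.Desc2
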