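import Pool.Graph.R_seed8.Y703.CT.AN1

/-!
# Cubic twists by `ω^k ∏ π_j^(e_j)`: definitions
-/

set_option autoImplicit false

open scoped Classical

namespace Pool.Agent.Helper68.C2

open Pool.Agent.Y692.QS (Ei w toC)
open Pool.Agent.Y703.CT (chD rq Dt pD)
open Pool.Agent.Y715.T.Rec (cs)

/-- `F` is the entire continuation of the `L`-series of the Hecke character
`(α) ↦ α ∏ (α / π_j)^(e_j) w^(κ r(α))`, `α = 1 + 3 (x + y w)`, `r(α) = x + y` -/
def IsHL2 {J : Type} [Fintype J] (π : J → Ei) (e : J → ZMod 3) (κ : ZMod 3) (F : ℂ → ℂ) : Prop :=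
  Differentiable ℂ F ∧ ∀ s : ℂ, 3 / 2 < s.re →
    HasSum (fun α : {α : Ei // (3 : Ei) ∣ α - 1} =>
      toC α * (chD π e α * toC w ^ (κ * rq α).val) *
        ((Pool.Agent.Y692.QS.nr (α : Ei) : ℤ) : ℂ) ^ (-s)) (F s)

/-- the twisting element `w^κ ∏ π_j^(e_j)` -/
def pD2 {J : Type} [Fintype J] (π : J → Ei) (e : J → ZMod 3) (κ : ZMod 3) : Ei :=
  w ^ κ.val * pD π e

/-- the Laplacian with the extra vertex `w` is invertible -/
def KerW {J : Type} [Fintype J] (π : J → Ei) (e : J → ZMod 3) (κ : ZMod 3) : Prop :=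
  ∀ v : J → ZMod 3, (∀ j, ∑ i, e i * cs (π j) (π i) * (v i - v j) = -(κ * rq (π j)) * v j) →
    ∀ j, v j = 0

end Pool.Agent.Helper68.C2
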