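import Pool.Agent.Helper68.C2.Min2
import Pool.Agent.Helper68.C2.Defs2
import Pool.Graph.R_seed8.Y350.CTK.Loc
import Pool.Graph.R_seed8.Y891.CTK.E0
import Pool.Graph.R_seed8.Y48.CT.SEL

/-!
# The Tamagawa numbers of `y² + D y = x³` over `K`, `D = w^κ ∏ π_j`
-/

set_option autoImplicit false
set_option linter.unusedSectionVars false

namespace Pool.Agent.Helper68.C2.Tam2

open scoped Classical

open NumberField IsDedekindDomain WeierstrassCurve WithZero
open Pool.Agent.Y692.QS (Ei w nr toC)
open Pool.Agent.Y715.T.RecG (Pq)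
open Pool.Agent.Y703.CT
open Pool.Agent.Y696 (NonsingRed)
open Pool.Agent.Y696.CTK
open Pool.Agent.Y350.CTK Pool.Agent.Y350.CTK.Tam
open Pool.Agent.Helper68.C2

/-! ### The prime above three -/

/-- there are no points of singular reduction -/
theorem nsr_all {L : Type} [Field L] (v : Valuation L ℤᵐ⁰) (D θ m : L) (hθ : θ ^ 2 = -3)
    (hvθ : v θ = exp (-1 : ℤ)) (hD : D = 1 + θ * m) (hm : v m = 1)
    (hres : ∀ x : L, v x ≤ 1 → v x < 1 ∨ v (x - 1) < 1 ∨ v (x + 1) < 1)
    (P : (ED D).toAffine.Point) : NonsingRed v (ED D) P := by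
  have v3 : v (3 : L) = exp (-2 : ℤ) := by
    have e : (3 : L) = -(θ ^ 2) := by rw [hθ]; ring
    rw [e, Valuation.map_neg, map_pow, hvθ]
    rfl
  have v3l : v (3 : L) < 1 := by
    rw [v3, lt_one_iff]
    exact exp_le_exp.2 (by norm_num)
  have v3e : v (3 : L) ≤ exp (-2 : ℤ) := v3.le
  have v2 : v (2 : L) = 1 := by
    have e : (2 : L) = -1 + 3 := by norm_num
    rw [e, Valuation.map_add_eq_of_lt_left v (by rw [Valuation.map_neg, map_one]; exact v3l),
      Valuation.map_neg, map_one]
  have v4 : v (4 : L) = 1 := by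
    have e : (4 : L) = 2 * 2 := by norm_num
    rw [e, map_mul, v2, one_mul]
  rcases P with _ | ⟨x, y, hn⟩
  · exact trivial
  have hA : At (Affine.Point.some x y hn) x y := ⟨hn, rfl⟩
  rw [nsr_iff hA]
  by_contra hc
  rw [not_or, not_le, not_le] at hc
  obtain ⟨h1, h2⟩ := hc
  have he := hA.eqn
  have hx : v x ≤ 1 := by
    by_contra hc
    rw [not_le] at hc
    have hx0 : v x ≠ 0 := (lt_trans zero_lt_one hc).ne'
    rw [map_mul, v3, map_pow] at h2
    have h3 : log (exp (-2 : ℤ) * v x ^ 2) < 0 := by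
      rw [← log_one, log_lt_log (mul_ne_zero exp_ne_zero (pow_ne_zero 2 hx0)) one_ne_zero]
      exact h2
    have h4 : 0 < log (v x) := by
      rw [← log_one, log_lt_log one_ne_zero hx0]
      exact hc
    rw [log_mul exp_ne_zero (pow_ne_zero 2 hx0), log_exp, log_pow, nsmul_eq_mul] at h3
    push_cast at h3
    omega
  have vθm : v (θ * m) = exp (-1 : ℤ) := by rw [map_mul, hvθ, hm, mul_one]
  have v1e : v (2 * y + D) ≤ exp (-1 : ℤ) := lt_one_iff.1 h1
  -- the square
  have hq : v (4 * (x ^ 3 + 1) + 2 * (θ * m)) ≤ exp (-2 : ℤ) := by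
    have e : 4 * (x ^ 3 + 1) + 2 * (θ * m) = (2 * y + D) ^ 2 + 3 + 3 * m ^ 2 := by
      rw [← he, hD]
      linear_combination -m ^ 2 * hθ
    rw [e]
    refine vadd (vadd ?_ v3e) ?_
    · exact vle (vpow v1e 2) (by norm_num)
    · rw [map_mul, map_pow, hm, one_pow, mul_one]
      exact v3e
  have hc : v (x ^ 3 + 1) < 1 := by
    have h3 : v (4 * (x ^ 3 + 1)) < 1 := by
      have e : 4 * (x ^ 3 + 1) = (4 * (x ^ 3 + 1) + 2 * (θ * m)) - 2 * (θ * m) := by ring
      rw [e]
      refine vsubl ?_ ?_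
      · rw [lt_one_iff]
        exact vle hq (by norm_num)
      · rw [map_mul, v2, one_mul, vθm, lt_one_iff]
    rwa [map_mul, v4, one_mul] at h3
  have hx1 : v (x + 1) < 1 := by
    rcases hres x hx with h | h | h
    · exfalso
      have h3 : v (x ^ 3 + 1) = 1 := by
        rw [add_comm, Valuation.map_add_eq_of_lt_left v (by
          rw [map_one, map_pow]; exact pow_lt_one₀ zero_le h (by norm_num)), map_one]
      rw [h3] at hc
      exact lt_irrefl _ hc
    · exfalso
      have e : x ^ 3 + 1 = 2 + (x - 1) * (x ^ 2 + x + 1) := by ring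
      have h4 : v ((x - 1) * (x ^ 2 + x + 1)) < v (2 : L) := by
        rw [v2, map_mul]
        refine m2l h (vadd (vadd ?_ hx) (by rw [map_one]))
        rw [map_pow]
        exact pow_le_one₀ zero_le hx
      rw [e, Valuation.map_add_eq_of_lt_left v h4, v2] at hc
      exact lt_irrefl _ hc
    · exact h
  have hxe : v (x + 1) ≤ exp (-1 : ℤ) := lt_one_iff.1 hx1
  have hcub : v (x ^ 3 + 1) ≤ exp (-2 : ℤ) := by
    have e : x ^ 3 + 1 = (x + 1) ^ 3 - 3 * (x + 1) ^ 2 + 3 * (x + 1) := by ring
    rw [e]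
    refine vadd (vsub ?_ ?_) ?_
    · exact vle (vpow hxe 3) (by norm_num)
    · exact vle (vmul v3e (vpow hxe 2)) (by norm_num)
    · exact vle (vmul v3e hxe) (by norm_num)
  have hfin : v (2 * (θ * m)) ≤ exp (-2 : ℤ) := by
    have e : 2 * (θ * m) = (4 * (x ^ 3 + 1) + 2 * (θ * m)) - 4 * (x ^ 3 + 1) := by ring
    rw [e]
    refine vsub hq ?_
    rw [map_mul, v4, one_mul]
    exact hcub
  rw [map_mul, v2, one_mul, vθm, exp_le_exp] at hfin
  norm_num at hfin

/-! ### The primes dividing `D` -/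

section td

variable {L : Type} [Field L] {v : Valuation L ℤᵐ⁰} {D : L}

/-- the heart of the matter at the primes dividing `D` -/
theorem trans_val2 {m : ℤ} (hm : m = 1 ∨ m = 2) {x y : L} (hd : v D = exp (-m : ℤ)) (hx : x ≠ 0)
    (hxl : v x < 1)
    (he : y ^ 2 + D * y = x ^ 3) : 1 ≤ v (D * (y + D) / x ^ 2) ∨ 1 ≤ v (D * y / x ^ 2) := by
  have hD0 : D ≠ 0 := by
    rintro rfl
    rw [map_zero] at hd
    exact exp_ne_zero hd.symm
  have he' : y * (y + D) = x ^ 3 := by rw [← he]; ring
  have hx3 : x ^ 3 ≠ 0 := pow_ne_zero 3 hx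
  have hy : y ≠ 0 := by
    rintro rfl
    apply hx3
    rw [← he', zero_mul]
  have hyd : y + D ≠ 0 := by
    intro h
    apply hx3
    rw [← he', h, mul_zero]
  have hx2 : x ^ 2 ≠ 0 := pow_ne_zero 2 hx
  have nz : ∀ {z : L}, z ≠ 0 → v z ≠ 0 := fun h => (Valuation.ne_zero_iff v).2 h
  have g1 : ∀ {z : L}, z ≠ 0 → (1 ≤ v z ↔ 0 ≤ log (v z)) := by
    intro z hz
    rw [← log_one, log_le_log one_ne_zero (nz hz)]
  have vx : log (v x) < 0 := by
    rw [← log_one, log_lt_log (nz hx) one_ne_zero]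
    exact hxl
  have vD : log (v D) = -m := by rw [hd, log_exp]
  have v1 : log (v y) + log (v (y + D)) = 3 * log (v x) := by
    rw [← log_mul (nz hy) (nz hyd), ← map_mul, he', map_pow, log_pow, nsmul_eq_mul]
    norm_num
  have v2 : log (v (D * (y + D) / x ^ 2)) = -m + log (v (y + D)) - 2 * log (v x) := by
    rw [div_eq_mul_inv, map_mul, map_mul, map_inv₀, map_pow,
      log_mul (mul_ne_zero (nz hD0) (nz hyd)) (inv_ne_zero (pow_ne_zero 2 (nz hx))),
      log_mul (nz hD0) (nz hyd), log_inv, log_pow, vD, nsmul_eq_mul]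
    push_cast
    ring
  have v3 : log (v (D * y / x ^ 2)) = -m + log (v y) - 2 * log (v x) := by
    rw [div_eq_mul_inv, map_mul, map_mul, map_inv₀, map_pow,
      log_mul (mul_ne_zero (nz hD0) (nz hy)) (inv_ne_zero (pow_ne_zero 2 (nz hx))),
      log_mul (nz hD0) (nz hy), log_inv, log_pow, vD, nsmul_eq_mul]
    push_cast
    ring
  have la : ∀ {a b : L}, a ≠ 0 → b ≠ 0 → a + b ≠ 0 →
      log (v (a + b)) ≤ log (v a) ∨ log (v (a + b)) ≤ log (v b) := by
    intro a b ha hb hab
    have h := v.map_add a b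
    rcases le_max_iff.1 h with h1 | h1
    · exact Or.inl ((log_le_log (nz hab) (nz ha)).2 h1)
    · exact Or.inr ((log_le_log (nz hab) (nz hb)).2 h1)
  have u1 := la hy hD0 hyd
  have u2 : log (v y) ≤ log (v (y + D)) ∨ log (v y) ≤ log (v D) := by
    have e : (y + D) + -D = y := by ring
    have h := la hyd (neg_ne_zero.2 hD0) (by rw [e]; exact hy)
    rwa [e, Valuation.map_neg] at h
  have u3 : log (v D) ≤ log (v (y + D)) ∨ log (v D) ≤ log (v y) := by
    have e : (y + D) + -y = D := by ring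
    have h := la hyd (neg_ne_zero.2 hy) (by rw [e]; exact hD0)
    rwa [e, Valuation.map_neg] at h
  rw [g1 (div_ne_zero (mul_ne_zero hD0 hyd) hx2), g1 (div_ne_zero (mul_ne_zero hD0 hy) hx2),
    v2, v3]
  rw [vD] at u1 u2 u3
  omega

end td

open WeierstrassCurve.Affine (Point) in
/-- the index at the primes dividing `D` -/
theorem td2 (L : Type) [Field L] (v : Valuation L ℤᵐ⁰) (D : L) (h3 : v 3 = 1) {m : ℤ}
    (hm : m = 1 ∨ m = 2) (hvD : v D = exp (-m : ℤ)) (H : AddSubgroup (ED D).toAffine.Point)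
    (hH : ∀ P, P ∈ H ↔ NonsingRed v (ED D) P) : H.index = 3 := by
  have hD0 : D ≠ 0 := by
    rintro rfl
    rw [map_zero] at hvD
    exact exp_ne_zero hvD.symm
  have hD1 : v D < 1 := by
    rw [hvD]
    refine lt_one_iff.2 (exp_le_exp.2 ?_)
    omega
  have h2 : v (2 : L) ≤ 1 := by
    have : (2 : L) = 3 - 1 := by norm_num
    rw [this]
    exact vsub h3.le (by rw [map_one])
  have hmem : ∀ {P : (ED D).toAffine.Point} {x y : L}, At P x y → (P ∉ H ↔ v x < 1) := by
    intro P x y h
    rw [not_mem_iff hH h]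
    have he := h.eqn
    constructor
    · rintro ⟨-, h4⟩
      rw [map_mul, h3, one_mul, map_pow] at h4
      by_contra hc
      exact absurd h4 (not_lt.2 (one_le_pow₀ (not_lt.1 hc)))
    · intro hx
      have hy : v y < 1 := by
        by_contra hc
        rw [not_lt] at hc
        have h4 : v (D * y) < v (y ^ 2) := by
          rw [map_mul, map_pow, sq]
          have h5 : v y ≠ 0 := fun h0 => by rw [h0] at hc; exact absurd hc (by simp)
          exact mul_lt_mul_of_pos_right (hD1.trans_le hc) (zero_lt_iff.2 h5)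
        have h5 := Valuation.map_add_eq_of_lt_right v h4
        rw [add_comm, he, map_pow, map_pow] at h5
        have h6 : v x ^ 3 < 1 := pow_lt_one₀ zero_le hx (by norm_num)
        rw [h5] at h6
        exact absurd h6 (not_lt.2 (one_le_pow₀ hc))
      refine ⟨vaddl ?_ hD1, ?_⟩
      · rw [map_mul]
        exact m1l h2 hy
      · rw [map_mul, h3, one_mul, map_pow]
        exact pow_lt_one₀ zero_le hx (by norm_num)
  obtain ⟨T, hT⟩ := exists_T (D := D) hD0
  have hTn := hT.neg
  have hTT := T_add_T hD0 hT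
  refine index_of_gen _ T 3 Nat.prime_three ?_ ?_ ?_
  · rw [hmem hT, map_zero]
    exact zero_lt_one
  · have : 3 • T = T + T + T := by abel
    rw [this, hTT, neg_add_cancel]
    exact zero_mem _
  · intro P
    by_cases hP : P ∈ H
    · exact ⟨0, by simpa using hP⟩
    obtain ⟨x, y, hA⟩ := not_mem_at hP
    have hx := (hmem hA).1 hP
    by_cases hx0 : x = 0
    · subst hx0
      have e1 : y * (y + D) = 0 := by
        have := hA.eqn
        linear_combination this
      rcases mul_eq_zero.1 e1 with h | h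
      · rw [h] at hA
        refine ⟨1, ?_⟩
        rw [one_zsmul, hA.ext hT, sub_self]
        exact zero_mem _
      · have h4 : y = -0 - D := by linear_combination h
        rw [h4] at hA
        refine ⟨-1, ?_⟩
        rw [neg_one_zsmul, hA.ext hTn, sub_self]
        exact zero_mem _
    · have hx2 : x ^ 2 ≠ 0 := pow_ne_zero 2 hx0
      have he := hA.eqn
      rcases trans_val2 hm hvD hx0 hx he with h | h
      · refine ⟨1, ?_⟩
        rw [one_zsmul, sub_eq_add_neg]
        obtain ⟨y3, h3'⟩ := hA.add hTn hx0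
        by_contra hc
        rw [hmem h3', ← not_le] at hc
        apply hc
        have e : ((y - (-0 - D)) / (x - 0)) ^ 2 - x - 0 = D * (y + D) / x ^ 2 := by
          rw [sub_zero, sub_zero, div_pow, eq_div_iff hx2, sub_mul, div_mul_cancel₀ _ hx2]
          linear_combination he
        rw [e]
        exact h
      · refine ⟨-1, ?_⟩
        rw [neg_one_zsmul, sub_neg_eq_add]
        obtain ⟨y3, h3'⟩ := hA.add hT hx0
        by_contra hc
        rw [hmem h3', ← not_le] at hc
        apply hc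
        have e : ((y - 0) / (x - 0)) ^ 2 - x - 0 = -(D * y / x ^ 2) := by
          rw [sub_zero, sub_zero, sub_zero, div_pow, ← neg_div, eq_div_iff hx2, sub_mul,
            div_mul_cancel₀ _ hx2]
          linear_combination he
        rw [e, Valuation.map_neg]
        exact h

variable {J : Type} [Fintype J] {π : J → Ei} {e : J → ZMod 3} {κ : ZMod 3}

lemma unit_one_add : ¬ te ∣ (1 + w) ∧ ¬ te ∣ (1 + w) * (1 + w) := by
  have h1 : IsUnit (1 + w : Ei) := by
    refine IsUnit.of_mul_eq_one (-w) ?_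
    decide
  exact ⟨fun h => te_prime.not_isUnit (isUnit_of_dvd_unit h h1),
    fun h => te_prime.not_isUnit (isUnit_of_dvd_unit h (h1.mul h1))⟩

/-- the form of `D` modulo three -/
lemma form (hD : Dt π e) (hκ : κ ≠ 0) :
    ∃ m : Ei, pD2 π e κ = 1 + te * m ∧ ¬ te ∣ m := by
  obtain ⟨t, ht⟩ := (pD_prim hD).1
  have ht' : pD π e = 1 + 3 * t := by linear_combination ht
  have h3 : (3 : Ei) = -te ^ 2 := by rw [te_sq, neg_neg]
  have hκ' : κ = 1 ∨ κ = 2 := by
    revert hκ
    generalize κ = c
    revert c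
    decide
  rcases hκ' with rfl | rfl
  · refine ⟨(1 + w) - te * (w * t), ?_, ?_⟩
    · unfold pD2
      have h1 : (1 : ZMod 3).val = 1 := rfl
      have h2 : (w : Ei) = 1 + te * (1 + w) := by decide
      rw [h1, pow_one, ht', h3]
      linear_combination h2
    · intro h
      have h4 := dvd_add h (dvd_mul_right te (w * t))
      rw [sub_add_cancel] at h4
      exact unit_one_add.1 h4
  · refine ⟨(1 + w) * (1 + w) - te * (w ^ 2 * t), ?_, ?_⟩
    · unfold pD2
      have h1 : (2 : ZMod 3).val = 2 := rfl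
      have h2 : (w : Ei) ^ 2 = 1 + te * ((1 + w) * (1 + w)) := by decide
      rw [h1, ht', h3]
      linear_combination h2
    · intro h
      have h4 := dvd_add h (dvd_mul_right te (w ^ 2 * t))
      rw [sub_add_cancel] at h4
      exact unit_one_add.2 h4

lemma unit_wpow (n : ℕ) : IsUnit ((w : Ei) ^ n) := by
  refine IsUnit.pow n (IsUnit.of_mul_eq_one (w ^ 2) ?_)
  decide

open Pool.Agent.Y715.T.Gi (CF) in
lemma cf2 (hD : Dt π e) : CF (pD2 π e κ) := by
  have h : CF (pD π e) := Pool.Agent.Y48.CT.SEL.cf_prod hD e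
  unfold pD2
  exact ⟨mul_ne_zero (unit_wpow _).ne_zero h.1, fun d hd =>
    h.2 d ((IsUnit.dvd_mul_left (unit_wpow _)).1 hd)⟩

variable {K : Type} [Field K] [NumberField K] (j : Ei ≃+* 𝓞 K)

lemma iv_w (v : HeightOneSpectrum (𝓞 K)) (n : ℕ) : v.intValuation (j (w ^ n)) = 1 := by
  rw [HeightOneSpectrum.intValuation_eq_one_iff]
  intro h
  exact v.isPrime.ne_top (Ideal.eq_top_of_isUnit_mem _ h ((unit_wpow n).map j))

lemma val_D_one2 {v : HeightOneSpectrum (𝓞 K)} (h : ∀ i, j (π i) ∉ v.asIdeal) :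
    Valued.v (algebraMap K (v.adicCompletion K) ((j (pD2 π e κ) : 𝓞 K) : K)) = 1 := by
  rw [val_eq]
  unfold pD2
  unfold pD
  rw [map_mul, map_mul, iv_w, one_mul, map_prod, map_prod]
  refine Finset.prod_eq_one fun i _ => ?_
  rw [map_pow, map_pow, HeightOneSpectrum.intValuation_eq_one_iff.2 (h i), one_pow]

lemma val_D_exp2 (hD : Dt π e) (i : J) :
    Valued.v (algebraMap K ((pl j (hD.pq i).prime).adicCompletion K)
      ((j (pD2 π e κ) : 𝓞 K) : K)) = exp (-((e i).val : ℤ)) := by
  rw [val_eq]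
  unfold pD2 pD
  rw [map_mul, map_mul, iv_w, one_mul, map_prod, map_prod, Finset.prod_eq_single i, map_pow,
    map_pow, pl_val, ← exp_nsmul]
  · congr 1
    simp
  · intro k _ hk
    have h1 : (pl j (hD.pq i).prime).intValuation (j (π k)) = 1 := by
      rw [HeightOneSpectrum.intValuation_eq_one_iff, mem_pl]
      exact hD.nd k i hk
    rw [map_pow, map_pow, h1, one_pow]
  · intro h
    exact absurd (Finset.mem_univ i) h

lemma pl_three2 (hD : Dt π e) (i : J) : j 3 ∉ (pl j (hD.pq i).prime).asIdeal := by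
  rw [mem_pl]
  exact (hD.pq i).norm

lemma pl_inj2 (hD : Dt π e) : Function.Injective fun i => pl j (hD.pq i).prime := by
  intro a b h
  by_contra hab
  have h1 : j (π a) ∈ (pl j (hD.pq b).prime).asIdeal := by
    have h2 : pl j (hD.pq a).prime = pl j (hD.pq b).prime := h
    rw [← h2, mem_pl]
  rw [mem_pl] at h1
  exact hD.nd a b hab h1

/-- the Tamagawa numbers -/
theorem tam2 (hD : Dt π e) (hκ : κ ≠ 0) :
    ∃ c : HeightOneSpectrum (𝓞 K) → ℕ, IsTam (ED (j (pD2 π e κ) : K)) c ∧
      ∏ᶠ w, c w = 3 ^ Fintype.card J := by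
  obtain ⟨m, hm, hm0⟩ := form hD hκ
  have hcf := cf2 (κ := κ) hD
  have hD0 : pD2 π e κ ≠ 0 := hcf.1
  have hjD0 : ((j (pD2 π e κ) : 𝓞 K) : K) ≠ 0 := by
    intro h
    have h1 : j (pD2 π e κ) = 0 := by
      apply RingOfIntegers.ext
      exact h
    exact hD0 ((map_eq_zero_iff j j.injective).1 h1)
  have hte : ¬ te ∣ pD2 π e κ := by
    rw [hm]
    intro h
    have h1 := dvd_sub h (dvd_mul_right te m)
    rw [add_sub_cancel_right] at h1
    exact te_prime.not_isUnit (isUnit_of_dvd_one h1)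
  have hsub : ∀ v : HeightOneSpectrum (𝓞 K), ∃ H : AddSubgroup
      ((ED (j (pD2 π e κ) : K)).baseChange (v.adicCompletion K)).toAffine.Point,
      ∀ P, P ∈ H ↔ NonsingRed Valued.v
        ((ED (j (pD2 π e κ) : K)).baseChange (v.adicCompletion K)) P := by
    intro v
    apply sub_ex Pool.Agent.Y891.CTK.e0k Valued.v (bc_ED _)
    · have h1 : (27 : v.adicCompletion K) * (algebraMap K (v.adicCompletion K)
          ((j (pD2 π e κ) : 𝓞 K) : K)) ^ 4 = algebraMap K (v.adicCompletion K)
          (27 * ((j (pD2 π e κ) : 𝓞 K) : K) ^ 4) := by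
        rw [map_mul, map_pow, map_ofNat]
      rw [h1, map_ne_zero]
      exact mul_ne_zero (by norm_num) (pow_ne_zero _ hjD0)
    · rw [val_eq]
      exact v.intValuation_le_one _
  choose H hH using hsub
  -- the indices
  have hA : (H (pl j te_prime)).index = 1 := by
    have hall : ∀ P : (ED (algebraMap K ((pl j te_prime).adicCompletion K)
        ((j (pD2 π e κ) : 𝓞 K) : K))).toAffine.Point,
        NonsingRed Valued.v (ED (algebraMap K ((pl j te_prime).adicCompletion K)
        ((j (pD2 π e κ) : 𝓞 K) : K))) P := by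
      refine nsr_all Valued.v _
        (algebraMap K ((pl j te_prime).adicCompletion K) ((j te : 𝓞 K) : K))
        (algebraMap K ((pl j te_prime).adicCompletion K) ((j m : 𝓞 K) : K)) ?_ ?_ ?_ ?_ (res j)
      · have h1 : ((j te : 𝓞 K) : K) ^ 2 = -3 := by
          have h2 : (j te) ^ 2 = -3 := by rw [← map_pow, te_sq, map_neg, map_ofNat]
          have h3 := congrArg (algebraMap (𝓞 K) K) h2
          rw [map_pow, map_neg, map_ofNat] at h3
          exact h3
        rw [← map_pow, h1, map_neg, map_ofNat]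
      · rw [val_eq, pl_val]
      · have h1 : ((j (pD2 π e κ) : 𝓞 K) : K) =
            1 + ((j te : 𝓞 K) : K) * ((j m : 𝓞 K) : K) := by
          have h2 : j (pD2 π e κ) = 1 + j te * j m := by
            rw [hm, map_add, map_mul, map_one]
          have h3 := congrArg (algebraMap (𝓞 K) K) h2
          rw [map_add, map_mul, map_one] at h3
          exact h3
        rw [h1, map_add, map_mul, map_one]
      · apply val_one
        rw [mem_pl]
        exact hm0
    rw [AddSubgroup.index_eq_one, eq_top_iff]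
    intro P _
    rw [hH]
    have hbc := bc_ED (L := (pl j te_prime).adicCompletion K)
      ((j (pD2 π e κ) : 𝓞 K) : K)
    revert P
    rw [hbc]
    exact fun P => fun _ => hall P
  have hB : ∀ i, (H (pl j (hD.pq i).prime)).index = 3 := by
    intro i
    have h3v : Valued.v (3 : (pl j (hD.pq i).prime).adicCompletion K) = 1 := by
      rw [three_eq j]
      exact val_one _ (pl_three2 j hD i)
    have hm : ((e i).val : ℤ) = 1 ∨ ((e i).val : ℤ) = 2 := by
      have h6 : (e i).val < 3 := ZMod.val_lt _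
      have h7 : (e i).val ≠ 0 := by
        intro h8
        exact hD.e0 i ((ZMod.val_eq_zero _).1 h8)
      omega
    have key : ∀ (W : WeierstrassCurve ((pl j (hD.pq i).prime).adicCompletion K))
        (hW : W = ED (algebraMap K ((pl j (hD.pq i).prime).adicCompletion K)
          ((j (pD2 π e κ) : 𝓞 K) : K))) (G : AddSubgroup W.toAffine.Point),
        (∀ P, P ∈ G ↔ NonsingRed Valued.v W P) → G.index = 3 := by
      rintro W rfl G hG
      exact td2 _ Valued.v _ h3v hm (val_D_exp2 j hD i) G hG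
    exact key _ (bc_ED _) _ (hH _)
  have hC : ∀ v : HeightOneSpectrum (𝓞 K), j 3 ∉ v.asIdeal → (∀ i, j (π i) ∉ v.asIdeal) →
      (H v).index = 1 := by
    intro v h3 hi
    refine idx_one tg Valued.v (bc_ED _) ?_ ?_ _ (hH _)
    · rw [three_eq j]
      exact val_one _ h3
    · exact val_D_one2 j hi
  -- the support
  have hsupp : Function.mulSupport (fun v => (H v).index) ⊆
      (((Finset.univ.image fun i => pl j (hD.pq i).prime) :
        Finset (HeightOneSpectrum (𝓞 K))) : Set (HeightOneSpectrum (𝓞 K))) := by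
    intro v hv
    rw [Function.mem_mulSupport] at hv
    by_contra hcon
    apply hv
    rw [Finset.mem_coe, Finset.mem_image] at hcon
    by_cases h3 : j 3 ∈ v.asIdeal
    · rw [three_mem j h3]
      exact hA
    · refine hC v h3 fun i hi => hcon ⟨i, Finset.mem_univ _, ?_⟩
      exact (eq_pl j (hD.pq i).prime hi).symm
  refine ⟨fun v => (H v).index, ⟨fun v => ⟨Min2.mink2 K j _ hte hcf v, H v, hH v, rfl⟩, ?_⟩, ?_⟩
  · exact (Finset.finite_toSet _).subset hsupp
  · rw [finprod_eq_prod_of_mulSupport_subset _ hsupp, Finset.prod_image]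
    · rw [Finset.prod_congr rfl fun i _ => hB i, Finset.prod_const, Finset.card_univ]
    · intro a _ b _ h
      exact pl_inj2 j hD h

end Pool.Agent.Helper68.C2.Tam2
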