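import Pool.Graph.R_seed8.Y696.CTK.Asm

/-!
# Statements: the cubic twists `y² + D y = x³` over `ℚ(ω)` with `D` congruent to a primitive cube
root of unity modulo three
-/

set_option autoImplicit false

open scoped Classical

namespace Pool.Agent.Helper68.C2

open NumberField
open Pool.Agent.Y696.CTK (Tri)

section
variable {K : Type} [Field K] [NumberField K]

/-- the cube-free elements congruent to a primitive cube root of unity modulo three -/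
def ClsW (D : 𝓞 K) : Prop :=
  (∃ ω : 𝓞 K, ω ^ 2 + ω + 1 = 0 ∧ (3 : 𝓞 K) ∣ D - ω) ∧ ∀ x : 𝓞 K, x ^ 3 ∣ D → IsUnit x

/-- the only solution of the linear system `∑ i, e i * χ j i * (v i - v j) = ν j * v j` over the
field with three elements is zero -/
def LapW {n : ℕ} (e : Fin n → ℕ) (χ : Fin n → Fin n → ZMod 3) (ν : Fin n → ZMod 3) : Prop :=
  ∀ v : Fin n → ZMod 3, (∀ j, ∑ i, (e i : ZMod 3) * χ j i * (v i - v j) = ν j * v j) →
    ∀ j, v j = 0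

/-- `D = ω ∏ π_i ^ e_i` with different primary primes `π_i` and `e_i ∈ {1, 2}`,
`(π_i / π_j)_3 = ω ^ χ j i` and `(ω / π_j)_3 = ω ^ ν j` -/
def IsFactW (ω D : 𝓞 K) (n : ℕ) (π : Fin n → 𝓞 K) (e : Fin n → ℕ) (χ : Fin n → Fin n → ZMod 3)
    (ν : Fin n → ZMod 3) : Prop :=
  ω ^ 2 + ω + 1 = 0 ∧ (∀ i, Prime (π i) ∧ (3 : 𝓞 K) ∣ π i - 1) ∧ Function.Injective π ∧
  (∀ i, e i = 1 ∨ e i = 2) ∧ D = ω * ∏ i, π i ^ e i ∧
  (∀ i j, i ≠ j →
    π j ∣ π i ^ (((Algebra.norm ℤ (π j)).natAbs - 1) / 3) - ω ^ (χ j i).val) ∧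
  ∀ j, ν j = ((((Algebra.norm ℤ (π j)).natAbs - 1) / 3 : ℕ) : ZMod 3)

/-- the criterion: `D` has such a factorization, and for each of them `Tri D` holds exactly when the
linear system is nonsingular -/
def CritW (D : 𝓞 K) : Prop :=
  (∃ (ω : 𝓞 K) (n : ℕ) (π : Fin n → 𝓞 K) (e : Fin n → ℕ) (χ : Fin n → Fin n → ZMod 3)
    (ν : Fin n → ZMod 3), IsFactW ω D n π e χ ν) ∧
  ∀ (ω : 𝓞 K) (n : ℕ) (π : Fin n → 𝓞 K) (e : Fin n → ℕ) (χ : Fin n → Fin n → ZMod 3)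
    (ν : Fin n → ZMod 3), IsFactW ω D n π e χ ν → (Tri D ↔ LapW e χ ν)

end

end Pool.Agent.Helper68.C2
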