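import Pool.Agent.Helper68.C2.Asm2
import Pool.Agent.Helper68.C2.Stm

/-!
# The factorization and the criterion
-/

set_option autoImplicit false
set_option linter.unusedVariables false
set_option linter.unusedSectionVars false

open scoped Classical

namespace Pool.Agent.Helper68.C2.Fact2

open NumberField IsDedekindDomain WeierstrassCurve WithZero
open Pool.Agent.Y692.QS
open Pool.Agent.Y715.T.Rs
open Pool.Agent.Y715.T.Rec (cs nn)
open Pool.Agent.Y703.CT
open Pool.Agent.Y715.T.RecG (Pq)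
open Pool.Agent.Y274.CT
open Pool.Agent.Y696.CTK
open Pool.Agent.Helper68.C2
open Pool.Agent.Helper68.C2.Chr (tq tq_prim)
open Pool.Agent.Y715.T.Gi (CF)

/-- the factorization of the cube-free elements that are one modulo three -/
theorem ge3 (D : Ei) (h3 : (3 : Ei) ∣ D - 1) (hcf : CF D) :
    ∃ (n : ℕ) (π : Fin n → Ei) (e : Fin n → ZMod 3), Dt π e ∧ D = pD π e := by
  have hD0 : D ≠ 0 := hcf.1
  obtain ⟨f, hf, hfD⟩ := UniqueFactorizationMonoid.exists_prime_factors D hD0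
  have hf3 : ∀ b ∈ f, ¬ b ∣ 3 := by
    intro b hb hb3
    have h1 : b ∣ D := (Multiset.dvd_prod hb).trans hfD.dvd
    have h2 : b ∣ 1 := by
      have := dvd_sub h1 (hb3.trans h3)
      rwa [sub_sub_cancel] at this
    exact (hf b hb).not_isUnit (isUnit_of_dvd_one h2)
  obtain ⟨s, hs⟩ : ∃ s, s = f.map ns := ⟨_, rfl⟩
  have hsprod : s.prod = D := by
    have h1 : ns f.prod = s.prod := by
      rw [hs]
      have := map_multiset_prod nsH f
      exact this
    obtain ⟨u, hu⟩ := hfD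
    have h2 : ns D = ns f.prod := by rw [← hu, ns_mul, ns_unit u.isUnit, mul_one]
    rw [← h1, ← h2]
    exact ns_fix h3
  have hspq : ∀ a ∈ s, Pq a := by
    intro a ha
    rw [hs, Multiset.mem_map] at ha
    obtain ⟨b, hb, rfl⟩ := ha
    exact pq_ns (hf b hb) (hf3 b hb)
  obtain ⟨S, hS⟩ : ∃ S : Finset Ei, S = s.toFinset := ⟨_, rfl⟩
  have hmem : ∀ a, a ∈ S ↔ a ∈ s := by
    intro a
    rw [hS, Multiset.mem_toFinset]
  have hSprod : ∏ a ∈ S, a ^ s.count a = D := by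
    rw [← hsprod, hS, Finset.prod_multiset_count]
  have hSpq : ∀ a ∈ S, Pq a := fun a ha => hspq a ((hmem a).1 ha)
  have hcnt : ∀ a ∈ S, s.count a < 3 := by
    intro a ha
    by_contra hcon
    push Not at hcon
    have h1 : a ^ 3 ∣ D := by
      rw [← hSprod]
      exact (pow_dvd_pow a hcon).trans (Finset.dvd_prod_of_mem (fun a => a ^ s.count a) ha)
    exact (hSpq a ha).prime.not_isUnit (hcf.2 a h1)
  have hcnt0 : ∀ a ∈ S, s.count a ≠ 0 := fun a ha =>
    Multiset.count_ne_zero.2 ((hmem a).1 ha)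
  obtain ⟨ϕ⟩ : Nonempty (Fin S.card ≃ S) := ⟨(S.equivFinOfCardEq rfl).symm⟩
  have hval : ∀ i : Fin S.card, ((s.count (ϕ i).1 : ℕ) : ZMod 3).val = s.count (ϕ i).1 := by
    intro i
    rw [ZMod.val_natCast, Nat.mod_eq_of_lt (hcnt _ (ϕ i).2)]
  refine ⟨S.card, fun i => (ϕ i).1, fun i => ((s.count (ϕ i).1 : ℕ) : ZMod 3), ?_, ?_⟩
  · refine ⟨fun j => hSpq _ (ϕ j).2, fun i j hij hd => ?_, fun j hj => ?_⟩
    · have := eq_of_dvd (hSpq _ (ϕ i).2) (hSpq _ (ϕ j).2) hd
      exact hij (ϕ.injective (Subtype.ext this.symm))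
    · have h1 := hval j
      rw [hj, ZMod.val_zero] at h1
      exact hcnt0 _ (ϕ j).2 h1.symm
  · unfold pD
    simp only [hval]
    rw [← hSprod, ← Finset.prod_coe_sort S (fun a => a ^ s.count a)]
    exact (Equiv.prod_comp ϕ (fun a : S => (a : Ei) ^ s.count (a : Ei))).symm

/-- the factorization of the class -/
theorem ge4 (D : Ei) (κ : ZMod 3) (h3 : (3 : Ei) ∣ D - w ^ κ.val) (hcf : CF D) :
    ∃ (n : ℕ) (π : Fin n → Ei) (e : Fin n → ZMod 3), Dt π e ∧ D = pD2 π e κ := by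
  have hww : (w : Ei) ^ κ.val * w ^ (-κ).val = 1 := by
    clear h3
    revert κ
    decide
  obtain ⟨n, π, e, hD, h⟩ := ge3 (w ^ (-κ).val * D) (by
    obtain ⟨t, ht⟩ := h3
    refine ⟨w ^ (-κ).val * t, ?_⟩
    linear_combination (w ^ (-κ).val) * ht + hww) (by
    exact ⟨mul_ne_zero (LK2.w_unit.pow _).ne_zero hcf.1, fun x hx =>
      hcf.2 x ((IsUnit.dvd_mul_left (LK2.w_unit.pow _)).1 hx)⟩)
  refine ⟨n, π, e, hD, ?_⟩
  unfold pD2
  rw [← h, ← mul_assoc, hww, one_mul]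

section
variable {K : Type} [Field K] [NumberField K] (j : Ei ≃+* 𝓞 K)

lemma root_cases {ω : 𝓞 K} (hω : ω ^ 2 + ω + 1 = 0) : ω = j w ∨ ω = j (w ^ 2) := by
  have hww : (w : Ei) ^ 2 + w + 1 = 0 := by decide
  have hfac : (ω - j w) * (ω - j (w ^ 2)) = 0 := by
    have e1 : (w : Ei) ^ 2 = -w - 1 := by linear_combination hww
    rw [e1, map_sub, map_neg, map_one]
    have e2 : (j w) ^ 2 + j w + 1 = 0 := by
      rw [← map_pow, ← map_one j, ← map_add, ← map_add, hww, map_zero]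
    linear_combination hω - e2
  rcases mul_eq_zero.1 hfac with h4 | h4
  · exact Or.inl (sub_eq_zero.1 h4)
  · exact Or.inr (sub_eq_zero.1 h4)

/-- the exponent of the root of unity -/
lemma root_pow {ω : 𝓞 K} (hω : ω ^ 2 + ω + 1 = 0) : ∃ κ : ZMod 3, κ ≠ 0 ∧ ω = j (w ^ κ.val) := by
  rcases root_cases j hω with h | h
  · exact ⟨1, one_ne_zero, by rw [h]; rfl⟩
  · exact ⟨2, by decide, h⟩

lemma cf_symm {D : 𝓞 K} (h : ∀ x : 𝓞 K, x ^ 3 ∣ D → IsUnit x) : CF (j.symm D) := by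
  refine ⟨fun h0 => ?_, fun x hx => ?_⟩
  · have h1 : D = 0 := by
      apply j.symm.injective
      rw [h0, map_zero]
    have h2 := h 0 (by rw [h1]; exact dvd_zero _)
    exact not_isUnit_zero h2
  · refine (MulEquiv.isUnit_map j).1 (h (j x) ?_)
    rw [← map_pow]
    have h1 := map_dvd j hx
    rwa [RingEquiv.apply_symm_apply] at h1

/-- the exponents of the factorization -/
lemma nn_eq (hj : ∀ z : Ei, Algebra.norm ℤ (j z) = nr z) (p : 𝓞 K) :
    nn (j.symm p) = ((Algebra.norm ℤ p).natAbs - 1) / 3 := by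
  unfold nn
  rw [← hj, RingEquiv.apply_symm_apply]

lemma tq_nn {α : Ei} (hα : Pq α) : tq α = ((nn α : ℕ) : ZMod 3) := by
  unfold nn tq
  have h3 := LK2.nr_three (Pool.Agent.Y696.CT.ep_ndvd hα.three)
  have h0 := nr_nonneg α
  obtain ⟨c, hc⟩ := h3
  have h4 : nr α = 1 + 3 * c := by linarith
  have hc0 : 0 ≤ c := by omega
  obtain ⟨m, rfl⟩ := Int.eq_ofNat_of_zero_le hc0
  have h5 : (nr α).natAbs = 1 + 3 * m := by
    rw [h4]
    omega
  rw [h5, h4]
  have e1 : (1 + 3 * m - 1) / 3 = m := by omega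
  have e2 : (1 + 3 * (m : ℤ) - 1) / 3 = m := by omega
  rw [e1, e2]
  norm_cast

/-- the data of a factorization -/
lemma fact_dt2 {ω D : 𝓞 K} {n : ℕ} {π : Fin n → 𝓞 K} {e : Fin n → ℕ}
    {χ : Fin n → Fin n → ZMod 3} {ν : Fin n → ZMod 3} (h : IsFactW ω D n π e χ ν) :
    ∃ κ : ZMod 3, κ ≠ 0 ∧ ω = j (w ^ κ.val) ∧
      Dt (fun i => j.symm (π i)) (fun i => (e i : ZMod 3)) ∧
      D = j (pD2 (fun i => j.symm (π i)) (fun i => (e i : ZMod 3)) κ) := by
  obtain ⟨hω, h1, hinj, he, h2, h3, h4⟩ := h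
  obtain ⟨κ, hκ, hωκ⟩ := root_pow j hω
  refine ⟨κ, hκ, hωκ, ⟨fun i => pq_symm j (h1 i).1 (h1 i).2, fun i k hik hd => ?_, fun i => ?_⟩, ?_⟩
  · have h5 := eq_of_dvd (pq_symm j (h1 i).1 (h1 i).2) (pq_symm j (h1 k).1 (h1 k).2) hd
    exact hik (hinj (j.symm.injective h5.symm))
  · rcases he i with h5 | h5 <;> rw [h5] <;> decide
  · have hval : ∀ i, ((e i : ℕ) : ZMod 3).val = e i := by
      intro i
      rcases he i with h5 | h5 <;> rw [h5] <;> rfl
    unfold pD2 pD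
    simp only [hval]
    rw [h2, map_mul, map_prod, ← hωκ]
    congr 1
    refine Finset.prod_congr rfl fun i _ => ?_
    rw [map_pow, RingEquiv.apply_symm_apply]

/-- the criterion for a factorization -/
theorem crit (hj : ∀ z : Ei, Algebra.norm ℤ (j z) = nr z) {ω D : 𝓞 K} {n : ℕ} {π : Fin n → 𝓞 K}
    {e : Fin n → ℕ} {χ : Fin n → Fin n → ZMod 3} {ν : Fin n → ZMod 3}
    (h : IsFactW ω D n π e χ ν) : Tri D ↔ LapW e χ ν := by
  obtain ⟨κ, hκ, hωκ, hD, hDD⟩ := fact_dt2 j h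
  obtain ⟨hω, h1, hinj, he, h2, h3, h4⟩ := h
  have htri := Asm2.tri_iff j hD hκ
  rw [← hDD] at htri
  rw [htri]
  have hcs : ∀ i k, i ≠ k → cs (j.symm (π k)) (j.symm (π i)) = κ * χ k i := by
    intro i k hik
    have hpq := pq_symm j (h1 k).1 (h1 k).2
    apply Pool.Agent.Y715.T.RecG.cs_of hpq.prime hpq.norm
    have h5 := map_dvd j.symm (h3 i k hik)
    rw [hωκ, map_sub, map_pow, map_pow, RingEquiv.symm_apply_apply, ← nn_eq j hj] at h5
    have h6 : ((w : Ei) ^ κ.val) ^ (χ k i).val = w ^ (κ * χ k i).val := by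
      generalize χ k i = c
      clear h5 htri hDD hωκ
      revert c
      revert κ
      decide
    rwa [h6] at h5
  have hrq : ∀ k, -(κ * rq (j.symm (π k))) = κ * ν k := by
    intro k
    have hpq := pq_symm j (h1 k).1 (h1 k).2
    rw [h4 k, ← nn_eq j hj, ← tq_nn hpq, tq_prim hpq.three]
    ring
  have key : ∀ (v : Fin n → ZMod 3) (k : Fin n),
      ∑ i, (e i : ZMod 3) * cs (j.symm (π k)) (j.symm (π i)) * (v i - v k) =
        κ * ∑ i, (e i : ZMod 3) * χ k i * (v i - v k) := by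
    intro v k
    rw [Finset.mul_sum]
    refine Finset.sum_congr rfl fun i _ => ?_
    by_cases hik : i = k
    · rw [hik, sub_self, mul_zero, mul_zero, mul_zero]
    · rw [hcs i k hik]
      ring
  unfold KerW LapW
  have h5 : ∀ (v : Fin n → ZMod 3) (k : Fin n),
      (∑ i, (e i : ZMod 3) * cs (j.symm (π k)) (j.symm (π i)) * (v i - v k) =
        -(κ * rq (j.symm (π k))) * v k) ↔
      ∑ i, (e i : ZMod 3) * χ k i * (v i - v k) = ν k * v k := by
    intro v k
    rw [key, hrq, mul_assoc]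
    exact mul_right_inj' hκ
  simp only [h5]

/-- the class in the Eisenstein integers -/
lemma cls_form {D : 𝓞 K} (hD : ClsW D) :
    ∃ (κ : ZMod 3) (n : ℕ) (π : Fin n → Ei) (e : Fin n → ZMod 3), κ ≠ 0 ∧
      Dt π e ∧ D = j (pD2 π e κ) := by
  obtain ⟨⟨ω, hω, h3⟩, hsq⟩ := hD
  obtain ⟨κ, hκ, hωκ⟩ := root_pow j hω
  obtain ⟨n, π, e, hD, h⟩ := ge4 (j.symm D) κ (by
    have h1 := map_dvd j.symm h3
    rwa [hωκ, map_sub, RingEquiv.symm_apply_apply, map_ofNat] at h1) (cf_symm j hsq)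
  exact ⟨κ, n, π, e, hκ, hD, by rw [← h, RingEquiv.apply_symm_apply]⟩

/-- there is a factorization -/
lemma fact_ex (hj : ∀ z : Ei, Algebra.norm ℤ (j z) = nr z) {D : 𝓞 K} (hD : ClsW D) :
    ∃ (ω : 𝓞 K) (n : ℕ) (π : Fin n → 𝓞 K) (e : Fin n → ℕ) (χ : Fin n → Fin n → ZMod 3)
      (ν : Fin n → ZMod 3), IsFactW ω D n π e χ ν := by
  obtain ⟨κ, n, π, e, hκ, hdt, hDD⟩ := cls_form j hD
  refine ⟨j (w ^ κ.val), n, fun i => j (π i), fun i => (e i).val,
    fun k i => κ * cs (π k) (π i),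
    fun k => ((nn (π k) : ℕ) : ZMod 3), ?_, fun i => ⟨?_, ?_⟩, ?_, ?_, ?_, ?_, ?_⟩
  · have hww : ((w : Ei) ^ κ.val) ^ 2 + w ^ κ.val + 1 = 0 := by
      clear hDD hdt
      revert κ
      decide
    rw [← map_pow, ← map_one j, ← map_add, ← map_add, hww, map_zero]
  · exact (MulEquiv.prime_iff (j : Ei ≃* 𝓞 K)).2 (hdt.pq i).prime
  · have h1 := map_dvd j (hdt.pq i).three
    rwa [map_sub, map_one, map_ofNat] at h1
  · intro i k hik
    by_contra hne
    have h1 : π i = π k := j.injective hik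
    exact hdt.nd i k hne (by rw [h1])
  · intro i
    show (e i).val = 1 ∨ (e i).val = 2
    have h6 : (e i).val < 3 := ZMod.val_lt _
    have h7 : (e i).val ≠ 0 := by
      intro h8
      exact hdt.e0 i ((ZMod.val_eq_zero _).1 h8)
    omega
  · rw [hDD]
    unfold pD2 pD
    rw [map_mul, map_prod]
    simp only [map_pow]
  · intro i k hik
    have h1 := map_dvd j (Pool.Agent.Y715.T.RecG.cs_spec (hdt.pq k).prime (hdt.pq k).norm
      (hdt.nd i k hik))
    rw [map_sub, map_pow, map_pow] at h1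
    rw [hj, map_pow]
    have h6 : ((w : Ei) ^ κ.val) ^ (κ * cs (π k) (π i)).val = w ^ (cs (π k) (π i)).val := by
      generalize cs (π k) (π i) = c
      clear hDD hdt
      revert c
      revert κ
      decide
    have h7 := congrArg j h6
    rw [map_pow, map_pow, map_pow] at h7
    rw [h7]
    exact h1
  · intro k
    rw [hj]
    rfl

end

/-- **The final statement.** -/
theorem final1 (K : Type) [Field K] [NumberField K] [IsCyclotomicExtension {3} ℚ K] :
    (∃ c : ℝ, 0 < c ∧ ∃ X₀ : ℕ, ∀ X : ℕ, X₀ ≤ X →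
      c * X ≤ ({D : 𝓞 K | Algebra.norm ℤ D ≤ X ∧ ClsW D}.ncard : ℝ)) ∧
    ∀ D : 𝓞 K, ClsW D → Law3 D ∧ CritW D := by
  obtain ⟨⟨j, hj⟩, hdisc⟩ := Pool.Agent.Y455.CTK.jex K
  refine ⟨?_, fun D hD => ⟨?_, fact_ex j hj hD, fun ω n π e χ ν h => crit j hj h⟩⟩
  · obtain ⟨⟨c, hc, X₀, h⟩, -⟩ := final K
    refine ⟨c, hc, X₀, fun X hX => (h X hX).trans ?_⟩
    have hfin : {D : 𝓞 K | Algebra.norm ℤ D ≤ X}.Finite := by
      have h1 : {D : Ei | nr D ≤ X}.Finite := by
        refine Set.Finite.subset (((Set.finite_Icc (-(2 * X : ℤ)) (2 * X)).prod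
          (Set.finite_Icc (-(2 * X : ℤ)) (2 * X))).image fun p : ℤ × ℤ => (⟨p.1, p.2⟩ : Ei)) ?_
        intro D hD
        have hD' : D.re ^ 2 - D.re * D.im + D.im ^ 2 ≤ X := hD
        have hX : (0 : ℤ) ≤ X := Int.natCast_nonneg X
        have h1 : D.re ^ 2 ≤ 2 * X := by nlinarith [sq_nonneg (D.re - 2 * D.im)]
        have h2 : D.im ^ 2 ≤ 2 * X := by nlinarith [sq_nonneg (2 * D.re - D.im)]
        have h3 : |D.re| ≤ 2 * X :=
          ((Int.natCast_natAbs D.re).symm.le.trans (Int.natAbs_le_self_sq _)).trans h1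
        have h4 : |D.im| ≤ 2 * X :=
          ((Int.natCast_natAbs D.im).symm.le.trans (Int.natAbs_le_self_sq _)).trans h2
        exact ⟨(D.re, D.im), ⟨abs_le.1 h3, abs_le.1 h4⟩, rfl⟩
      refine (h1.image j).subset ?_
      intro D hD
      refine ⟨j.symm D, ?_, j.apply_symm_apply D⟩
      show nr (j.symm D) ≤ X
      rw [← hj, RingEquiv.apply_symm_apply]
      exact hD
    have hinj : Function.Injective (fun D : 𝓞 K => j w * D) := by
      intro a b hab
      exact mul_left_cancel₀ (LK2.w_unit.map j).ne_zero hab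
    have hle : ({D : 𝓞 K | Algebra.norm ℤ D ≤ X ∧ ClsK D}).ncard ≤
        ({D : 𝓞 K | Algebra.norm ℤ D ≤ X ∧ ClsW D}).ncard := by
      rw [← Set.ncard_image_of_injective _ hinj]
      refine Set.ncard_le_ncard ?_ (hfin.subset fun D hD => hD.1)
      rintro _ ⟨D, ⟨h1, h2, h3, -⟩, rfl⟩
      have hnw : nr w = 1 := by decide
      refine ⟨?_, ⟨⟨j w, ?_, ?_⟩, ?_⟩⟩
      · show Algebra.norm ℤ (j w * D) ≤ X
        rw [map_mul, hj, hnw, one_mul]
        exact h1
      · have hww : (w : Ei) ^ 2 + w + 1 = 0 := by decide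
        rw [← map_pow, ← map_one j, ← map_add, ← map_add, hww, map_zero]
      · show (3 : 𝓞 K) ∣ j w * D - j w
        have e1 : j w * D - j w = j w * (D - 1) := by ring
        rw [e1]
        exact Dvd.dvd.mul_left h2 _
      · show ∀ x : 𝓞 K, x ^ 3 ∣ j w * D → IsUnit x
        intro x hx
        have h4 : x ^ 3 ∣ D := (IsUnit.dvd_mul_left (LK2.w_unit.map j)).1 hx
        refine h3 x (dvd_trans ?_ h4)
        exact ⟨x, by ring⟩
    exact_mod_cast hle
  · obtain ⟨κ, n, π, e, hκ, hdt, hDD⟩ := cls_form j hD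
    rw [hDD]
    exact Asm2.law_of j hdisc hdt hκ

end Pool.Agent.Helper68.C2.Fact2
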