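import Pool.Graph.R_seed8.Y715.Dist

/-!
# Regularized sums of products of two periodic functions, the sum of the second may be nonzero
-/

set_option autoImplicit false

open Filter
open scoped Topology PeriodPair

namespace Pool.Agent.Helper68.C2.SS2

open H667R3 Pool.Agent.W192.HK Pool.Agent.TH936.CM Pool.Agent.TH936.PU Pool.Agent.Y715.Dist

variable {L : PeriodPair} {R : Subring ℂ} {Ω : ℂ}

/-- bounded multiplicative functions modulo `c` -/
structure Xm (c : R) (χ : R → ℂ) : Prop where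
  per : ∀ x y : R, x - y ∈ sp c → χ x = χ y
  mul : ∀ x y : R, χ (x * y) = χ x * χ y
  bd : ∀ x : R, ‖χ x‖ ≤ 1

theorem lim_SS (hL : IsLat L R Ω) {f c : R} (hf : f ≠ 0) (hc : c ≠ 0) (hfc : IsCoprime f c)
    [Fintype (R ⧸ sp f)] [Fintype (R ⧸ sp c)] [Fintype (R ⧸ sp (f * c))] {e χ : R → ℂ} {Ef : ℂ}
    (he : Eo f e) (hχ : Xm c χ) (h0 : Tendsto (fun δ : ℝ => ∑ y : R ⧸ sp f, e y.out *
      EE R Ω δ (Ω * y.out / f)) (𝓝[>] 0) (𝓝 Ef)) :
    Tendsto (fun δ : ℝ => SS (fun α => e α * χ α) δ) (𝓝[>] 0)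
      (𝓝 (Ω / (f * c) * (e c * χ f) * ∑ x : R ⧸ sp c, χ x.out * Ph L Ω f e Ef c x.out)) := by
  have hf0 := coe_ne hf
  have hc0 := coe_ne hc
  have hfc0 : f * c ≠ 0 := mul_ne_zero hf hc
  have hΩ := hL.ne
  have hΩn : 0 < Complex.normSq Ω := Complex.normSq_pos.2 hΩ
  have hqn : 0 < Complex.normSq ((f * c : R) : ℂ) := Complex.normSq_pos.2 (coe_ne hfc0)
  set δ' : ℝ → ℝ := fun δ => δ * Complex.normSq ((f * c : R) : ℂ) / Complex.normSq Ω with hδ'
  have hδt : Tendsto δ' (𝓝[>] 0) (𝓝[>] 0) := by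
    rw [tendsto_nhdsWithin_iff]
    constructor
    · have h7 : Continuous δ' := by fun_prop
      have h8 := (h7.tendsto 0).mono_left (nhdsWithin_le_nhds (s := Set.Ioi 0))
      simpa [hδ'] using h8
    · filter_upwards [self_mem_nhdsWithin] with δ (hδ : 0 < δ)
      show 0 < δ * Complex.normSq ((f * c : R) : ℂ) / Complex.normSq Ω
      positivity
  -- the formula for positive `δ`
  have key : ∀ δ : ℝ, 0 < δ → SS (fun α => e α * χ α) δ =
      Ω / (f * c) * (e c * χ f) * ∑ x : R ⧸ sp c, χ x.out *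
        ∑ y : R ⧸ sp f, e y.out * EE R Ω (δ' δ) (Ω * y.out / f + Ω * x.out / c) := by
    intro δ hδ
    have hb : ∀ α : R, ‖e α * χ α‖ ≤ 1 := fun α => by
      rw [norm_mul]
      exact mul_le_one₀ (he.bd α) (norm_nonneg _) (hχ.bd α)
    have hperf : ∀ x y : R, x - y ∈ sp (f * c) → e x = e y := fun x y h =>
      he.per x y (by
        rw [Ideal.mem_span_singleton'] at h ⊢
        obtain ⟨b, hb⟩ := h
        exact ⟨b * c, by linear_combination hb⟩)
    have hperc : ∀ x y : R, x - y ∈ sp (f * c) → χ x = χ y := fun x y h =>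
      hχ.per x y (by
        rw [Ideal.mem_span_singleton'] at h ⊢
        obtain ⟨b, hb⟩ := h
        exact ⟨b * f, by linear_combination hb⟩)
    have hs : Summable (fun α : R => (e α * χ α) * fd δ (α : ℂ)) := by
      have h1 : Summable (fun α : R => δ⁻¹ * (‖0 + Ω * (α : ℂ)‖ ^ 3)⁻¹ * ‖Ω‖ ^ 3) :=
        ((summ3 hL 0).mul_left δ⁻¹).mul_right _
      refine Summable.of_norm_bounded h1 fun α => ?_
      rw [norm_mul]
      refine (mul_le_mul (hb α) (fd_bound δ hδ _) (norm_nonneg _) zero_le_one).trans ?_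
      rw [one_mul, zero_add, norm_mul, mul_pow, mul_inv]
      have h5 : (‖Ω‖ ^ 3)⁻¹ * ‖Ω‖ ^ 3 = 1 := inv_mul_cancel₀ (pow_ne_zero 3 (norm_ne_zero_iff.2 hΩ))
      refine le_of_eq ?_
      calc δ⁻¹ * (‖(α : ℂ)‖ ^ 3)⁻¹ = δ⁻¹ * (‖(α : ℂ)‖ ^ 3)⁻¹ * ((‖Ω‖ ^ 3)⁻¹ * ‖Ω‖ ^ 3) := by
            rw [h5, mul_one]
        _ = _ := by ring
    have h1 := sum_EEA hL (f * c) hfc0 (fun α => e α * χ α)
      (fun x y h => by rw [hperf x y h, hperc x y h]) hs
    unfold SS
    rw [h1, sum_rep _ (bij_crt hfc) (fun r : R => e r * χ r *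
      EE R Ω (δ * Complex.normSq ((f * c : R) : ℂ) / Complex.normSq Ω)
        (Ω * r / ((f * c : R) : ℂ)))]
    · rw [Fintype.sum_prod_type]
      have e1 : ∀ x : R ⧸ sp c, ∀ y : R ⧸ sp f,
          e (x.out * f + y.out * c) * χ (x.out * f + y.out * c) *
            EE R Ω (δ * Complex.normSq ((f * c : R) : ℂ) / Complex.normSq Ω)
              (Ω * ((x.out * f + y.out * c : R) : ℂ) / ((f * c : R) : ℂ)) =
          (e c * χ f) * (χ x.out * (e y.out * EE R Ω (δ' δ) (Ω * y.out / f + Ω * x.out / c))) := by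
        intro x y
        have a1 : e (x.out * f + y.out * c) = e y.out * e c := by
          rw [← he.mul]
          refine he.per _ _ ?_
          rw [add_sub_cancel_right, Ideal.mem_span_singleton']
          exact ⟨x.out, rfl⟩
        have a2 : χ (x.out * f + y.out * c) = χ x.out * χ f := by
          rw [← hχ.mul]
          refine hχ.per _ _ ?_
          rw [add_sub_cancel_left, Ideal.mem_span_singleton']
          exact ⟨y.out, rfl⟩
        have a3 : Ω * ((x.out * f + y.out * c : R) : ℂ) / ((f * c : R) : ℂ) =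
            Ω * y.out / f + Ω * x.out / c := by
          push_cast
          field_simp
          ring
        rw [a1, a2, a3]
        ring
      simp only [e1]
      simp only [← Finset.mul_sum]
      push_cast
      ring
    · intro x y hxy
      rw [hperf x y hxy, hperc x y hxy]
      congr 1
      apply EE_per hL
      have := (div_mem_iff hL hfc0 (x - y)).2 hxy
      convert this using 1
      push_cast
      ring
  refine Tendsto.congr' (f₁ := fun δ => Ω / (f * c) * (e c * χ f) * ∑ x : R ⧸ sp c, χ x.out *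
    ∑ y : R ⧸ sp f, e y.out * EE R Ω (δ' δ) (Ω * y.out / f + Ω * x.out / c)) ?_ ?_
  · filter_upwards [self_mem_nhdsWithin] with δ (hδ : 0 < δ)
    exact (key δ hδ).symm
  refine Tendsto.const_mul _ (tendsto_finsetSum _ fun x _ => ?_)
  exact ((lim_Ph hL hf hc hfc he h0 x.out).comp hδt).const_mul _

end Pool.Agent.Helper68.C2.SS2
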