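import Pool.Agent.Helper68.C2.Lim
import Pool.Agent.Helper68.C2.Comb2
import Pool.Graph.R_seed8.Y703.CT.Ana

/-!
# The `3`-adic valuation of the sums, characters modulo `3 √-3`
-/

set_option autoImplicit false
set_option linter.unusedSectionVars false

open Filter
open scoped Topology PeriodPair

namespace Pool.Agent.Helper68.C2.Ana2

open H667R3 Pool.Agent.W192.HK Pool.Agent.TH936.CM Pool.Agent.TH936.PU
open Pool.Agent.Y715.Dist Pool.Agent.Y715.Idn Pool.Agent.Y715.T.Lat Pool.Agent.Y696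
open Pool.Agent.Y715.Two (v_nat v_int v_unit v_mul_le_of)
open Pool.Agent.Y715.T.Three Pool.Agent.Y715.T.Cg Pool.Agent.Y715.T.Comb
open Pool.Agent.Y703.CT.Ana (Fy PX PX_zero PX_le sum_PX dat' om_val Fy.cc_top Fy.cop_iff)
open Pool.Agent.Helper68.C2.Chr Pool.Agent.Helper68.C2.Lim Pool.Agent.Helper68.C2.Comb2

variable {Γ : Type*} [LinearOrderedCommGroupWithZero Γ] {v : Valuation ℂ Γ}
  {L : PeriodPair} {Ω : ℂ} {κ : ZMod 3}

/-! ### the valuation of the values -/

section val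

variable (h3 : v 3 < 1)

include h3

/-- one division by `√-3` -/
lemma chain {A B : ℂ} (h : 3 * A ^ 2 * B = -(A ^ 3 + 1)) (hB : v B ≤ 1) :
    v A = 1 ∧ v (A + 1) < 1 := by
  have hle : v A ≤ 1 := by
    by_contra hcon
    push Not at hcon
    have hA0 : A ≠ 0 := by
      rintro rfl
      rw [map_zero] at hcon
      exact absurd hcon (not_lt.2 zero_le)
    have ht : v A⁻¹ < 1 := by
      rw [map_inv₀]
      exact inv_lt_one_of_one_lt₀ hcon
    have h1 : (1 : ℂ) = -((A⁻¹) ^ 3 + 3 * (A⁻¹ * B)) := by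
      field_simp
      linear_combination h
    have h2 : v (1 : ℂ) < 1 := by
      rw [h1, v.map_neg]
      refine v.map_add_lt ?_ ?_
      · rw [map_pow]
        exact pow_lt_one₀ zero_le ht three_ne_zero
      · rw [map_mul, map_mul]
        calc v 3 * (v A⁻¹ * v B) ≤ v 3 * (1 * 1) := mul_le_mul' le_rfl (mul_le_mul' ht.le hB)
          _ = v 3 := by rw [mul_one, mul_one]
          _ < 1 := h3
    rw [map_one] at h2
    exact lt_irrefl _ h2
  have h1 : v (A ^ 3 + 1) < 1 := by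
    have e : A ^ 3 + 1 = -(3 * (A ^ 2 * B)) := by linear_combination h
    rw [e, v.map_neg, map_mul, map_mul, map_pow]
    calc v 3 * (v A ^ 2 * v B) ≤ v 3 * (1 * 1) :=
          mul_le_mul' le_rfl (mul_le_mul' (pow_le_one' hle 2) hB)
      _ = v 3 := by rw [mul_one, mul_one]
      _ < 1 := h3
  have h2 : v (A + 1) < 1 := by
    have e : (A + 1) ^ 3 = (A ^ 3 + 1) + 3 * (A * (A + 1)) := by ring
    have h4 : v (A + 1) ≤ 1 := v.map_add_le hle (by rw [map_one])
    have h5 : v ((A + 1) ^ 3) < 1 := by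
      rw [e]
      refine v.map_add_lt h1 ?_
      rw [map_mul, map_mul]
      calc v 3 * (v A * v (A + 1)) ≤ v 3 * (1 * 1) := mul_le_mul' le_rfl (mul_le_mul' hle h4)
        _ = v 3 := by rw [mul_one, mul_one]
        _ < 1 := h3
    rw [map_pow] at h5
    by_contra hcon
    push Not at hcon
    exact absurd h5 (not_lt.2 (one_le_pow₀ hcon))
  refine ⟨?_, h2⟩
  have e : A = (A + 1) + (-1) := by ring
  rw [e, v.map_add_eq_of_lt_right]
  · rw [v.map_neg, map_one]
  · rw [v.map_neg, map_one]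
    exact h2

lemma sq_lam {c : ℂ} (hc : c ^ 2 = -3) : v c = v lam := by
  have h2 : v c ^ 2 = v lam ^ 2 := by
    rw [← map_pow, hc, v.map_neg, ← sq_three, ← pow_two]
  exact (pow_left_inj₀ zero_le zero_le two_ne_zero).1 h2

/-- the value -/
lemma key_f {A B y c : ℂ} (h : 3 * A ^ 2 * B = -(A ^ 3 + 1)) (hB : v (B + 1) < 1)
    (hy : y ^ 2 = 4 * A ^ 3 + 1) (hc : c ^ 2 = -3) : v (-(y + c) / (2 * A) + c) < v lam := by
  have hB1 : v B ≤ 1 := by
    have e : B = (B + 1) + (-1) := by ring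
    rw [e]
    exact v.map_add_le hB.le (by rw [v.map_neg, map_one])
  obtain ⟨hA, hA1⟩ := chain h3 h hB1
  have hA0 : A ≠ 0 := by
    rintro rfl
    rw [map_zero] at hA
    exact zero_ne_one hA
  have hl := lam_lt h3
  have hvc := sq_lam h3 hc
  have hvy : v y < v lam := by
    have e : y ^ 2 = -(3 * (1 + 4 * (A ^ 2 * B))) := by
      rw [hy]
      linear_combination 4 * h
    have h4 : v (1 + 4 * (A ^ 2 * B)) < 1 := by
      have e2 : 1 + 4 * (A ^ 2 * B) = -3 + (4 * (A ^ 2 * (B + 1)) - 4 * ((A + 1) * (A - 1))) := by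
        ring
      have h2 : v (4 : ℂ) ≤ 1 := by
        have := Pool.Agent.Y715.Two.v_nat (v := v) 4
        exact_mod_cast this
      rw [e2]
      refine v.map_add_lt (by rw [v.map_neg]; exact h3) (v.map_sub_lt ?_ ?_)
      · rw [map_mul, map_mul, map_pow, hA, one_pow, one_mul]
        calc v 4 * v (B + 1) ≤ 1 * v (B + 1) := mul_le_mul' h2 le_rfl
          _ = v (B + 1) := one_mul _
          _ < 1 := hB
      · rw [map_mul, map_mul]
        have h5 : v (A - 1) ≤ 1 := v.map_sub_le hA.le (by rw [map_one])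
        calc v 4 * (v (A + 1) * v (A - 1)) ≤ 1 * (v (A + 1) * 1) :=
              mul_le_mul' h2 (mul_le_mul' le_rfl h5)
          _ = v (A + 1) := by rw [one_mul, mul_one]
          _ < 1 := hA1
    have h5 : v y ^ 2 < v lam ^ 2 := by
      rw [← map_pow, e, v.map_neg, map_mul, ← sq_three, ← pow_two]
      calc v lam ^ 2 * v (1 + 4 * (A ^ 2 * B)) < v lam ^ 2 * 1 :=
            mul_lt_mul_of_pos_left h4 (pow_pos lam_pos 2)
        _ = v lam ^ 2 := mul_one _
    by_contra hcon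
    push Not at hcon
    exact absurd h5 (not_lt.2 (pow_le_pow_left₀ zero_le hcon 2))
  have e : -(y + c) / (2 * A) + c = (-y + c * (2 * (A + 1) - 3)) / (2 * A) := by
    field_simp
    ring
  rw [e, map_div₀, map_mul, v_two h3, hA, mul_one, div_one]
  refine v.map_add_lt (by rw [v.map_neg]; exact hvy) ?_
  rw [map_mul, hvc]
  have h6 : v (2 * (A + 1) - 3) < 1 := by
    refine v.map_sub_lt ?_ h3
    rw [map_mul, v_two h3, one_mul]
    exact hA1
  calc v lam * v (2 * (A + 1) - 3) < v lam * 1 := mul_lt_mul_of_pos_left h6 lam_pos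
    _ = v lam := mul_one _

variable (hC : Cur L Ω) (hκ : κ ≠ 0)

include hC hκ

lemma fk_near {z : ℂ} (hz2 : 2 * z ∉ L.lattice) (hl : lam * z ∉ L.lattice)
    (hB : v (℘[L] (lam * z) + 1) < 1) : v (fk L Ω κ z + cq L Ω κ) < v lam := by
  have h1 := wp_la hC hz2 hl
  have h2 := hC.ode (two_mul_notMem_of L hz2)
  exact key_f h3 h1 hB h2 (cq_sq hC hκ)

omit h3 hκ in
/-- the points -/
lemma nmem {c : eis} (hc : c ≠ 0) (hfc : IsCoprime ff c) {r : eis}
    (hr : r ∉ (sp ff : Ideal eis)) (x : eis) :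
    Ω * r / ((ff : eis) : ℂ) + Ω * x / c ∉ L.lattice := by
  by_cases hx : x ∈ sp c
  · have hm : Ω * x / c ∈ L.lattice := (div_mem_iff hC.lat hc x).2 hx
    intro h2
    apply hr
    rw [← mem_ff hC]
    have := sub_mem h2 hm
    rwa [add_sub_cancel_right] at this
  · exact (cop_notMem hC.lat ff_ne hc hfc hx).1

omit h3 hC hκ in
lemma not_ff {a b : ℤ} (h : ¬ ((3 : ℤ) ∣ a ∧ (3 : ℤ) ∣ b ∧ (9 : ℤ) ∣ a + b)) :
    ez a b ∉ (sp ff : Ideal eis) := by
  intro h1
  apply h
  obtain ⟨t, ht⟩ := Ideal.mem_span_singleton'.1 h1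
  obtain ⟨c, d, rfl⟩ := ez_ex t
  have h3 : (3 : eis) = ez 3 0 := by
    rw [ez_int]
    norm_num
  unfold ff la at ht
  rw [h3, ez_mul, ez_mul] at ht
  obtain ⟨h1, h2⟩ := ez_inj ht
  refine ⟨?_, ?_, ?_⟩
  · omega
  · omega
  · omega

omit h3 hC hκ in
lemma la_ez : la = ez 1 2 := rfl

omit h3 hC hκ in
lemma two_la_ez : 2 * la = ez 2 4 := by
  unfold la ez
  push_cast
  ring

omit h3 hC hκ in
lemma one_ff : (1 : eis) ∉ (sp ff : Ideal eis) := by
  rw [← ez_one]
  exact not_ff (by norm_num)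

omit h3 hC hκ in
lemma two_ff : (2 : eis) ∉ (sp ff : Ideal eis) := by
  have e : (2 : eis) = ez 2 0 := by
    rw [ez_int]
    norm_num
  rw [e]
  exact not_ff (by norm_num)

omit h3 hC hκ in
lemma la_ff : la ∉ (sp ff : Ideal eis) := not_ff (by norm_num)

omit h3 hC hκ in
lemma two_la_ff : 2 * la ∉ (sp ff : Ideal eis) := by
  rw [two_la_ez]
  exact not_ff (by norm_num)

omit h3 hC hκ in
lemma m3_ff : (-3 : eis) ∉ (sp ff : Ideal eis) := by
  have e : (-3 : eis) = ez (-3) 0 := by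
    rw [ez_int]
    norm_num
  rw [e]
  exact not_ff (by norm_num)

omit h3 hC hκ in
lemma m6_ff : (-6 : eis) ∉ (sp ff : Ideal eis) := by
  have e : (-6 : eis) = ez (-6) 0 := by
    rw [ez_int]
    norm_num
  rw [e]
  exact not_ff (by norm_num)

omit hκ in
/-- the point of order `3 √-3` -/
lemma wp_w0 : v (℘[L] (lam * w0 Ω) + 1) < 1 := by
  rw [lam_w0]
  have h1 := hC.x0
  set A := ℘[L] (Ω / 3)
  have h : 3 * A ^ 2 * 0 = -(A ^ 3 + 1) := by
    rw [h1]
    ring
  exact (chain h3 h (by rw [map_zero]; exact zero_le)).2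

lemma fk_w0 : v (fk L Ω κ (w0 Ω) + cq L Ω κ) < v lam := by
  refine fk_near h3 hC hκ ?_ ?_ (wp_w0 h3 hC)
  · have := w0_notMem hC (n := 2) (by norm_num)
    push_cast at this
    exact this
  · rw [lam_w0]
    exact hC.third

lemma v_fk_w0 : v (fk L Ω κ (w0 Ω)) = v lam := by
  have h1 := fk_w0 h3 hC hκ
  have h2 := sq_lam h3 (cq_sq hC hκ)
  have e : fk L Ω κ (w0 Ω) = (fk L Ω κ (w0 Ω) + cq L Ω κ) + -cq L Ω κ := by ring
  rw [e, v.map_add_eq_of_lt_right, v.map_neg, h2]
  rw [v.map_neg, h2]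
  exact h1

omit hκ in
/-- the points of order prime to three -/
lemma wp_le {c : eis} (hc : c ≠ 0) (h3c : IsCoprime 3 c) (hct : sp c ≠ ⊤)
    (hfin : ∀ q : eis, q ≠ 0 → Finite (eis ⧸ sp q)) {x : eis} (hx : IsCoprime x c) :
    v (℘[L] (Ω * x / c)) ≤ 1 := by
  have hD := dat' hC hc h3c hct hfin
  have h4 := X_le h3 hD ⟨x, hx⟩
  have hx' : x ∉ sp c := notMem_of_cop hct hx
  have hu : Ω * x / c ∉ L.lattice := by rwa [div_mem_iff hC.lat hc]
  have h5 : XX L Ω c ⟨x, hx⟩ = 4 * ℘[L] (Ω * x / c) ^ 3 + 1 := hC.ode hu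
  rw [h5] at h4
  set A := ℘[L] (Ω * x / c)
  have hl := lam_lt h3
  have h6 : v (4 * A ^ 3 + 1) ≤ 1 := h4.trans (pow_le_one' hl.le 3)
  have h7 : v (A ^ 3) ≤ 1 := by
    have hv4 : v (4 : ℂ) = 1 := by
      have : (4 : ℂ) = 2 * 2 := by norm_num
      rw [this, map_mul, v_two h3, one_mul]
    have e : v (A ^ 3) = v (4 * A ^ 3) := by rw [map_mul, hv4, one_mul]
    rw [e]
    have e2 : 4 * A ^ 3 = (4 * A ^ 3 + 1) + -1 := by ring
    rw [e2]
    exact v.map_add_le h6 (by rw [v.map_neg, map_one])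
  rw [map_pow] at h7
  by_contra hcon
  push Not at hcon
  exact absurd h7 (not_le.2 (one_lt_pow₀ hcon three_ne_zero))

/-- the value at a point of order divisible by three -/
theorem fk_u {c : eis} (hc : c ≠ 0) (h3c : IsCoprime 3 c) (hct : sp c ≠ ⊤)
    (hfin : ∀ q : eis, q ≠ 0 → Finite (eis ⧸ sp q)) {x : eis} (hx : IsCoprime x c) :
    v (fk L Ω κ (w0 Ω + Ω * x / c) + cq L Ω κ) < v lam := by
  have hfc : IsCoprime ff c := by
    unfold ff
    exact (cop_la h3c).mul_left h3c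
  have hcC : ((c : eis) : ℂ) ≠ 0 := coe_ne hc
  have hffC : ((ff : eis) : ℂ) ≠ 0 := coe_ne ff_ne
  have hlC := lam_ne'
  set z := w0 Ω + Ω * x / c with hz
  have hpt : ∀ r : eis, (r : ℂ) * z = Ω * r / ((ff : eis) : ℂ) + Ω * ((r * x : eis) : ℂ) / c := by
    intro r
    rw [hz, ff_coe]
    unfold w0
    push_cast
    field_simp
  have hmem : ∀ r : eis, r ∉ (sp ff : Ideal eis) → (r : ℂ) * z ∉ L.lattice := by
    intro r hr
    rw [hpt]
    exact nmem hC hc hfc hr _
  have e2 : ((2 : eis) : ℂ) = 2 := rfl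
  have em3 : ((-3 : eis) : ℂ) = -3 := by
    push_cast
    rfl
  have em6 : ((-6 : eis) : ℂ) = -6 := by
    push_cast
    rfl
  -- the first point
  have a1 : 2 * z ∉ L.lattice := by
    have := hmem 2 two_ff
    rwa [e2] at this
  have a2 : lam * z ∉ L.lattice := by
    have := hmem la la_ff
    rwa [la_coe] at this
  -- the second point
  have b1 : 2 * (lam * z) ∉ L.lattice := by
    have := hmem (2 * la) two_la_ff
    push_cast at this
    rw [e2, la_coe] at this
    rwa [← mul_assoc]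
  have b2' : lam * (lam * z) = -3 * z := by linear_combination z * lam_sq
  have b2 : lam * (lam * z) ∉ L.lattice := by
    have := hmem (-3) m3_ff
    rw [em3] at this
    rwa [b2']
  -- the third point
  have c1 : 2 * (lam * (lam * z)) ∉ L.lattice := by
    have := hmem (-6) m6_ff
    rw [em6] at this
    have e : 2 * (lam * (lam * z)) = -6 * z := by linear_combination (2 * z) * lam_sq
    rwa [e]
  -- the fourth point
  have hx2 : IsCoprime (-(3 * la) * x) c := by
    refine IsCoprime.mul_left ?_ hx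
    exact (h3c.mul_left (cop_la h3c)).neg_left
  have d1 : lam * (lam * (lam * z)) - Ω * ((-(3 * la) * x : eis) : ℂ) / c ∈ L.lattice := by
    have h4 : Ω * ((-ff : eis) : ℂ) / ((ff : eis) : ℂ) ∈ L.lattice := by
      rw [mem_ff hC]
      exact neg_mem (Ideal.mem_span_singleton_self _)
    have e : lam * (lam * (lam * z)) - Ω * ((-(3 * la) * x : eis) : ℂ) / c =
        Ω * ((-ff : eis) : ℂ) / ((ff : eis) : ℂ) := by
      have e3 : ((3 : eis) : ℂ) = 3 := rfl
      rw [hz]
      push_cast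
      rw [ff_coe, la_coe, e3]
      unfold w0
      have h3' : (3 : ℂ) ≠ 0 := by norm_num
      have e5 : Ω * -(3 * lam) / (3 * lam) = -Ω := by
        field_simp
      have e6 : Ω * (-(3 * lam) * x) / c = -(3 * lam) * (Ω * x / c) := by ring
      have e7 : lam * (Ω / (3 * lam)) = Ω / 3 := by field_simp
      rw [e5, e6]
      linear_combination lam ^ 2 * e7 + (Ω / 3 + lam * (Ω * x / c)) * lam_sq
    rw [e]
    exact h4
  have d2 : lam * (lam * (lam * z)) ∉ L.lattice := by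
    intro h4
    have h5 := sub_mem h4 d1
    rw [sub_sub_cancel, div_mem_iff hC.lat hc] at h5
    exact notMem_of_cop hct hx2 h5
  have hv3 : v (℘[L] (lam * (lam * (lam * z)))) ≤ 1 := by
    rw [Pool.Agent.TH936.PU.wp_per d1]
    exact wp_le h3 hC hc h3c hct hfin hx2
  have hv2 := (chain h3 (wp_la hC c1 d2) hv3).1
  have hv1 := (chain h3 (wp_la hC b1 b2) hv2.le).2
  exact fk_near h3 hC hκ a1 a2 hv1

end val

end Pool.Agent.Helper68.C2.Ana2
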