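import Pool.Agent.Helper68.C2.Chr

/-!
# The limits of the sums for the characters modulo `3 √-3`
-/

set_option autoImplicit false
set_option linter.unusedSectionVars false

open Filter
open scoped Topology PeriodPair

namespace Pool.Agent.Helper68.C2.Lim

open H667R3 Pool.Agent.W192.HK Pool.Agent.TH936.CM Pool.Agent.TH936.PU
open Pool.Agent.Y715.Dist Pool.Agent.Y715.Idn Pool.Agent.Y715.T.Lat Pool.Agent.Y696
open Pool.Agent.Y692.QS (Ei w toC)
open Pool.Agent.Y715.T.Rs (eq0)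
open Pool.Agent.Y703.CT (toC_w_add toC_eq')
open Pool.Agent.Y703.CT.Ana (ej eo_j ej_u ej_ncop ej_prim)
open Pool.Agent.Y715.CT.Hec (la_ne)
open Pool.Agent.Y715.T.Three (lam lam_sq lam_ne')
open Pool.Agent.Helper68.C2.Chr

variable {L : PeriodPair} {Ω : ℂ} {κ : ZMod 3}

/-- the root of unity -/
noncomputable def pk (κ : ZMod 3) : ℂ := toC w ^ (-κ).val

/-- the other root of unity -/
noncomputable def qk (κ : ZMod 3) : ℂ := toC w ^ κ.val

lemma toC_w : toC w = om := by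
  have := toC_eq' 0 1
  have e1 : (w : Ei) = ⟨0, 1⟩ := rfl
  rw [e1, this]
  push_cast
  ring

lemma pq_mul (κ : ZMod 3) : pk κ * qk κ = 1 := by
  unfold pk qk
  rw [← toC_w_add, neg_add_cancel, ZMod.val_zero, pow_zero]

lemma pq_add (hκ : κ ≠ 0) : pk κ + qk κ = -1 := by
  unfold pk qk
  rw [toC_w]
  have h : κ = 1 ∨ κ = 2 := by
    revert hκ
    revert κ
    decide
  have hs := om_sq
  rcases h with rfl | rfl
  · have e1 : (-1 : ZMod 3).val = 2 := by decide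
    have e2 : (1 : ZMod 3).val = 1 := by decide
    rw [e1, e2]
    linear_combination hs
  · have e1 : (-2 : ZMod 3).val = 1 := by decide
    have e2 : (2 : ZMod 3).val = 2 := by decide
    rw [e1, e2]
    linear_combination hs

lemma pq_sub (hκ : κ ≠ 0) : (pk κ - qk κ) ^ 2 = -3 := by
  linear_combination (pk κ + qk κ - 1) * pq_add hκ - 4 * pq_mul κ

/-- the point of order `√-3` -/
noncomputable def tau (Ω : ℂ) : ℂ := Ω / lam

/-- the point of order `3 √-3` -/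
noncomputable def w0 (Ω : ℂ) : ℂ := Ω / (3 * lam)

lemma ff_coe : ((ff : eis) : ℂ) = 3 * lam := by
  unfold ff
  have e3 : ((3 : eis) : ℂ) = 3 := rfl
  push_cast
  rw [la_coe, e3]
  ring

lemma tau_eq : tau Ω = -(lam * (Ω / 3)) := by
  unfold tau
  have h := lam_ne'
  rw [div_eq_iff h]
  linear_combination (Ω / 3) * lam_sq

lemma tau_w0 : tau Ω = 3 * w0 Ω := by
  unfold tau w0
  have h := lam_ne'
  field_simp

lemma lam_w0 : lam * w0 Ω = Ω / 3 := by
  unfold w0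
  have h := lam_ne'
  field_simp

section

variable (hC : Cur L Ω)

include hC

lemma tau_ff : tau Ω = Ω * ((3 : eis) : ℂ) / ((ff : eis) : ℂ) := by
  have e3 : ((3 : eis) : ℂ) = 3 := rfl
  rw [ff_coe, e3]
  unfold tau
  have h := lam_ne'
  field_simp

lemma mem_ff (r : eis) : Ω * r / ((ff : eis) : ℂ) ∈ L.lattice ↔ r ∈ (sp ff : Ideal eis) :=
  div_mem_iff hC.lat ff_ne r

lemma ez_ff {a b : ℤ} (h : ez a b ∈ (sp ff : Ideal eis)) : (3 : ℤ) ∣ a ∧ (3 : ℤ) ∣ b ∧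
    (9 : ℤ) ∣ a + b := by
  obtain ⟨t, ht⟩ := Ideal.mem_span_singleton'.1 h
  obtain ⟨c, d, rfl⟩ := ez_ex t
  have h3 : (3 : eis) = ez 3 0 := by
    rw [ez_int]
    norm_num
  unfold ff la at ht
  rw [h3, ez_mul, ez_mul] at ht
  obtain ⟨h1, h2⟩ := ez_inj ht
  refine ⟨?_, ?_, ?_⟩
  · omega
  · omega
  · omega

lemma tau_notMem : tau Ω ∉ L.lattice := by
  rw [tau_ff hC, mem_ff hC]
  intro h
  have h3 : (3 : eis) = ez 3 0 := by
    rw [ez_int]
    norm_num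
  rw [h3] at h
  have := ez_ff hC h
  omega

lemma w0_ff (n : ℤ) : (n : ℂ) * w0 Ω = Ω * ((n : eis) : ℂ) / ((ff : eis) : ℂ) := by
  rw [ff_coe]
  unfold w0
  have h := lam_ne'
  push_cast
  field_simp

lemma w0_notMem {n : ℤ} (hn : ¬ (9 : ℤ) ∣ n) : (n : ℂ) * w0 Ω ∉ L.lattice := by
  rw [w0_ff hC, mem_ff hC, ← ez_int]
  intro h
  have := ez_ff hC h
  omega

lemma wp_tau : ℘[L] (tau Ω) = 0 := by
  rw [tau_eq, L.weierstrassP_neg]
  exact wp_la_third hC

lemma dwp_tau : ℘'[L] (tau Ω) ^ 2 = 1 := by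
  rw [hC.ode (tau_notMem hC), wp_tau hC]
  ring

lemma om_tau : om * tau Ω - tau Ω ∈ L.lattice := by
  have h := tau_ff hC
  have e : om * tau Ω - tau Ω = Ω * (((omr - 1) * 3 : eis) : ℂ) / ((ff : eis) : ℂ) := by
    rw [h]
    push_cast
    rw [omr_coe]
    ring
  rw [e, mem_ff hC]
  rw [Ideal.mem_span_singleton']
  have h1 : (omr - 1 : eis) ∈ (sp la : Ideal eis) := by
    obtain ⟨t, ht⟩ := Pool.Agent.Y715.T.LF.rd_eq_zero (r := omr - 1) (by
      rw [map_sub, Pool.Agent.Y715.CT.Hec.rd_omr, map_one, sub_self])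
    rw [ht, mul_comm]
    exact Ideal.mem_span_singleton'.2 ⟨t, rfl⟩
  obtain ⟨t, ht⟩ := Ideal.mem_span_singleton'.1 h1
  refine ⟨t, ?_⟩
  unfold ff
  linear_combination 3 * ht

lemma EE_tau (δ : ℝ) : EE eis Ω δ (tau Ω) = 0 := by
  have h1 := EE_unit omr_unit Ω δ (tau Ω)
  rw [omr_coe] at h1
  have h2 := EE_per hC.lat δ (om_tau hC)
  rw [h2] at h1
  have h3 : om ≠ 0 := om_ne
  have h4 : om ≠ 1 := Pool.Agent.Y715.CT.Hec.om_ne_one
  have h5 : (om - 1) * EE eis Ω δ (tau Ω) = 0 := by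
    have : om * EE eis Ω δ (tau Ω) = EE eis Ω δ (tau Ω) := by
      conv_lhs => rw [h1]
      rw [mul_inv_cancel_left₀ h3]
    linear_combination this
  exact (mul_eq_zero.1 h5).resolve_left (sub_ne_zero.2 h4)

end

/-- the constant -/
noncomputable def cq (L : PeriodPair) (Ω : ℂ) (κ : ZMod 3) : ℂ := (pk κ - qk κ) * ℘'[L] (tau Ω)

/-- the function -/
noncomputable def fk (L : PeriodPair) (Ω : ℂ) (κ : ZMod 3) (z : ℂ) : ℂ :=
  -(℘'[L] z + cq L Ω κ) / (2 * ℘[L] z)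

/-- the finite sum -/
noncomputable def Gk (Ω : ℂ) (κ : ZMod 3) (δ : ℝ) (z : ℂ) : ℂ :=
  EE eis Ω δ z + pk κ * EE eis Ω δ (z + tau Ω) + qk κ * EE eis Ω δ (z - tau Ω)

lemma cq_sq (hC : Cur L Ω) (hκ : κ ≠ 0) : cq L Ω κ ^ 2 = -3 := by
  unfold cq
  rw [mul_pow, pq_sub hκ, dwp_tau hC, mul_one]

theorem lim_fk (hC : Cur L Ω) (hκ : κ ≠ 0) {z : ℂ} (hz : z ∉ L.lattice)
    (h1 : z + tau Ω ∉ L.lattice) (h2 : z - tau Ω ∉ L.lattice) :
    Tendsto (fun δ : ℝ => Gk Ω κ δ z) (𝓝[>] 0) (𝓝 (fk L Ω κ z)) := by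
  have ht := tau_notMem hC
  have l1 := lim_Dd hC.lat hz ht h1 h2
  have h2' : tau Ω - z ∉ L.lattice := by
    rw [← neg_mem_iff, neg_sub]
    exact h2
  have h1' : tau Ω + z ∉ L.lattice := by rwa [add_comm]
  have l2 := lim_Dd hC.lat ht hz h1' h2'
  have l3 := (l1.const_mul (-(1 / 2 : ℂ))).add (l2.const_mul ((pk κ - qk κ) / 2))
  have e : -(1 / 2 : ℂ) * Dd L z (tau Ω) + (pk κ - qk κ) / 2 * Dd L (tau Ω) z = fk L Ω κ z := by
    unfold Dd fk cq
    rw [wp_tau hC, sub_zero, zero_sub]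
    by_cases hx : ℘[L] z = 0
    · rw [hx]
      simp
    · field_simp
      ring
  rw [e] at l3
  refine l3.congr fun δ => ?_
  have e1 : EE eis Ω δ (tau Ω + z) = EE eis Ω δ (z + tau Ω) := by rw [add_comm]
  have e2 : EE eis Ω δ (tau Ω - z) = -EE eis Ω δ (z - tau Ω) := by
    rw [← neg_sub, EE_neg]
  rw [e1, e2, EE_tau hC]
  unfold Gk
  linear_combination (-(EE eis Ω δ (z + tau Ω) + EE eis Ω δ (z - tau Ω)) / 2) * pq_add hκ

lemma fk_per {z z' : ℂ} (h : z - z' ∈ L.lattice) : fk L Ω κ z = fk L Ω κ z' := by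
  unfold fk
  rw [Pool.Agent.TH936.PU.wp_per h, Pool.Agent.TH936.PU.dwp_per h]

/-! ### the constants -/

lemma tn_four : tn (4 : eis) = -1 := by
  have e : (4 : eis) = ez 4 0 := by
    rw [ez_int]
    norm_num
  rw [e, tn_ez]
  decide

lemma tn_mtwo : tn (-2 : eis) = 1 := by
  have e : (-2 : eis) = ez (-2) 0 := by
    rw [ez_int]
    norm_num
  rw [e, tn_ez]
  decide

lemma ek_four (j : Fin 3) : ek κ j (4 : eis) = pk κ := by
  have h : (4 : eis) - 1 ∈ (sp 3 : Ideal eis) := by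
    rw [Ideal.mem_span_singleton']
    exact ⟨1, by ring⟩
  unfold ek pk
  rw [ej_prim j h, one_mul, tn_four, mul_neg, mul_one]

lemma ek_mtwo (j : Fin 3) : ek κ j (-2 : eis) = qk κ := by
  have h : (-2 : eis) - 1 ∈ (sp 3 : Ideal eis) := by
    rw [Ideal.mem_span_singleton']
    exact ⟨-1, by ring⟩
  unfold ek qk
  rw [ej_prim j h, one_mul, tn_mtwo, mul_one]

lemma z1 : om + om ^ 3 + om ^ 5 = 0 := by linear_combination om_sq + (1 + om ^ 2) * om_cube

lemma z2 : om ^ 2 + (om ^ 2) ^ 3 + (om ^ 2) ^ 5 = 0 := by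
  linear_combination om_sq + (om ^ 3 + 1 + om * (om ^ 6 + om ^ 3 + 1)) * om_cube

/-- the sum of the three characters at a unit times `s` -/
lemma sum_ek {u : eis} (hu : IsUnit u) (s : eis) : ∑ j : Fin 3, ek κ j (u * s) =
    ((u : ℂ) ^ 1) * ek κ 0 s + (u : ℂ) ^ 3 * ek κ 1 s + (u : ℂ) ^ 5 * ek κ 2 s := by
  rw [Fin.sum_univ_three, (eo_k κ 0).mul, (eo_k κ 1).mul, (eo_k κ 2).mul, ek_u 0 hu, ek_u 1 hu,
    ek_u 2 hu]
  norm_num

lemma ek_one (j : Fin 3) : ek κ j 1 = 1 := by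
  rw [ek_u j isUnit_one]
  push_cast
  rw [one_pow]

/-- the limits of the constants -/
noncomputable def Ek (L : PeriodPair) (Ω : ℂ) (κ : ZMod 3) (j : Fin 3) : ℂ :=
  if j = 0 then 6 * fk L Ω κ (w0 Ω) else 0

lemma w0_facts (hC : Cur L Ω) : w0 Ω ∉ L.lattice ∧ w0 Ω + tau Ω ∉ L.lattice ∧
    w0 Ω - tau Ω ∉ L.lattice := by
  have h1 := w0_notMem hC (n := 1) (by norm_num)
  have h2 := w0_notMem hC (n := 4) (by norm_num)
  have h3 := w0_notMem hC (n := -2) (by norm_num)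
  rw [tau_w0]
  push_cast at h1 h2 h3
  refine ⟨by rwa [one_mul] at h1, ?_, ?_⟩
  · convert h2 using 2
    ring
  · convert h3 using 2
    ring

theorem lim_k (hC : Cur L Ω) (hκ : κ ≠ 0) [Fintype (eis ⧸ (sp ff : Ideal eis))] (j : Fin 3) :
    Tendsto (fun δ : ℝ => ∑ y : eis ⧸ (sp ff : Ideal eis), ek κ j y.out *
      EE eis Ω δ (Ω * y.out / (ff : eis))) (𝓝[>] 0) (𝓝 (Ek L Ω κ j)) := by
  obtain ⟨hw1, hw2, hw3⟩ := w0_facts hC
  have hlim := lim_fk hC hκ hw1 hw2 hw3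
  have e0 : Ek L Ω κ j = (if j = 0 then 6 else 0) * fk L Ω κ (w0 Ω) := by
    unfold Ek
    by_cases hj : j = 0
    · rw [if_pos hj, if_pos hj]
    · rw [if_neg hj, if_neg hj, zero_mul]
  rw [e0]
  refine (hlim.const_mul _).congr fun δ => ?_
  have hper : ∀ x y : eis, x - y ∈ (sp ff : Ideal eis) →
      ek κ j x * EE eis Ω δ (Ω * x / (ff : eis)) = ek κ j y * EE eis Ω δ (Ω * y / (ff : eis)) := by
    intro x y hxy
    rw [(eo_k κ j).per x y hxy]
    congr 1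
    apply EE_per hC.lat
    have := (div_mem_iff hC.lat ff_ne (x - y)).2 hxy
    convert this using 1
    push_cast
    ring
  rw [eighteen_sum (fun y => ek κ j y * EE eis Ω δ (Ω * y / (ff : eis)))
    (fun x hx => by rw [ek_ncop j hx, zero_mul]) hper]
  have hterm : ∀ u : eis, IsUnit u → ∀ s : eis, ek κ j (u * s) *
      EE eis Ω δ (Ω * ((u * s : eis) : ℂ) / (ff : eis)) =
      (u : ℂ) ^ (2 * (j : ℕ)) * (ek κ j s * EE eis Ω δ (s * w0 Ω)) := by
    intro u hu s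
    have hu0 : (u : ℂ) ≠ 0 := coe_ne hu.ne_zero
    have e : Ω * ((u * s : eis) : ℂ) / ((ff : eis) : ℂ) = u * (s * w0 Ω) := by
      rw [ff_coe]
      unfold w0
      push_cast
      ring
    rw [(eo_k κ j).mul, ek_u j hu, e, EE_unit hu, pow_succ]
    field_simp
  have hall : ∀ u : eis, IsUnit u → (fun u : eis =>
      (fun y : eis => ek κ j y * EE eis Ω δ (Ω * y / (ff : eis))) u +
      (fun y : eis => ek κ j y * EE eis Ω δ (Ω * y / (ff : eis))) (u * 4) +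
      (fun y : eis => ek κ j y * EE eis Ω δ (Ω * y / (ff : eis))) (u * -2)) u =
      (u : ℂ) ^ (2 * (j : ℕ)) * Gk Ω κ δ (w0 Ω) := by
    intro u hu
    have h1 := hterm u hu 1
    have h4 := hterm u hu 4
    have h2 := hterm u hu (-2)
    beta_reduce
    rw [mul_one] at h1
    rw [h1, h4, h2, ek_one, ek_four, ek_mtwo]
    unfold Gk
    have e1 : (((1 : eis) : ℂ) * w0 Ω) = w0 Ω := by push_cast; ring
    have e4 : (((4 : eis) : ℂ) * w0 Ω) = w0 Ω + tau Ω := by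
      have : ((4 : eis) : ℂ) = 4 := rfl
      rw [this, tau_w0]
      ring
    have e2 : (((-2 : eis) : ℂ) * w0 Ω) = w0 Ω - tau Ω := by
      have : ((-2 : eis) : ℂ) = -2 := by
        push_cast
        rfl
      rw [this, tau_w0]
      ring
    rw [e1, e4, e2]
    ring
  have hu : ∀ v ∈ ({1, -1, omr, -omr, omr ^ 2, -omr ^ 2} : Set eis), IsUnit v := fun v hv =>
    (unit_list v).2 hv
  have a1 := hall 1 (hu _ (by simp))
  have a2 := hall (-1) (hu _ (by simp))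
  have a3 := hall omr (hu _ (by simp))
  have a4 := hall (-omr) (hu _ (by simp))
  have a5 := hall (omr ^ 2) (hu _ (by simp))
  have a6 := hall (-omr ^ 2) (hu _ (by simp))
  rw [a1, a2, a3, a4, a5, a6]
  push_cast
  rw [omr_coe]
  have h3 := om_cube
  have hs := om_sq
  have hj : (j = 0 ∧ (j : ℕ) = 0) ∨ (j ≠ 0 ∧ (j : ℕ) = 1) ∨ (j ≠ 0 ∧ (j : ℕ) = 2) := by
    clear a1 a2 a3 a4 a5 a6 hall hterm hper e0
    revert j
    decide
  rcases hj with ⟨h, h'⟩ | ⟨h, h'⟩ | ⟨h, h'⟩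
  · rw [if_pos h, h']
    simp only [mul_zero, pow_zero]
    ring
  · rw [if_neg h, h', zero_mul]
    linear_combination (-2 * Gk Ω κ δ (w0 Ω)) * hs + (-2 * om * Gk Ω κ δ (w0 Ω)) * h3
  · rw [if_neg h, h', zero_mul]
    linear_combination (-2 * Gk Ω κ δ (w0 Ω)) * hs +
      (-2 * om * Gk Ω κ δ (w0 Ω) - 2 * Gk Ω κ δ (w0 Ω) * (om ^ 5 + om ^ 2)) * h3

/-- **The sum of the three limits.** -/
theorem sum_Ph3 (hC : Cur L Ω) (hκ : κ ≠ 0) [Fintype (eis ⧸ (sp ff : Ideal eis))] {c : eis}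
    (hc : c ≠ 0) (hfc : IsCoprime ff c) (x : eis) :
    ∑ j : Fin 3, Ph L Ω ff (ek κ j) (Ek L Ω κ j) c x =
      3 * (fk L Ω κ (w0 Ω + Ω * x / c) + fk L Ω κ (w0 Ω - Ω * x / c)) := by
  have hlimtot : Tendsto (fun δ : ℝ => ∑ j : Fin 3, ∑ y : eis ⧸ (sp ff : Ideal eis), ek κ j y.out *
      EE eis Ω δ (Ω * y.out / (ff : eis) + Ω * x / c)) (𝓝[>] 0)
      (𝓝 (∑ j : Fin 3, Ph L Ω ff (ek κ j) (Ek L Ω κ j) c x)) :=
    tendsto_finsetSum _ fun j _ => lim_Ph hC.lat ff_ne hc hfc (eo_k κ j) (lim_k hC hκ j) x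
  obtain ⟨hw1, hw2, hw3⟩ := w0_facts hC
  set u : ℂ := Ω * x / c with hu
  -- the points
  have key : ∀ n : ℤ, ¬ (9 : ℤ) ∣ n → (n : ℂ) * w0 Ω + u ∉ L.lattice ∧
      (n : ℂ) * w0 Ω - u ∉ L.lattice := by
    intro n hn
    by_cases hx : x ∈ sp c
    · have hm : u ∈ L.lattice := (div_mem_iff hC.lat hc x).2 hx
      have h1 := w0_notMem hC hn
      constructor
      · intro h2
        apply h1
        have := sub_mem h2 hm
        rwa [add_sub_cancel_right] at this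
      · intro h2
        apply h1
        have := add_mem h2 hm
        rwa [sub_add_cancel] at this
    · rw [w0_ff hC]
      exact cop_notMem hC.lat ff_ne hc hfc hx
  have k1 := key 1 (by norm_num)
  have k4 := key 4 (by norm_num)
  have k2 := key (-2) (by norm_num)
  push_cast at k1 k4 k2
  rw [one_mul] at k1
  have e4 : (4 : ℂ) * w0 Ω = w0 Ω + tau Ω := by
    rw [tau_w0]
    ring
  have e2 : (-2 : ℂ) * w0 Ω = w0 Ω - tau Ω := by
    rw [tau_w0]
    ring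
  rw [e4] at k4
  rw [e2] at k2
  have l1 := lim_fk hC hκ (z := w0 Ω + u) k1.1
    (by have := k4.1; convert this using 2; ring) (by have := k2.1; convert this using 2; ring)
  have l2 := lim_fk hC hκ (z := w0 Ω - u) k1.2
    (by have := k4.2; convert this using 2; ring) (by have := k2.2; convert this using 2; ring)
  have l3 := (l1.add l2).const_mul (3 : ℂ)
  refine tendsto_nhds_unique hlimtot (l3.congr fun δ => ?_)
  have hsum : ∑ j : Fin 3, ∑ y : eis ⧸ (sp ff : Ideal eis), ek κ j y.out *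
      EE eis Ω δ (Ω * y.out / (ff : eis) + u) =
      ∑ y : eis ⧸ (sp ff : Ideal eis), (fun y : eis => (∑ j : Fin 3, ek κ j y) *
        EE eis Ω δ (Ω * y / (ff : eis) + u)) y.out := by
    rw [Finset.sum_comm]
    exact Finset.sum_congr rfl fun y _ => (Finset.sum_mul _ _ _).symm
  have hper : ∀ x y : eis, x - y ∈ (sp ff : Ideal eis) →
      (∑ j : Fin 3, ek κ j x) * EE eis Ω δ (Ω * x / (ff : eis) + u) =
      (∑ j : Fin 3, ek κ j y) * EE eis Ω δ (Ω * y / (ff : eis) + u) := by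
    intro x y hxy
    rw [Finset.sum_congr rfl fun j _ => (eo_k κ j).per x y hxy]
    congr 1
    apply EE_per hC.lat
    have := (div_mem_iff hC.lat ff_ne (x - y)).2 hxy
    convert this using 1
    push_cast
    ring
  rw [hsum, eighteen_sum (fun y : eis => (∑ j : Fin 3, ek κ j y) *
        EE eis Ω δ (Ω * y / (ff : eis) + u))
    (fun x hx => by
      rw [Finset.sum_eq_zero fun j _ => ek_ncop j hx, zero_mul]) hper]
  have hterm : ∀ v : eis, IsUnit v → ∀ s : eis, ∀ ρ : ℂ, (∀ j, ek κ j s = ρ) →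
      (∑ j : Fin 3, ek κ j (v * s)) * EE eis Ω δ (Ω * ((v * s : eis) : ℂ) / (ff : eis) + u) =
      ((v : ℂ) + (v : ℂ) ^ 3 + (v : ℂ) ^ 5) * (ρ * EE eis Ω δ (v * (s * w0 Ω) + u)) := by
    intro v hv s ρ hρ
    have e : Ω * ((v * s : eis) : ℂ) / ((ff : eis) : ℂ) = v * (s * w0 Ω) := by
      rw [ff_coe]
      unfold w0
      push_cast
      ring
    rw [sum_ek hv, e, hρ, hρ, hρ]
    ring
  have hall : ∀ v : eis, IsUnit v → (fun v : eis =>
      (fun y : eis => (∑ j : Fin 3, ek κ j y) * EE eis Ω δ (Ω * y / (ff : eis) + u)) v +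
      (fun y : eis => (∑ j : Fin 3, ek κ j y) * EE eis Ω δ (Ω * y / (ff : eis) + u)) (v * 4) +
      (fun y : eis => (∑ j : Fin 3, ek κ j y) * EE eis Ω δ (Ω * y / (ff : eis) + u)) (v * -2)) v =
      ((v : ℂ) + (v : ℂ) ^ 3 + (v : ℂ) ^ 5) * (EE eis Ω δ (v * w0 Ω + u) +
        pk κ * EE eis Ω δ (v * (w0 Ω + tau Ω) + u) +
        qk κ * EE eis Ω δ (v * (w0 Ω - tau Ω) + u)) := by
    intro v hv
    have h1 := hterm v hv 1 1 ek_one
    have h4 := hterm v hv 4 (pk κ) ek_four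
    have h2 := hterm v hv (-2) (qk κ) ek_mtwo
    beta_reduce
    rw [mul_one] at h1
    rw [h1, h4, h2]
    have e1 : (((1 : eis) : ℂ) * w0 Ω) = w0 Ω := by push_cast; ring
    have e4 : (((4 : eis) : ℂ) * w0 Ω) = w0 Ω + tau Ω := by
      have : ((4 : eis) : ℂ) = 4 := rfl
      rw [this, tau_w0]
      ring
    have e2 : (((-2 : eis) : ℂ) * w0 Ω) = w0 Ω - tau Ω := by
      have : ((-2 : eis) : ℂ) = -2 := by
        push_cast
        rfl
      rw [this, tau_w0]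
      ring
    rw [e1, e4, e2]
    ring
  have hun : ∀ v ∈ ({1, -1, omr, -omr, omr ^ 2, -omr ^ 2} : Set eis), IsUnit v := fun v hv =>
    (unit_list v).2 hv
  have a1 := hall 1 (hun _ (by simp))
  have a2 := hall (-1) (hun _ (by simp))
  have a3 := hall omr (hun _ (by simp))
  have a4 := hall (-omr) (hun _ (by simp))
  have a5 := hall (omr ^ 2) (hun _ (by simp))
  have a6 := hall (-omr ^ 2) (hun _ (by simp))
  rw [a1, a2, a3, a4, a5, a6]
  push_cast
  rw [omr_coe]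
  have z3 : -om + (-om) ^ 3 + (-om) ^ 5 = 0 := by linear_combination -z1
  have z4 : -om ^ 2 + (-om ^ 2) ^ 3 + (-om ^ 2) ^ 5 = 0 := by linear_combination -z2
  rw [z1, z2, z3, z4]
  have n1 : EE eis Ω δ (-1 * w0 Ω + u) = -EE eis Ω δ (w0 Ω - u) := by
    rw [← EE_neg]
    congr 1
    ring
  have n2 : EE eis Ω δ (-1 * (w0 Ω + tau Ω) + u) = -EE eis Ω δ (w0 Ω - u + tau Ω) := by
    rw [← EE_neg]
    congr 1
    ring
  have n3 : EE eis Ω δ (-1 * (w0 Ω - tau Ω) + u) = -EE eis Ω δ (w0 Ω - u - tau Ω) := by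
    rw [← EE_neg]
    congr 1
    ring
  have n4 : EE eis Ω δ (1 * (w0 Ω + tau Ω) + u) = EE eis Ω δ (w0 Ω + u + tau Ω) := by
    congr 1
    ring
  have n5 : EE eis Ω δ (1 * (w0 Ω - tau Ω) + u) = EE eis Ω δ (w0 Ω + u - tau Ω) := by
    congr 1
    ring
  rw [n1, n2, n3, n4, n5, one_mul]
  unfold Gk
  ring

end Pool.Agent.Helper68.C2.Lim
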