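import Pool.Graph.R_seed8.Y455.CTK.MIN
import Pool.Graph.R_seed8.Y350.CTK.Tam

/-!
# The equation `y² + D y = x³` is minimal at every finite place, `D` prime to three
-/

set_option autoImplicit false
set_option linter.unusedSectionVars false

open scoped Classical

namespace Pool.Agent.Helper68.C2.Min2

open NumberField IsDedekindDomain WeierstrassCurve WithZero
open Pool.Agent.Y692.QS (Ei w nr toC)
open Pool.Agent.Y696.CTK (ED)
open Pool.Agent.Y715.T.Gi (lam lam_sq prime_lam CF)
open Pool.Agent.Y455.CTK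
open Pool.Agent.Y350.CTK.Tam (te te_prime three_mem mem_pl)

/-- a cube-free element is not in the cube of a prime -/
theorem not_cb {K : Type} [Field K] [NumberField K] (j : Ei ≃+* 𝓞 K)
    (v : HeightOneSpectrum (𝓞 K)) {D : Ei} (hD : CF D) : j D ∉ v.asIdeal ^ 3 := by
  intro h
  have := pid_of j
  obtain ⟨p, hp⟩ := IsPrincipalIdealRing.principal v.asIdeal
  have hp' : v.asIdeal = Ideal.span {p} := hp
  rw [hp', Ideal.span_singleton_pow, Ideal.mem_span_singleton] at h
  have h1 : (j.symm p) ^ 3 ∣ D := by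
    obtain ⟨c, hc⟩ := h
    refine ⟨j.symm c, ?_⟩
    apply j.injective
    rw [map_mul, map_pow, RingEquiv.apply_symm_apply, RingEquiv.apply_symm_apply, hc]
  have h2 := hD.2 _ h1
  have h3 : IsUnit p := by
    have := h2.map (j : Ei →* 𝓞 K)
    simpa using this
  apply v.isPrime.ne_top
  rw [hp', Ideal.span_singleton_eq_top]
  exact h3

theorem mink2 (K : Type) [Field K] [NumberField K] (j : Ei ≃+* 𝓞 K) (D : Ei)
    (hl : ¬ te ∣ D) (hcf : CF D) (v : HeightOneSpectrum (𝓞 K)) :
    IsMinimal (v.adicCompletionIntegers K) ((ED (j D : K)).baseChange (v.adicCompletion K)) := by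
  have hbc : (ED (j D : K)).baseChange (v.adicCompletion K) =
      ED (algebraMap (v.adicCompletionIntegers K) (v.adicCompletion K)
        (algebraMap (𝓞 K) (v.adicCompletionIntegers K) (j D))) := by
    unfold WeierstrassCurve.baseChange
    rw [ED_map]
    rfl
  rw [hbc]
  apply isMinimal_ED
  rintro u hu ⟨r, hr⟩
  have h1 : Valued.v (u : v.adicCompletion K) < 1 := (Pool.Agent.W189.NF.mem_max_iff v u).1 hu
  have h2 : Valued.v (u : v.adicCompletion K) ≤ exp (-1 : ℤ) := Pool.Agent.Y696.exp_lt h1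
  have h3 : Valued.v (r : v.adicCompletion K) ≤ 1 := r.2
  obtain ⟨δ, hδ⟩ : ∃ δ : v.adicCompletion K, δ = algebraMap K (v.adicCompletion K) (j D : K) :=
    ⟨_, rfl⟩
  have h4 : (27 : v.adicCompletion K) * δ ^ 4 =
      (u : v.adicCompletion K) ^ 12 * (r : v.adicCompletion K) := by
    have := congrArg (algebraMap (v.adicCompletionIntegers K) (v.adicCompletion K)) hr
    rw [map_mul, map_mul, map_pow, map_pow, map_ofNat] at this
    rw [hδ]
    exact this
  have h5 : Valued.v ((27 : v.adicCompletion K) * δ ^ 4) ≤ exp (-12 : ℤ) := by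
    rw [h4, map_mul, map_pow]
    calc _ ≤ (exp (-1 : ℤ)) ^ 12 * 1 := by gcongr
      _ = exp (-12 : ℤ) := by rw [mul_one, ← exp_nsmul]; rfl
  have hval : ∀ x : 𝓞 K, Valued.v (algebraMap K (v.adicCompletion K) (x : K)) =
      v.intValuation x := by
    intro x
    rw [Pool.Agent.H723R3.valued_algebraMap]
    exact HeightOneSpectrum.valuation_of_algebraMap (K := K) v x
  have hφ : ∀ x : 𝓞 K, algebraMap K (v.adicCompletion K) (x : K) =
      ((algebraMap K (v.adicCompletion K)).comp (algebraMap (𝓞 K) K)) x := fun _ => rfl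
  have h6 : (exp (-8 : ℤ) : ℤᵐ⁰) ≤ Valued.v ((27 : v.adicCompletion K) * δ ^ 4) := by
    by_cases hv : (3 : 𝓞 K) ∈ v.asIdeal
    · have e2 := val_theta j v hv
      have e1 : (27 : 𝓞 K) = -(j lam) ^ 6 := by
        have hsq : (j lam) ^ 2 = -3 := by
          rw [← map_pow, lam_sq, map_neg, map_ofNat]
        linear_combination ((j lam) ^ 4 - 3 * (j lam) ^ 2 + 9) * hsq
      have e3 : v.intValuation (j D) = 1 := by
        rw [HeightOneSpectrum.intValuation_eq_one_iff]
        have hv' : j 3 ∈ v.asIdeal := by rwa [map_ofNat]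
        rw [three_mem j hv', mem_pl]
        exact hl
      have e5 : (27 : v.adicCompletion K) * δ ^ 4 =
          algebraMap K (v.adicCompletion K) (((27 * (j D) ^ 4 : 𝓞 K)) : K) := by
        rw [hδ, hφ, hφ, map_mul, map_pow, map_ofNat]
      rw [e5, hval, map_mul, map_pow, e3, one_pow, mul_one, e1, Valuation.map_neg, map_pow, e2]
      calc (exp (-8 : ℤ) : ℤᵐ⁰) ≤ exp (-6 : ℤ) := by rw [exp_le_exp]; norm_num
        _ = (exp (-1 : ℤ)) ^ 6 := by rw [← exp_nsmul]; rfl
    · have e2 : v.intValuation (3 : 𝓞 K) = 1 := HeightOneSpectrum.intValuation_eq_one_iff.2 hv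
      have e3 : (exp (-2 : ℤ) : ℤᵐ⁰) ≤ v.intValuation (j D) := by
        have h7 : ¬ v.intValuation (j D) ≤ exp (-((3 : ℕ) : ℤ)) := by
          rw [v.intValuation_le_pow_iff_mem]
          exact not_cb j v hcf
        rw [not_le] at h7
        obtain ⟨n, hn⟩ := Pool.Agent.Y696.exp_rep (ne_of_gt (lt_of_le_of_lt zero_le h7))
        rw [hn] at h7 ⊢
        rw [exp_lt_exp] at h7
        rw [exp_le_exp]
        push_cast at h7
        omega
      have e5 : (27 : v.adicCompletion K) * δ ^ 4 =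
          algebraMap K (v.adicCompletion K) (((3 ^ 3 * (j D) ^ 4 : 𝓞 K)) : K) := by
        rw [hδ, hφ, hφ, map_mul, map_pow, map_pow, map_ofNat]
        norm_num
      rw [e5, hval, map_mul, map_pow, map_pow, e2, one_pow, one_mul]
      calc (exp (-8 : ℤ) : ℤᵐ⁰) = (exp (-2 : ℤ)) ^ 4 := by rw [← exp_nsmul]; rfl
        _ ≤ _ := by gcongr
  have h7 := h6.trans h5
  rw [exp_le_exp] at h7
  norm_num at h7

end Pool.Agent.Helper68.C2.Min2
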