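import Pool.Agent.Helper68.C2.AN2
import Pool.Graph.R_seed8.Y703.CT.T1

/-!
# The valuation of the square of the central value
-/

set_option autoImplicit false
set_option linter.unusedVariables false
set_option linter.unusedSectionVars false

open scoped Classical

namespace Pool.Agent.Helper68.C2.Val2

open Pool.Agent.Y692.QS (Ei w toC)
open Pool.Agent.Y715.T.Rec (cs)
open Pool.Agent.Y715.T.RecG (Pq)
open Pool.Agent.Y703.CT
open Pool.Agent.Y715.T.Cg (Cg z_pow)
open Pool.Agent.Y715.T.Three (lam lam_ne lam_lt lam_ne' lam_pos sq_three v_nine)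
open Pool.Agent.Y696 (Cur)
open Pool.Agent.Helper68.C2 Pool.Agent.Helper68.C2.Comb2

variable {J : Type} [Fintype J] {π : J → Ei} {e : J → ZMod 3} {κ : ZMod 3}

lemma am_eq (hD : Dt π e) (i j : J) : i ≠ j → am π (fun j => -e j) i j = e j * cs (π i) (π j) := by
  intro hij
  unfold am
  rw [Pool.Agent.Y350.CT.rec (π j) (π i) (hD.pq j) (hD.pq i) (hD.nd j i (Ne.symm hij))]
  ring

lemma sum_am (hD : Dt π e) (v : J → ZMod 3) (i : J) :
    ∑ j, am π (fun j => -e j) i j * (v j - v i) = ∑ j, e j * cs (π i) (π j) * (v j - v i) := by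
  refine Finset.sum_congr rfl fun j _ => ?_
  by_cases hij : i = j
  · rw [hij, sub_self, mul_zero, mul_zero]
  · rw [am_eq hD i j hij]

lemma sym (hD : Dt π e) : ∀ i j, i ≠ j → e i * am π (fun j => -e j) i j =
    e j * am π (fun j => -e j) j i := by
  intro i j hij
  rw [am_eq hD i j hij, am_eq hD j i (Ne.symm hij),
    Pool.Agent.Y350.CT.rec (π j) (π i) (hD.pq j) (hD.pq i) (hD.nd j i (Ne.symm hij))]
  ring

lemma ker_iff (hD : Dt π e) :
    Ker2 (am π (fun j => -e j)) (fun i => -(κ * rq (π i))) ↔ KerW π e κ := by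
  unfold Ker2 KerW
  simp only [sum_am hD]

/-- the determinant and the kernel -/
theorem det_iff (hD : Dt π e) :
    (KerW π e κ → Pool.Agent.Y715.T.Comb.D (ap (am π (fun j => -e j))
      (fun i => -(κ * rq (π i))) (fun i => e i * -(κ * rq (π i)))) dn Finset.univ ≠ 0) ∧
    (¬ KerW π e κ → Pool.Agent.Y715.T.Comb.D (ap (am π (fun j => -e j))
      (fun i => -(κ * rq (π i))) (fun i => e i * -(κ * rq (π i)))) dn Finset.univ = 0) := by
  constructor
  · intro hk
    exact D2_ne hD.e0 (sym hD) ((ker_iff hD).2 hk)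
  · intro hk
    exact D2_zero hD.e0 (sym hD) fun h => hk ((ker_iff hD).1 h)

/-- the valuation of `|F(1)|²` -/
theorem val_sq (hD : Dt π e) (hκ : κ ≠ 0) :
    ∃ F : ℂ → ℂ, IsHL2 π (fun j => -e j) κ F ∧
      ∀ (Γ : Type) [LinearOrderedCommGroupWithZero Γ] (v : Valuation ℂ Γ), v 3 < 1 →
        ∀ (L : PeriodPair) (Ω : ℂ), Cur L Ω → ∃ g : Γ, g ≤ 1 ∧ (KerW π e κ → g = 1) ∧
          (¬ KerW π e κ → g < 1) ∧
          v (F 1 * (starRingEnd ℂ) (F 1) / (Ω * (starRingEnd ℂ) Ω)) * (v lam * v lam) ^ 2 =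
            (v lam * v lam) ^ Fintype.card J * g := by
  obtain ⟨F, hF, hval⟩ := AN2.an_val (κ := κ) hD.neg hκ
  obtain ⟨hd1, hd0⟩ := det_iff (κ := κ) hD
  refine ⟨F, hF, ?_⟩
  intro Γ _ v hv L Ω hC
  have hv' : (v.comap (starRingEnd ℂ)) 3 < 1 := by
    rw [Valuation.comap_apply, map_ofNat]
    exact hv
  obtain ⟨s, hs, h1⟩ := hval Γ v hv L Ω hC (fun i => e i * -(κ * rq (π i)))
  obtain ⟨s', hs', h1'⟩ := hval Γ (v.comap (starRingEnd ℂ)) hv' L Ω hC
    (fun i => e i * -(κ * rq (π i)))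
  have h2 : (v.comap (starRingEnd ℂ)) lam = v lam := by
    rw [Valuation.comap_apply, conj_lam, v.map_neg]
  rw [h2] at h1'
  have h3 : (v.comap (starRingEnd ℂ)) ((starRingEnd ℂ) (F 1) / Ω) =
      v (F 1 / (starRingEnd ℂ) Ω) := by
    rw [Valuation.comap_apply, map_div₀ (starRingEnd ℂ), Complex.conj_conj]
  rw [h3] at h1'
  refine ⟨v s * (v.comap (starRingEnd ℂ)) s', ?_, fun hk => ?_, fun hk => ?_, ?_⟩
  · exact mul_le_one' hs.le hs'.le
  · rw [hs.eq_one hv (hd1 hk), hs'.eq_one hv' (hd1 hk), one_mul]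
  · rw [hd0 hk] at hs hs'
    exact mul_lt_one_of_lt_of_le hs.lt_one hs'.le
  · have e : F 1 * (starRingEnd ℂ) (F 1) / (Ω * (starRingEnd ℂ) Ω) =
        ((starRingEnd ℂ) (F 1) / Ω) * (F 1 / (starRingEnd ℂ) Ω) := by
      rw [div_mul_div_comm]
      ring
    rw [e, map_mul]
    calc _ = (v ((starRingEnd ℂ) (F 1) / Ω) * (v lam * v lam)) *
          (v (F 1 / (starRingEnd ℂ) Ω) * (v lam * v lam)) := by
          rw [pow_two]
          ac_rfl
      _ = _ := by rw [h1, h1', mul_pow]; ac_rfl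

end Pool.Agent.Helper68.C2.Val2
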